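import Pool.Agent.Lib_helper84.LV.Defs
import Pool.Agent.Lib_helper84.HSGF.GA1
import Pool.Agent.Lib_helper84.HSGF.GA3

/-! # Block LA (CPR): ideals prime to the level -/

namespace Pool.Agent.HSG.LV

open Complex NumberField IsDedekindDomain
open scoped nonZeroDivisors MatrixGroups

variable {K : Type} [Field K] [NumberField K]

theorem la_one_mem : (1 : K) ∈ (1 : Id K).m := (mem_m_one 1).2 ⟨1, by simp⟩

theorem la_pI_int (p : Pr K) : IsInt (pI p) := FractionalIdeal.coeIdeal_le_one

/-- division by a prime in terms of ideals -/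
theorem la_dv {c : Id K} {J : Ideal (𝓞 K)}
    (h : (J : FractionalIdeal (𝓞 K)⁰ K) = (c : FractionalIdeal (𝓞 K)⁰ K)) (p : Pr K) :
    Dv p c ↔ J ≤ p.asIdeal := by
  unfold Dv
  rw [isInt_div, ga1_le, ← h]
  show _ ≤ ((p.asIdeal : Ideal (𝓞 K)) : FractionalIdeal (𝓞 K)⁰ K) ↔ _
  rw [FractionalIdeal.coeIdeal_le_coeIdeal]

theorem la_mul_int {a b c : Id K} (h : IsInt (a / c)) (hb : IsInt b) : IsInt (a * b / c) := by
  have : a * b / c = (a / c) * b := by
    rw [div_eq_mul_inv, div_eq_mul_inv, mul_right_comm]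
  rw [this]
  exact isInt_mul h hb

theorem cp_mul {n c c' : Id K} (h : Cp n c) (h' : Cp n c') : Cp n (c * c') := by
  refine ⟨isInt_mul h.1 h'.1, ?_⟩
  intro p hp
  obtain ⟨J, -, hJ, -⟩ := ga3_int h.1
  obtain ⟨J', -, hJ', -⟩ := ga3_int h'.1
  have hJJ : ((J * J' : Ideal (𝓞 K)) : FractionalIdeal (𝓞 K)⁰ K) =
      ((c * c' : Id K) : FractionalIdeal (𝓞 K)⁰ K) := by
    rw [FractionalIdeal.coeIdeal_mul, hJ, hJ', Units.val_mul]
  rw [la_dv hJJ, p.isPrime.mul_le] at hp
  rcases hp with hp | hp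
  · exact h.2 p ((la_dv hJ p).2 hp)
  · exact h'.2 p ((la_dv hJ' p).2 hp)

theorem cp_of_mul {n c c' : Id K} (hc : IsInt c) (hc' : IsInt c') (h : Cp n (c * c')) :
    Cp n c ∧ Cp n c' := by
  refine ⟨⟨hc, fun p hp => h.2 p (la_mul_int hp hc')⟩, ⟨hc', fun p hp => h.2 p ?_⟩⟩
  rw [mul_comm]
  exact la_mul_int hp hc

theorem dv_pI (p q : Pr K) : Dv p (pI q) ↔ p = q := by
  rw [la_dv (J := q.asIdeal) rfl]
  constructor
  · intro h
    have := (q.isMaximal.eq_of_le p.isPrime.ne_top h)
    exact HeightOneSpectrum.ext this.symm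
  · rintro rfl; exact le_rfl

theorem cp_pI {n : Id K} {p : Pr K} (h : ¬ Dv p n) : Cp n (pI p) := by
  refine ⟨la_pI_int p, ?_⟩
  intro q hq
  rw [dv_pI] at hq
  rw [hq]; exact h

theorem cp_comax {n c : Id K} (hn : IsInt n) (hc : Cp n c) :
    ∃ x ∈ c.m, ∃ y ∈ n.m, x + y = 1 := by
  obtain ⟨J, hJ0, hJ, -⟩ := ga3_int hn
  obtain ⟨I, hI0, hI, -⟩ := ga3_int hc.1
  have htop : I ⊔ J = ⊤ := by
    by_contra hne
    obtain ⟨P, hP, hle⟩ := Ideal.exists_le_maximal _ hne
    have hI' : I ≤ P := le_sup_left.trans hle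
    have hJ' : J ≤ P := le_sup_right.trans hle
    have hP0 : P ≠ ⊥ := by
      rintro rfl
      exact hI0 (le_bot_iff.1 hI')
    let p : Pr K := ⟨P, hP.isPrime, hP0⟩
    exact hc.2 p ((la_dv hI p).2 hI') ((la_dv hJ p).2 hJ')
  obtain ⟨x, hx, y, hy, hxy⟩ := Submodule.mem_sup.1 ((Ideal.eq_top_iff_one _).1 htop)
  refine ⟨(x : K), (ga3_mem hI _).2 ⟨x, hx, rfl⟩, (y : K), (ga3_mem hJ _).2 ⟨y, hy, rfl⟩, ?_⟩
  have := congrArg (fun z : 𝓞 K => (z : K)) hxy
  simpa using this

theorem cp_of_comax {n c : Id K} (hc : IsInt c) {x y : K} (hx : x ∈ c.m) (hy : y ∈ n.m)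
    (h : x + y = 1) : Cp n c := by
  refine ⟨hc, fun p hp hq => ?_⟩
  apply frP_not_one p
  rw [← h]
  exact (pI p).m.add_mem ((isInt_div _ _).1 hp hx) ((isInt_div _ _).1 hq hy)

theorem cp_mono {n m c : Id K} (h : IsInt (m / n)) (hc : Cp m c) : Cp n c := by
  refine ⟨hc.1, fun p hp hq => hc.2 p hp ?_⟩
  unfold Dv at *
  have : m / pI p = (m / n) * (n / pI p) := by rw [div_mul_div_cancel]
  rw [this]
  exact isInt_mul h hq

/-- an element of `b` outside of `p b` for finitely many primes `p` -/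
theorem la_avoid (b : Id K) (S : Finset (Pr K)) :
    ∃ t ∈ b.m, ∀ p ∈ S, t ∉ (pI p * b).m := by
  classical
  induction S using Finset.induction_on with
  | empty => exact ⟨0, b.m.zero_mem, by simp⟩
  | insert p S hpS ih =>
    obtain ⟨t, ht, hts⟩ := ih
    by_cases htp : t ∈ (pI p * b).m
    · -- an element of b outside of p b
      have hne : ¬ b.m ≤ (pI p * b).m := by
        rw [← isInt_div]
        intro h
        have h1 : b / (pI p * b) = 1 / pI p := by
          rw [div_mul_eq_div_div_swap, div_self']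
        rw [h1, isInt_div] at h
        exact frP_not_one p (h la_one_mem)
      obtain ⟨u, hu, hu'⟩ := SetLike.not_le_iff_exists.1 hne
      have hpr : ¬ (∏ q ∈ S, q.asIdeal) ≤ p.asIdeal := by
        rw [p.isPrime.prod_le]
        rintro ⟨q, hq, hle⟩
        have := q.isMaximal.eq_of_le p.isPrime.ne_top hle
        exact hpS (by rwa [← HeightOneSpectrum.ext this])
      obtain ⟨e, he, he'⟩ := SetLike.not_le_iff_exists.1 hpr
      have hsmul : ∀ (q : Pr K) (f : 𝓞 K) (v : K), f ∈ q.asIdeal → v ∈ b.m →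
          (f : K) * v ∈ (pI q * b).m := by
        intro q f v hf hv
        apply mem_mul_of _ hv
        exact (ga3_mem (a := pI q) (J := q.asIdeal) rfl _).2 ⟨f, hf, rfl⟩
      refine ⟨t + (e : K) * u, b.m.add_mem ht ?_, ?_⟩
      · have := b.m.smul_mem e hu
        rwa [Algebra.smul_def] at this
      · intro q hq
        rcases Finset.mem_insert.1 hq with rfl | hq
        · intro h
          have h1 : (e : K) * u ∈ (pI q * b).m := by
            have := (pI q * b).m.sub_mem h htp
            rwa [add_sub_cancel_left] at this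
          -- e is invertible modulo q
          obtain ⟨f, g, hg, hfg⟩ : ∃ f : 𝓞 K, ∃ g ∈ q.asIdeal, f * e + g = 1 := by
            have hm := q.isMaximal
            obtain ⟨f, g, hg, hfg⟩ := hm.exists_inv he'
            exact ⟨f, g, hg, hfg⟩
          apply hu'
          have h2 : u = f • ((e : K) * u) + (g : K) * u := by
            rw [Algebra.smul_def]
            have h3 : (f : K) * (e : K) + (g : K) = 1 := by
              have := congrArg (fun x : 𝓞 K => (x : K)) hfg
              simpa using this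
            show u = (f : K) * ((e : K) * u) + (g : K) * u
            rw [← mul_assoc, ← add_mul, h3, one_mul]
          rw [h2]
          exact (pI q * b).m.add_mem ((pI q * b).m.smul_mem f h1) (hsmul q g u hg hu)
        · intro h
          apply hts q hq
          have h1 : (e : K) * u ∈ (pI q * b).m := by
            apply hsmul q e u _ hu
            exact Ideal.le_of_dvd (Finset.dvd_prod_of_mem _ hq) he
          have := (pI q * b).m.sub_mem h h1
          rwa [add_sub_cancel_right] at this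
    · refine ⟨t, ht, ?_⟩
      intro q hq
      rcases Finset.mem_insert.1 hq with rfl | hq
      · exact htp
      · exact hts q hq

theorem la_dv_fin {n : Id K} (hn : IsInt n) : {p : Pr K | Dv p n}.Finite := by
  obtain ⟨J, hJ0, hJ, -⟩ := ga3_int hn
  refine (Ideal.finite_factors hJ0).subset ?_
  intro p hp
  exact Ideal.dvd_iff_le.2 ((la_dv hJ p).1 hp)

/-- a fractional ideal contains a positive rational integer -/
theorem la_int (b : Id K) : ∃ N : ℕ, 1 ≤ N ∧ (N : K) ∈ b.m := by
  obtain ⟨d, hd, hdb⟩ := (b : FractionalIdeal (𝓞 K)⁰ K).isFractional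
  have hd0 : (d : K) ≠ 0 := by
    intro h
    apply nonZeroDivisors.ne_zero hd
    exact FaithfulSMul.algebraMap_injective (𝓞 K) K (by rw [map_zero]; exact h)
  have h1 : IsInt (prI (Units.mk0 (d : K) hd0) * b) := by
    rw [isInt_iff]
    intro x hx
    rw [mem_prI_mul] at hx
    obtain ⟨y, hy⟩ := hdb _ hx
    rw [mem_m_one]
    refine ⟨y, ?_⟩
    have h2 : (y : K) = d • ((((Units.mk0 (d : K) hd0)⁻¹ : Kˣ) : K) * x) := hy
    rw [h2, Algebra.smul_def, Units.val_inv_eq_inv_val, Units.val_mk0]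
    show (d : K) * ((d : K)⁻¹ * x) = x
    rw [mul_inv_cancel_left₀ hd0]
  obtain ⟨N, hN, -, hNm⟩ := nI_int h1
  refine ⟨N, hN, ?_⟩
  rw [mem_prI_mul] at hNm
  have h3 := b.m.smul_mem d hNm
  rw [Algebra.smul_def, Units.val_inv_eq_inv_val, Units.val_mk0] at h3
  have h4 : algebraMap (𝓞 K) K d * ((d : K)⁻¹ * (N : K)) = (N : K) := by
    show (d : K) * ((d : K)⁻¹ * (N : K)) = (N : K)
    rw [mul_inv_cancel_left₀ hd0]
  rwa [h4] at h3

theorem cp_gen {n : Id K} (hn : IsInt n) (a : Id K) : ∃ t ∈ Kp K, Cp n (prI t * a) := by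
  classical
  obtain ⟨t0, ht0, ht0'⟩ := la_avoid a⁻¹ (la_dv_fin hn).toFinset
  obtain ⟨N, hN, hNm⟩ := la_int (n * a⁻¹)
  have hfin : Finite (Em K) := by
    have : Finite (K →+* ℂ) := inferInstance
    exact Finite.of_injective (fun w : Em K => (algebraMap ℝ ℂ).comp w) (by
      intro w w' h
      ext x
      have h2 : ((w x : ℝ) : ℂ) = ((w' x : ℝ) : ℂ) := RingHom.congr_fun h x
      exact_mod_cast h2)
  -- a large multiple
  obtain ⟨k, hk1, hk2⟩ : ∃ k : ℕ, (∀ w : Em K, 0 < w (t0 + (k : K) * N)) ∧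
      t0 + (k : K) * N ≠ 0 := by
    have : Fintype (Em K) := Fintype.ofFinite _
    obtain ⟨k0, hk0⟩ := exists_nat_gt (∑ w : Em K, |w t0|)
    have hpos : ∀ k : ℕ, k0 ≤ k → ∀ w : Em K, 0 < w (t0 + (k : K) * N) := by
      intro k hk w
      rw [map_add, map_mul, map_natCast, map_natCast]
      have h1 : |w t0| ≤ ∑ w : Em K, |w t0| :=
        Finset.single_le_sum (f := fun w : Em K => |w t0|) (fun _ _ => abs_nonneg _)
          (Finset.mem_univ w)
      have h2 : (k : ℝ) ≤ k * N := by
        have : (1 : ℝ) ≤ N := by exact_mod_cast hN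
        nlinarith [Nat.cast_nonneg (α := ℝ) k]
      have h3 : (k0 : ℝ) ≤ k := by exact_mod_cast hk
      have h4 := neg_abs_le (w t0)
      linarith
    by_cases h : t0 + (k0 : K) * N ≠ 0
    · exact ⟨k0, hpos k0 le_rfl, h⟩
    · push Not at h
      refine ⟨k0 + 1, hpos _ (Nat.le_succ _), ?_⟩
      intro h'
      have : (N : K) = 0 := by
        push_cast at h'
        linear_combination h' - h
      have h2 : N = 0 := by exact_mod_cast this
      omega
  set t := t0 + (k : K) * N with ht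
  have hkN : (k : K) * N ∈ (n * a⁻¹).m := by
    have := (n * a⁻¹).m.smul_mem (k : 𝓞 K) hNm
    rw [Algebra.smul_def] at this
    simpa using this
  refine ⟨Units.mk0 t hk2, fun w => hk1 w, ?_, ?_⟩
  · rw [isInt_iff]
    intro x hx
    rw [mem_prI_mul] at hx
    -- t in a^-1
    have hta : t ∈ (a⁻¹).m := by
      apply (a⁻¹).m.add_mem ht0
      have h1 : (n * a⁻¹).m ≤ (a⁻¹).m := by
        rw [← isInt_div, mul_div_assoc, div_self', mul_one]; exact hn
      exact h1 hkN
    have h2 := mem_mul_of hta hx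
    rw [inv_mul_cancel, Units.val_inv_eq_inv_val, Units.val_mk0, mul_inv_cancel_left₀ hk2] at h2
    exact h2
  · intro p hp hpn
    have h1 : t ∈ (pI p * a⁻¹).m := by
      -- prI t a / p integral
      have h2 : IsInt (prI (Units.mk0 t hk2) / (pI p * a⁻¹)) := by
        have h3 : prI (Units.mk0 t hk2) / (pI p * a⁻¹) = prI (Units.mk0 t hk2) * a / pI p := by
          rw [div_eq_mul_inv, mul_inv, inv_inv, div_eq_mul_inv, mul_comm (pI p)⁻¹ a, mul_assoc]
        rw [h3]; exact hp
      rw [isInt_div] at h2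
      apply h2
      rw [← mul_one (prI (Units.mk0 t hk2)), mem_prI_mul, Units.val_inv_eq_inv_val,
        Units.val_mk0, inv_mul_cancel₀ hk2]
      exact la_one_mem
    apply ht0' p ((la_dv_fin hn).mem_toFinset.2 hpn)
    have h4 : (k : K) * N ∈ (pI p * a⁻¹).m := by
      have h5 : (n * a⁻¹).m ≤ (pI p * a⁻¹).m := by
        rw [← isInt_div, mul_div_mul_right_eq_div]
        exact hpn
      exact h5 hkN
    have h6 := (pI p * a⁻¹).m.sub_mem h1 h4
    rwa [ht, add_sub_cancel_right] at h6

theorem cp_inf {n c : Id K} (hn : IsInt n) (hc : Cp n c) (a : Id K) (x : K) :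
    x ∈ (n * a).m ∧ x ∈ (c * a).m ↔ x ∈ (n * c * a).m := by
  constructor
  · rintro ⟨h1, h2⟩
    obtain ⟨u, hu, v, hv, huv⟩ := cp_comax hn hc
    have h3 : x = u * x + v * x := by rw [← add_mul, huv, one_mul]
    rw [h3]
    apply (n * c * a).m.add_mem
    · have := mem_mul_of hu h1
      have e : c * (n * a) = n * c * a := by rw [← mul_assoc, mul_comm c n]
      rwa [e] at this
    · have := mem_mul_of hv h2
      rwa [← mul_assoc] at this
  · intro h
    constructor
    · have h1 : (n * c * a).m ≤ (n * a).m := by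
        rw [← isInt_div]
        have e : n * c * a / (n * a) = c := by
          rw [mul_right_comm, mul_div_cancel_left]
        rw [e]; exact hc.1
      exact h1 h
    · have h1 : (n * c * a).m ≤ (c * a).m := by
        rw [← isInt_div, mul_assoc, mul_div_assoc, div_self', mul_one]
        exact hn
      exact h1 h

end Pool.Agent.HSG.LV
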