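import Pool.Agent.Lib_helper84.LV.Defs
import Pool.Agent.Lib_helper84.HSGF.GA1
import Pool.Agent.Lib_helper84.HSGF.GA3
import Pool.Agent.Lib_helper84.HSGF.GB1
import Pool.Agent.Lib_helper84.HSGF.GC1
import Pool.Agent.Lib_helper84.LVF.LA

namespace Pool.Agent.HSG.LV

open Complex NumberField IsDedekindDomain
open scoped nonZeroDivisors MatrixGroups

variable {K : Type} [Field K] [NumberField K]

theorem lb_sm_le {n : Id K} (hn : IsInt n) (L : Lat K) : (L.sm n).M ≤ L.M := by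
  show n.m • L.M ≤ L.M
  have h1 := (isInt_iff n).1 hn
  calc n.m • L.M ≤ (1 : Id K).m • L.M := Submodule.smul_mono h1 le_rfl
    _ = L.M := gc1_one _

theorem v_sub {n : Id K} (hn : IsInt n) (x : Pt n) : x.V ⊆ (x.L.M : Set (Fin 2 → K)) := by
  obtain ⟨v, hv, hV⟩ := x.ex
  intro u hu
  rw [hV] at hu
  have h1 : u - v ∈ x.L.M := lb_sm_le hn _ hu
  have := x.L.M.add_mem h1 hv.1
  simpa using this

theorem lb_cst {n : Id K} {L : Lat K} {v u : Fin 2 → K} (h : u ∈ cst n L v) :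
    cst n L v = cst n L u := by
  have h0 : u - v ∈ (L.sm n).M := h
  ext w
  constructor
  · intro hw
    have h1 : w - v ∈ (L.sm n).M := hw
    show w - u ∈ (L.sm n).M
    have := (L.sm n).M.sub_mem h1 h0
    simpa using this
  · intro hw
    have h1 : w - u ∈ (L.sm n).M := hw
    show w - v ∈ (L.sm n).M
    have := (L.sm n).M.add_mem h1 h0
    simpa using this

theorem lb_dv_le {n : Id K} {p : Pr K} (h : Dv p n) (L : Lat K) :
    (L.sm n).M ≤ (L.sm (pI p)).M :=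
  Submodule.smul_mono ((isInt_div _ _).1 h) le_rfl

theorem v_prim {n : Id K} (hn : IsInt n) (x : Pt n) {v : Fin 2 → K} (hv : v ∈ x.V) :
    Prim n x.L v ∧ x.V = cst n x.L v := by
  obtain ⟨u, hu, hV⟩ := x.ex
  rw [hV] at hv
  have h0 : v - u ∈ (x.L.sm n).M := hv
  refine ⟨⟨?_, fun p hp h => hu.2 p hp ?_⟩, hV.trans (lb_cst hv)⟩
  · have := x.L.M.add_mem (lb_sm_le hn _ h0) hu.1
    simpa using this
  · have := (x.L.sm (pI p)).M.sub_mem h (lb_dv_le hp _ h0)
    simpa using this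

theorem lb_self (n : Id K) (L : Lat K) (v : Fin 2 → K) : v ∈ cst n L v := by
  show v - v ∈ (L.sm n).M
  rw [sub_self]; exact Submodule.zero_mem _

theorem v_ne (n : Id K) (x : Pt n) : x.V.Nonempty := by
  obtain ⟨u, hu, hV⟩ := x.ex
  rw [hV]
  exact ⟨u, lb_self n _ u⟩

theorem pt_eq {n : Id K} (hn : IsInt n) {x y : Pt n} (h : x.L = y.L) {v : Fin 2 → K}
    (hx : v ∈ x.V) (hy : v ∈ y.V) : x = y := by
  apply Pt.ext h
  rw [(v_prim hn x hx).2, (v_prim hn y hy).2, h]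

theorem of_eq {n : Id K} {L : Lat K} {v v' : Fin 2 → K} (h : Prim n L v) (h' : Prim n L v') :
    Pt.of L v h = Pt.of L v' h' ↔ v' - v ∈ (L.sm n).M := by
  constructor
  · intro he
    have h1 : cst n L v = cst n L v' := congrArg Pt.V he
    have h2 : v' ∈ cst n L v := by rw [h1]; exact lb_self n L v'
    exact h2
  · intro he
    exact Pt.ext rfl (lb_cst (u := v') he)

theorem of_mul {n : Id K} {L : Lat K} {v : Fin 2 → K} (h : Prim n L v) (g : GL (Fin 2) K) :
    (Pt.of L v h).mul g = Pt.of (L.mul g) _ (prim_mul h g) :=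
  Pt.ext rfl (cst_mul n L v g)

theorem mem_V_mul {n : Id K} (x : Pt n) (g : GL (Fin 2) K) (v : Fin 2 → K) :
    v ∈ (x.mul g).V ↔
      Matrix.vecMul v ((g⁻¹ : GL (Fin 2) K) : Matrix (Fin 2) (Fin 2) K) ∈ x.V := by
  constructor
  · rintro ⟨u, hu, rfl⟩
    simpa [Matrix.vecMul_vecMul] using hu
  · intro h
    exact ⟨_, h, by simp [Matrix.vecMul_vecMul]⟩

theorem sact_eq {n : Id K} (g : SL(2, K)) (x : Pt n) :
    g • x = x.mul ((g⁻¹ : SL(2, K)) : GL (Fin 2) K) := by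
  show x.mul ((g : GL (Fin 2) K)⁻¹) = _
  rw [← map_inv]

theorem pt_det_act {n : Id K} (g : SL(2, K)) (x : Pt n) : (g • x).L.det = x.L.det := by
  show (g • x.L).det = _
  exact det_act g x.L

theorem lb_smul (I : Ideal (𝓞 K)) {a : Id K}
    (h : (I : FractionalIdeal (𝓞 K)⁰ K) = (a : FractionalIdeal (𝓞 K)⁰ K))
    (N : Submodule (𝓞 K) (Fin 2 → K)) : I • N = a.m • N := by
  apply le_antisymm
  · rw [Submodule.smul_le]
    intro r hr u hu
    have h2 : (algebraMap (𝓞 K) K r) • u = r • u := algebraMap_smul K r u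
    rw [← h2]
    refine Submodule.smul_mem_smul ?_ hu
    show algebraMap (𝓞 K) K r ∈ (a : FractionalIdeal (𝓞 K)⁰ K)
    rw [← h, FractionalIdeal.mem_coeIdeal]
    exact ⟨r, hr, rfl⟩
  · rw [Submodule.smul_le]
    intro r hr u hu
    have hr' : r ∈ (a : FractionalIdeal (𝓞 K)⁰ K) := hr
    rw [← h, FractionalIdeal.mem_coeIdeal] at hr'
    obtain ⟨y, hy, rfl⟩ := hr'
    have h2 : (algebraMap (𝓞 K) K y) • u = y • u := algebraMap_smul K y u
    rw [h2]
    exact Submodule.smul_mem_smul hy hu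

open Classical in
theorem fib_fin {n : Id K} (hn : IsInt n) (L : Lat K) : {x : Pt n | x.L = L}.Finite := by
  obtain ⟨J, hJ0, hJ, -⟩ := ga3_int hn
  have hfin : Finite ((𝓞 K) ⧸ J) := by
    rw [← Ideal.absNorm_ne_zero_iff, Ne, Ideal.absNorm_eq_zero_iff]
    exact hJ0
  have hfg : (⊤ : Submodule (𝓞 K) L.M).FG := by
    have h1 : Module.Finite (𝓞 K) L.M := Module.Finite.of_fg L.fg
    exact h1.fg_top
  have hsub : Subsingleton (L.M ⧸ (⊤ : Submodule (𝓞 K) L.M)) := inferInstance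
  have hq : Finite (L.M ⧸ J • (⊤ : Submodule (𝓞 K) L.M)) :=
    Submodule.finite_quotient_smul J hfg
  have hmap : ∀ w : L.M, w ∈ J • (⊤ : Submodule (𝓞 K) L.M) → (w : Fin 2 → K) ∈ (L.sm n).M := by
    intro w hw
    have h1 : (J • (⊤ : Submodule (𝓞 K) L.M)).map L.M.subtype = J • L.M := by
      rw [Submodule.map_smul'', Submodule.map_subtype_top]
    have h2 : (w : Fin 2 → K) ∈ J • L.M := by
      rw [← h1]; exact ⟨w, hw, rfl⟩
    rw [lb_smul J hJ] at h2
    exact h2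
  refine Set.Finite.of_finite_image (f := fun x : Pt n =>
    (Submodule.Quotient.mk (if h : x.ex.choose ∈ L.M then (⟨x.ex.choose, h⟩ : L.M) else 0) :
      L.M ⧸ J • (⊤ : Submodule (𝓞 K) L.M))) (Set.toFinite _) ?_
  intro x hx y hy hxy
  have hxL : x.L = L := hx
  have hyL : y.L = L := hy
  obtain ⟨hx1, hx2⟩ := x.ex.choose_spec
  obtain ⟨hy1, hy2⟩ := y.ex.choose_spec
  have hx3 : ∀ L', L' = L → x.V = cst n L' x.ex.choose → x.V = cst n L x.ex.choose := by
    rintro _ rfl h; exact h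
  have hy3 : ∀ L', L' = L → y.V = cst n L' y.ex.choose → y.V = cst n L y.ex.choose := by
    rintro _ rfl h; exact h
  have hxm : x.ex.choose ∈ L.M := by rw [← hxL]; exact hx1.1
  have hym : y.ex.choose ∈ L.M := by rw [← hyL]; exact hy1.1
  have hxy' := hxy
  simp only [dif_pos hxm, dif_pos hym] at hxy'
  rw [Submodule.Quotient.eq] at hxy'
  have h3 := hmap _ hxy'
  have h4 : x.ex.choose ∈ cst n L y.ex.choose := h3
  apply Pt.ext (hxL.trans hyL.symm)
  rw [hx3 _ hxL hx2, hy3 _ hyL hy2, ← lb_cst h4]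

theorem fib_ne {n : Id K} (hn : IsInt n) (L : Lat K) : ∃ x : Pt n, x.L = L := by
  have hv : (![0, 1] : Fin 2 → K) ≠ 0 := by
    intro h
    have := congrFun h 1
    simp at this
  obtain ⟨g, -, hg⟩ := split L hv
  obtain ⟨t, ht, ht'⟩ := la_avoid (L.av ![0, 1]) (la_dv_fin hn).toFinset
  have hP : Prim n (g • L) ![0, t] := by
    rw [hg]
    refine ⟨⟨Submodule.zero_mem _, ht⟩, fun p hp h => ht' p (by simpa using hp) ?_⟩
    rw [ds_sm] at h
    exact h.2
  refine ⟨g⁻¹ • Pt.of (g • L) _ hP, ?_⟩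
  show g⁻¹ • (g • L) = L
  rw [inv_smul_smul]

end Pool.Agent.HSG.LV

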