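import Pool.Agent.Lib_helper84.LV.Defs
import Pool.Agent.Lib_helper84.HSGF.GA1
import Pool.Agent.Lib_helper84.HSGF.GB1
import Pool.Agent.Lib_helper84.HSGF.GB2
import Pool.Agent.Lib_helper84.LVF.LA
import Pool.Agent.Lib_helper84.LVF.LB

/-! ## Block LC (SCA): multiplication by ideals -/

namespace Pool.Agent.HSG.LV

open Complex NumberField IsDedekindDomain
open scoped nonZeroDivisors MatrixGroups

variable {K : Type} [Field K] [NumberField K]

theorem lc_le {a b : Id K} (h : IsInt (a / b)) (L : Lat K) : (L.sm a).M ≤ (L.sm b).M := by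
  have h1 : a.m ≤ b.m := (isInt_div a b).1 h
  exact Submodule.smul_mono_left h1

theorem lc_smul {a : Id K} {x : K} (hx : x ∈ a.m) {L : Lat K} {v : Fin 2 → K} (hv : v ∈ L.M) :
    x • v ∈ (L.sm a).M := Submodule.smul_mem_smul hx hv

theorem lc_int {a : Id K} (h : IsInt a) (L : Lat K) : (L.sm a).M ≤ L.M := by
  have h1 := lc_le (a := a) (b := 1) (by simpa using h) L
  rwa [sm_one] at h1

theorem lc_int_mul {a : Id K} (h : IsInt a) (b : Id K) (L : Lat K) :
    (L.sm (b * a)).M ≤ (L.sm b).M := by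
  apply lc_le
  rw [mul_comm, mul_div_cancel_right]
  exact h

theorem lc_inter {n c : Id K} (hn : IsInt n) (hc : Cp n c) (L : Lat K) (u : Fin 2 → K) :
    (u ∈ (L.sm n).M ∧ u ∈ (L.sm c).M) ↔ u ∈ (L.sm (c * n)).M := by
  constructor
  · rintro ⟨h1, h2⟩
    obtain ⟨x, hx, y, hy, hxy⟩ := cp_comax hn hc
    have h3 : u = x • u + y • u := by rw [← add_smul, hxy, one_smul]
    rw [h3]
    apply Submodule.add_mem
    · have := lc_smul hx h1
      rw [sm_sm, mul_comm] at this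
      exact this
    · have := lc_smul hy h2
      rwa [sm_sm] at this
  · intro h
    refine ⟨?_, lc_int_mul hn c L h⟩
    rw [mul_comm] at h
    exact lc_int_mul hc.1 n L h

theorem lc_inj {c : Id K} {L L' : Lat K} (h : L.sm c = L'.sm c) : L = L' := by
  have h1 : (L.sm c).sm c⁻¹ = (L'.sm c).sm c⁻¹ := by rw [h]
  rw [sm_sm, sm_sm, mul_inv_cancel, sm_one, sm_one] at h1
  exact h1

theorem lc_mem_of {n : Id K} {L : Lat K} {v u : Fin 2 → K} (h : Prim n L v)
    (hu : u - v ∈ (L.sm n).M) : u ∈ (Pt.of L v h).V := hu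

theorem lc_self {n : Id K} {L : Lat K} {v : Fin 2 → K} (h : Prim n L v) :
    v ∈ (Pt.of L v h).V := lc_mem_of h (by simp)

theorem lc_of {n : Id K} (hn : IsInt n) (x : Pt n) {v : Fin 2 → K} (hv : v ∈ x.V) :
    ∃ h : Prim n x.L v, x = Pt.of x.L v h := by
  obtain ⟨h1, h2⟩ := v_prim hn x hv
  exact ⟨h1, Pt.ext rfl h2⟩

theorem sc_of {n c : Id K} (hn : IsInt n) (hc : Cp n c) {L : Lat K} {v v' : Fin 2 → K}
    (h : Prim n L v) (hv' : v' ∈ (L.sm c).M) (hd : v' - v ∈ (L.sm n).M) :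
    ∃ h' : Prim n (L.sm c) v', Sc c (Pt.of L v h) (Pt.of (L.sm c) v' h') := by
  have h' : Prim n (L.sm c) v' := by
    refine ⟨hv', fun p hp hv => h.2 p hp ?_⟩
    rw [sm_sm, mul_comm] at hv
    have h1 : v' ∈ (L.sm (pI p)).M := lc_int_mul hc.1 (pI p) L hv
    have h2 : v' - v ∈ (L.sm (pI p)).M := lc_le hp L hd
    have h3 := Submodule.sub_mem _ h1 h2
    simpa using h3
  refine ⟨h', hc, rfl, ?_⟩
  ext u
  show u - v' ∈ ((L.sm c).sm n).M ↔ (u - v ∈ (L.sm n).M ∧ u ∈ (L.sm c).M)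
  rw [sm_sm, ← lc_inter hn hc]
  constructor
  · rintro ⟨h1, h2⟩
    refine ⟨?_, ?_⟩
    · have := Submodule.add_mem _ h1 hd
      simpa using this
    · have := Submodule.add_mem _ h2 hv'
      simpa using this
  · rintro ⟨h1, h2⟩
    refine ⟨?_, ?_⟩
    · have := Submodule.sub_mem _ h1 hd
      simpa using this
    · exact Submodule.sub_mem _ h2 hv'

theorem lc_vec {n c : Id K} (hn : IsInt n) (hc : Cp n c) {L : Lat K} {v : Fin 2 → K}
    (h : v ∈ L.M) : ∃ v' ∈ (L.sm c).M, v' - v ∈ (L.sm n).M := by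
  obtain ⟨x, hx, y, hy, hxy⟩ := cp_comax hn hc
  refine ⟨x • v, lc_smul hx h, ?_⟩
  have h1 : x • v - v = -(y • v) := by
    have : v = x • v + y • v := by rw [← add_smul, hxy, one_smul]
    nth_rewrite 2 [this]
    abel
  rw [h1]
  exact Submodule.neg_mem _ (lc_smul hy h)

theorem sc_exists {n c : Id K} (hn : IsInt n) (hc : Cp n c) (x : Pt n) : ∃! y, Sc c x y := by
  obtain ⟨v, hv⟩ := v_ne n x
  obtain ⟨h, hx⟩ := lc_of hn x hv
  obtain ⟨v', h1, h2⟩ := lc_vec hn hc h.1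
  obtain ⟨h', hS⟩ := sc_of hn hc h h1 h2
  rw [← hx] at hS
  refine ⟨_, hS, ?_⟩
  intro y hy
  have e1 : y.L = (Pt.of (x.L.sm c) v' h').L := hy.2.1.trans hS.2.1.symm
  apply Pt.ext e1
  rw [hy.2.2, hS.2.2, e1]

theorem sc_exists' {n c : Id K} (hn : IsInt n) (hc : Cp n c) (y : Pt n) : ∃! x, Sc c x y := by
  obtain ⟨w, hw⟩ := v_ne n y
  obtain ⟨h, hy⟩ := lc_of hn y hw
  have hL : (y.L.sm c⁻¹).sm c = y.L := by rw [sm_sm, inv_mul_cancel, sm_one]
  have hle : y.L.M ≤ (y.L.sm c⁻¹).M := by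
    have := lc_int hc.1 (y.L.sm c⁻¹)
    rwa [hL] at this
  have h1 : Prim n (y.L.sm c⁻¹) w := by
    refine ⟨hle h.1, fun p hp hv => h.2 p hp ?_⟩
    obtain ⟨x, hx, z, hz, hxz⟩ := cp_comax hn hc
    have h3 : w = x • w + z • w := by rw [← add_smul, hxz, one_smul]
    rw [h3]
    apply Submodule.add_mem
    · have := lc_smul hx hv
      rw [sm_sm, mul_comm, ← sm_sm, hL] at this
      exact this
    · exact lc_le hp _ (lc_smul hz h.1)
  obtain ⟨h', hS⟩ := sc_of hn hc h1 (v' := w) (by rw [hL]; exact h.1) (by simp)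
  have e : Pt.of ((y.L.sm c⁻¹).sm c) w h' = y := by
    apply pt_eq hn (v := w)
    · exact hL
    · exact lc_self h'
    · exact hw
  rw [e] at hS
  refine ⟨_, hS, ?_⟩
  intro x hx
  have e1 : x.L.sm c = (Pt.of (y.L.sm c⁻¹) w h1).L.sm c := hx.2.1.symm.trans hS.2.1
  have e2 := lc_inj e1
  apply pt_eq hn e2 (v := w)
  · have := hx.2.2 ▸ hw
    exact this.1
  · exact lc_self h1

theorem sc_one {n : Id K} (hn : IsInt n) (x : Pt n) : Sc 1 x x := by
  refine ⟨cp_one n, (sm_one _).symm, ?_⟩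
  exact (Set.inter_eq_left.mpr (v_sub hn x)).symm

theorem sc_mul {n c c' : Id K} (_hn : IsInt n) {x y z : Pt n} (h : Sc c x y) (h' : Sc c' y z) :
    Sc (c * c') x z := by
  refine ⟨cp_mul h.1 h'.1, ?_, ?_⟩
  · rw [h'.2.1, h.2.1, sm_sm]
  · rw [h'.2.2, h.2.2, Set.inter_assoc]
    congr 1
    apply Set.inter_eq_right.mpr
    have : z.L.M ≤ y.L.M := by
      rw [h'.2.1]
      exact lc_int h'.1.1 _
    exact this

theorem lc_mul_inj {L L' : Lat K} {g : GL (Fin 2) K} (h : L.mul g = L'.mul g) : L = L' := by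
  have h1 : (L.mul g).mul g⁻¹ = (L'.mul g).mul g⁻¹ := by rw [h]
  rw [← mul_mul, ← mul_mul, mul_inv_cancel] at h1
  have h2 : ∀ M : Lat K, M.mul 1 = M := by
    intro M
    apply gb2_ext
    intro v
    rw [mem_mul]
    simp
  rwa [h2, h2] at h1

theorem lc_vm_inj (g : GL (Fin 2) K) : Function.Injective
    (fun u : Fin 2 → K => Matrix.vecMul u (g : Matrix (Fin 2) (Fin 2) K)) := by
  intro u v h
  have h1 := congrArg (fun u => Matrix.vecMul u ((g⁻¹ : GL (Fin 2) K) : Matrix (Fin 2) (Fin 2) K)) h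
  simpa [Matrix.vecMul_vecMul] using h1

theorem sc_g {n c : Id K} {x y : Pt n} (g : GL (Fin 2) K) :
    Sc c (x.mul g) (y.mul g) ↔ Sc c x y := by
  have hM : ∀ L : Lat K, ((L.mul g).M : Set (Fin 2 → K)) =
      (fun u : Fin 2 → K => Matrix.vecMul u (g : Matrix (Fin 2) (Fin 2) K)) '' L.M := by
    intro L
    rfl
  constructor
  · rintro ⟨h1, h2, h3⟩
    refine ⟨h1, ?_, ?_⟩
    · apply lc_mul_inj (g := g)
      rw [mul_sm]
      exact h2
    · have h4 : (fun u : Fin 2 → K => Matrix.vecMul u (g : Matrix (Fin 2) (Fin 2) K)) '' y.V =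
          (fun u : Fin 2 → K => Matrix.vecMul u (g : Matrix (Fin 2) (Fin 2) K)) '' x.V ∩
          ((y.L.mul g).M : Set (Fin 2 → K)) := h3
      rw [hM, ← Set.image_inter (lc_vm_inj g)] at h4
      exact (lc_vm_inj g).image_injective h4
  · rintro ⟨h1, h2, h3⟩
    refine ⟨h1, ?_, ?_⟩
    · show y.L.mul g = (x.L.mul g).sm c
      rw [h2, mul_sm]
    · show (fun u : Fin 2 → K => Matrix.vecMul u (g : Matrix (Fin 2) (Fin 2) K)) '' y.V =
          (fun u : Fin 2 → K => Matrix.vecMul u (g : Matrix (Fin 2) (Fin 2) K)) '' x.V ∩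
          ((y.L.mul g).M : Set (Fin 2 → K))
      rw [hM, ← Set.image_inter (lc_vm_inj g), ← h3]

theorem lc_vm_scal {t : Kˣ} {g : GL (Fin 2) K}
    (hg : (g : Matrix (Fin 2) (Fin 2) K) = Matrix.scalar (Fin 2) (t : K)) (v : Fin 2 → K) :
    Matrix.vecMul v (g : Matrix (Fin 2) (Fin 2) K) = (t : K) • v := by
  rw [hg]
  ext i
  fin_cases i <;> simp [Matrix.vecMul, dotProduct, Fin.sum_univ_two, mul_comm]

theorem lc_t_mem (t : Kˣ) : (t : K) ∈ (prI t).m := by
  have := (mem_prI_mul t 1 (t : K)).2 (by simpa using (mem_m_one (1 : K)).2 ⟨1, by simp⟩)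
  rwa [mul_one] at this

theorem lc_scal {t : Kˣ} {g : GL (Fin 2) K}
    (hg : (g : Matrix (Fin 2) (Fin 2) K) = Matrix.scalar (Fin 2) (t : K)) (L : Lat K) :
    L.mul g = L.sm (prI t) := by
  apply gb2_ext
  intro v
  constructor
  · rintro ⟨u, hu, rfl⟩
    show Matrix.vecMul u (g : Matrix (Fin 2) (Fin 2) K) ∈ _
    rw [lc_vm_scal hg]
    exact lc_smul (lc_t_mem t) hu
  · intro h
    have h' : v ∈ ((prI t).m • L.M : Submodule (𝓞 K) (Fin 2 → K)) := h
    have key : ((t⁻¹ : Kˣ) : K) • v ∈ L.M := by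
      induction h' using Submodule.smul_induction_on' with
      | smul r hr m hm =>
        rw [smul_smul]
        apply gb2_mem_one_smul _ hm
        have := (mem_prI_mul t 1 r).1 (by rwa [mul_one])
        exact this
      | add x hx y hy h1 h2 =>
        rw [smul_add]
        exact Submodule.add_mem _ (h1 (by exact hx)) (h2 (by exact hy))
    refine ⟨_, key, ?_⟩
    show Matrix.vecMul _ (g : Matrix (Fin 2) (Fin 2) K) = _
    rw [lc_vm_scal hg, smul_smul]
    simp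

/-- multiplication by a principal ideal -/
theorem sc_scal {n : Id K} (hn : IsInt n) {t : Kˣ} (ht : Cp n (prI t)) {g : GL (Fin 2) K}
    (hg : (g : Matrix (Fin 2) (Fin 2) K) = Matrix.scalar (Fin 2) (t : K)) {L : Lat K}
    {v w : Fin 2 → K} (h : Prim n L v) (h' : Prim n L w) (hd : (t : K) • w - v ∈ (L.sm n).M) :
    Sc (prI t) (Pt.of L v h) ((Pt.of L w h').mul g) := by
  obtain ⟨h'', hS⟩ := sc_of hn ht h (v' := (t : K) • w) (lc_smul (lc_t_mem t) h'.1) hd
  have e : (Pt.of L w h').mul g = Pt.of (L.sm (prI t)) ((t : K) • w) h'' := by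
    rw [of_mul]
    apply pt_eq hn (v := (t : K) • w)
    · exact lc_scal hg L
    · apply lc_mem_of
      rw [lc_vm_scal hg]
      simp
    · exact lc_self h''
  rw [e]
  exact hS

/-- multiplication by a principal ideal whose generator is congruent to 1 -/
theorem sc_scal_one {n : Id K} (hn : IsInt n) {t : Kˣ} (ht : (t : K) - 1 ∈ n.m)
    {g : GL (Fin 2) K} (hg : (g : Matrix (Fin 2) (Fin 2) K) = Matrix.scalar (Fin 2) (t : K))
    (x : Pt n) : Sc (prI t) x (x.mul g) := by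
  have h1 : (1 : K) ∈ (1 : Id K).m := (mem_m_one (1 : K)).2 ⟨1, by simp⟩
  have ht1 : (t : K) ∈ (1 : Id K).m := by
    have h2 : (t : K) - 1 ∈ (1 : Id K).m := (isInt_iff n).1 hn ht
    have := Submodule.add_mem _ h2 h1
    simpa using this
  have hint : IsInt (prI t) := by
    rw [isInt_iff]
    intro y hy
    have h3 : ((t⁻¹ : Kˣ) : K) * y ∈ (1 : Id K).m := (mem_prI_mul t 1 y).1 (by rwa [mul_one])
    have h4 := mem_mul_of (a := 1) (b := 1) ht1 h3
    rw [mul_one] at h4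
    rwa [← mul_assoc, ← Units.val_mul, mul_inv_cancel, Units.val_one, one_mul] at h4
  have hcp : Cp n (prI t) := cp_of_comax hint (lc_t_mem t) (y := 1 - t) (by
    have := Submodule.neg_mem _ ht
    rwa [neg_sub] at this) (by ring)
  obtain ⟨v, hv⟩ := v_ne n x
  obtain ⟨h, hx⟩ := lc_of hn x hv
  rw [hx]
  apply sc_scal hn hcp hg h h
  have : (t : K) • v - v = ((t : K) - 1) • v := by rw [sub_smul, one_smul]
  rw [this]
  exact lc_smul ht h.1


end Pool.Agent.HSG.LV
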