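import Pool.Agent.Lib_helper84.LV.Defs
import Pool.Agent.Lib_helper84.LVF.LB
import Pool.Agent.Lib_helper84.LVF.LC

/-! ## Block LF (STD): the standard points (cites GB, LA, LB, LC) -/

namespace Pool.Agent.HSG.LV

open Complex NumberField IsDedekindDomain
open scoped nonZeroDivisors MatrixGroups

variable {K : Type} [Field K] [NumberField K]

theorem lf_eq {n : Id K} {L L' : Lat K} {v v' : Fin 2 → K} (h : Prim n L v) (h' : Prim n L' v')
    (e : L = L') (hd : v' - v ∈ (L'.sm n).M) : Pt.of L v h = Pt.of L' v' h' := by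
  subst e
  exact (of_eq h h').2 hd

theorem lf_eq0 {n : Id K} {L L' : Lat K} {v v' : Fin 2 → K} (h : Prim n L v) (h' : Prim n L' v')
    (e : L = L') (hv : v = v') : Pt.of L v h = Pt.of L' v' h' := by
  refine lf_eq h h' e ?_
  rw [hv, sub_self]
  exact Submodule.zero_mem _

omit [NumberField K] in
theorem lf_v (u : Fin 2 → K) (a b c d : K) : Matrix.vecMul u !![a, b; c, d] =
    ![u 0 * a + u 1 * c, u 0 * b + u 1 * d] := by
  ext i
  fin_cases i <;> simp [Matrix.vecMul, dotProduct, Fin.sum_univ_two]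

theorem ptS_dgm {n b c : Id K} (hc : Cp n c) (α : Kˣ) :
    (ptS b hc).mul (dgm α) = ptS (prI α * b) hc := by
  unfold ptS
  rw [of_mul]
  refine lf_eq0 _ _ (ds_dgm α b c⁻¹) ?_
  have h : ((dgm α : GL (Fin 2) K) : Matrix (Fin 2) (Fin 2) K) = !![(α : K), 0; 0, 1] := rfl
  rw [h, lf_v]
  simp

theorem ptZ_dgm {n b c : Id K} (hc : Cp n c) (α : Kˣ) {g : GL (Fin 2) K}
    (hg : (g : Matrix (Fin 2) (Fin 2) K) = Matrix.scalar (Fin 2) (α : K)) :
    (ptZ (prI α * b) hc).mul (dgm α) = (ptZ b hc).mul g := by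
  unfold ptZ
  rw [of_mul, of_mul]
  have hgi : ((g⁻¹ : GL (Fin 2) K) : Matrix (Fin 2) (Fin 2) K) =
      Matrix.scalar (Fin 2) ((α⁻¹ : Kˣ) : K) := by
    have h1 : (g : Matrix (Fin 2) (Fin 2) K) * Matrix.scalar (Fin 2) ((α⁻¹ : Kˣ) : K) = 1 := by
      rw [hg, ← map_mul, ← Units.val_mul, mul_inv_cancel, Units.val_one, map_one]
    have h2 : ((g⁻¹ : GL (Fin 2) K) : Matrix (Fin 2) (Fin 2) K) *
        (g : Matrix (Fin 2) (Fin 2) K) = 1 := by
      rw [← Units.val_mul, inv_mul_cancel, Units.val_one]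
    calc ((g⁻¹ : GL (Fin 2) K) : Matrix (Fin 2) (Fin 2) K)
        = ((g⁻¹ : GL (Fin 2) K) : Matrix (Fin 2) (Fin 2) K) *
          ((g : Matrix (Fin 2) (Fin 2) K) * Matrix.scalar (Fin 2) ((α⁻¹ : Kˣ) : K)) := by
          rw [h1, mul_one]
      _ = _ := by rw [← mul_assoc, h2, one_mul]
  have hs : ∀ (t : K) (u : Fin 2 → K), Matrix.vecMul u (Matrix.scalar (Fin 2) t) = t • u := by
    intro t u
    ext i
    fin_cases i <;> simp [Matrix.vecMul, dotProduct, Fin.sum_univ_two, mul_comm]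
  refine lf_eq0 _ _ ?_ ?_
  · rw [ds_dgm]
    apply gb2_ext
    intro v
    rw [mem_mul, hgi, hs, mem_ds, mem_ds, mem_prI_mul, mem_prI_mul]
    rfl
  · have h : ((dgm α : GL (Fin 2) K) : Matrix (Fin 2) (Fin 2) K) = !![(α : K), 0; 0, 1] := rfl
    rw [h, lf_v, hg, hs]
    ext i
    fin_cases i <;> simp

theorem ptS_nm {n b c : Id K} (hc : Cp n c) {β : K} (hβ : β ∈ (c⁻¹ / b).m) :
    (ptS b hc).mul (nm β : GL (Fin 2) K) = ptS b hc := by
  unfold ptS
  rw [of_mul]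
  refine lf_eq0 _ _ (ds_nm b c⁻¹ hβ) ?_
  have h : (((nm β : SL(2, K)) : GL (Fin 2) K) : Matrix (Fin 2) (Fin 2) K) = !![1, β; 0, 1] := rfl
  rw [h, lf_v]
  simp

theorem lf_le {a b : Id K} (ha : IsInt a) : (a * b).m ≤ b.m := by
  rw [← isInt_div, mul_div_assoc, div_self', mul_one]
  exact ha

theorem ptZ_nm {n b c : Id K} (hn : IsInt n) (hc : Cp n c) {β : K}
    (hβ : β ∈ (n * c * b).m) :
    (ptZ b hc).mul (nm β : GL (Fin 2) K) = ptZ b hc := by
  unfold ptZ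
  rw [of_mul]
  refine lf_eq _ _ (ds_nm c⁻¹ b ?_) ?_
  · rw [div_inv_eq_mul, mul_comm b c]
    rw [mul_assoc] at hβ
    exact lf_le hn hβ
  · have h : (((nm β : SL(2, K)) : GL (Fin 2) K) : Matrix (Fin 2) (Fin 2) K) = !![1, β; 0, 1] :=
      rfl
    rw [h, lf_v, ds_sm, mem_ds]
    constructor
    · simp
    · have h1 : β ∈ (n * b).m := by
        rw [mul_comm n c, mul_assoc] at hβ
        exact lf_le hc.1 hβ
      simpa using h1

theorem ptS_wm {n b c : Id K} (hc : Cp n c) :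
    (ptS b hc).mul (wm K : GL (Fin 2) K) = ptZ b hc := by
  unfold ptS ptZ
  rw [of_mul]
  refine lf_eq0 _ _ (ds_wm b c⁻¹) ?_
  have h : (((wm K : SL(2, K)) : GL (Fin 2) K) : Matrix (Fin 2) (Fin 2) K) = !![0, -1; 1, 0] :=
    rfl
  rw [h, lf_v]
  simp

theorem ptS_sc {n b c : Id K} (hn : IsInt n) (hc : Cp n c) :
    Sc c (ptS b hc) (sS n (c * b)) ∧ Sc c (ptZ b hc) (sZ n (c * b)) := by
  have h1 : (1 : K) ∈ (c * c⁻¹).m := by
    rw [mul_inv_cancel, mem_m_one]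
    exact ⟨1, by simp⟩
  constructor
  · obtain ⟨h', hs⟩ := sc_of hn hc (prim_S b hc) (v' := ![0, 1])
      (by
        rw [ds_sm, mem_ds]
        exact ⟨Submodule.zero_mem _, h1⟩) (by
        rw [sub_self]
        exact Submodule.zero_mem _)
    have e : Pt.of ((Lat.ds b c⁻¹).sm c) ![0, 1] h' = sS n (c * b) := by
      unfold sS ptS
      refine lf_eq0 _ _ ?_ rfl
      rw [ds_sm, mul_inv_cancel, inv_one]
    rw [← e]
    exact hs
  · obtain ⟨h', hs⟩ := sc_of hn hc (prim_Z b hc) (v' := ![1, 0])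
      (by
        rw [ds_sm, mem_ds]
        exact ⟨h1, Submodule.zero_mem _⟩) (by
        rw [sub_self]
        exact Submodule.zero_mem _)
    have e : Pt.of ((Lat.ds c⁻¹ b).sm c) ![1, 0] h' = sZ n (c * b) := by
      unfold sZ ptZ
      refine lf_eq0 _ _ ?_ rfl
      rw [ds_sm, mul_inv_cancel, inv_one]
    rw [← e]
    exact hs

theorem ptS_det {n b c : Id K} (hc : Cp n c) :
    (ptS b hc).L.det = b * c⁻¹ ∧ (ptZ b hc).L.det = c⁻¹ * b :=
  ⟨det_ds b c⁻¹, det_ds c⁻¹ b⟩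


end Pool.Agent.HSG.LV
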