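import Pool.Agent.Lib_helper84.LV.Defs
import Pool.Agent.Lib_helper84.LVF.LB

/-! # LV, block LI1: orbits of pairs of a point and a vector -/

namespace Pool.Agent.HSG.LV

open Complex NumberField IsDedekindDomain
open scoped nonZeroDivisors MatrixGroups

variable {K : Type} [Field K] [NumberField K]

theorem li1_c {n : Id K} {L : Lat K} {v : Fin 2 → K} (h : Prim n L v) (h0 : v ≠ 0) :
    Cp n (L.av v)⁻¹ := by
  constructor
  · have h1 : (1 : Id K) / L.av v = (L.av v)⁻¹ := one_div _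
    rw [← h1, isInt_div]
    intro x hx
    obtain ⟨y, rfl⟩ := (mem_m_one x).1 hx
    rw [av_m L h0, gb1_mem_aM]
    have := L.M.smul_mem y h.1
    rwa [gb1_osmul] at this
  · intro p hp hpn
    apply h.2 p hpn
    have h2 : (1 : Id K) / (L.sm (pI p)).av v = (L.av v)⁻¹ / pI p := by
      rw [av_sm _ _ h0, one_div, mul_inv, div_eq_mul_inv, mul_comm]
    have h3 := hp
    unfold Dv at h3
    rw [← h2, isInt_div, av_m _ h0] at h3
    have h4 : (1 : K) ∈ (1 : Id K).m := (mem_m_one 1).2 ⟨1, by simp⟩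
    have h5 := h3 h4
    rw [gb1_mem_aM, one_smul] at h5
    exact h5

/-- the action of `SL₂` on points: the matrix `g⁻¹` from the right -/
theorem li1_act_L {n : Id K} (g : SL(2, K)) (x : Pt n) : (g • x).L = g • x.L := by
  rw [sact_eq, act_eq]
  rfl

theorem li1_mem_V {n : Id K} (g : SL(2, K)) (x : Pt n) (v : Fin 2 → K) :
    v ∈ (g • x).V ↔ Matrix.vecMul v (g : Matrix (Fin 2) (Fin 2) K) ∈ x.V := by
  rw [sact_eq, mem_V_mul]
  have h : (((((g⁻¹ : SL(2, K)) : GL (Fin 2) K))⁻¹ : GL (Fin 2) K) : Matrix (Fin 2) (Fin 2) K) =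
      (g : Matrix (Fin 2) (Fin 2) K) := by
    rw [map_inv, inv_inv, Matrix.SpecialLinearGroup.coe_GL_coe_matrix]
  rw [h]

omit [NumberField K] in
theorem li1_row (g : Matrix (Fin 2) (Fin 2) K) : Matrix.vecMul ![0, 1] g = g 1 := by
  ext j
  simp [Matrix.vecMul, dotProduct, Fin.sum_univ_two]

theorem li1_01 {n b c : Id K} (hc : Cp n c) : ![0, 1] ∈ (ptS b hc).V := by
  show (![0, 1] : Fin 2 → K) - ![0, 1] ∈ ((Lat.ds b c⁻¹).sm n).M
  rw [sub_self]
  exact Submodule.zero_mem _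

/-- the orbit of a pair, with the ideal `c = a_v⁻¹` -/
theorem li1_orb {n : Id K} (hn : IsInt n) (x : Pt n) {v : Fin 2 → K} (hv : v ∈ x.V)
    (h0 : v ≠ 0) :
    ∃ (g : SL(2, K)) (hc : Cp n (x.L.av v)⁻¹), (g : Matrix (Fin 2) (Fin 2) K) 1 = v ∧
      g • x = ptS (x.L.det * (x.L.av v)⁻¹) hc := by
  obtain ⟨hP, -⟩ := v_prim hn x hv
  obtain ⟨g, h1, h2⟩ := split x.L h0
  refine ⟨g, li1_c hP h0, h1, ?_⟩
  apply pt_eq hn (v := ![0, 1])
  · rw [li1_act_L, h2]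
    show _ = Lat.ds _ _
    rw [inv_inv, div_eq_mul_inv]
  · rw [li1_mem_V, li1_row, h1]
    exact hv
  · exact li1_01 _

theorem orb {n : Id K} (hn : IsInt n) (x : Pt n) {v : Fin 2 → K} (hv : v ∈ x.V) (h0 : v ≠ 0) :
    ∃ (g : SL(2, K)) (c : Id K) (hc : Cp n c), (g : Matrix (Fin 2) (Fin 2) K) 1 = v ∧
      g • x = ptS (x.L.det * c) hc := by
  obtain ⟨g, hc, h1, h2⟩ := li1_orb hn x hv h0
  exact ⟨g, _, hc, h1, h2⟩

omit [NumberField K] in
theorem li1_nm {g : SL(2, K)} (h1 : (g : Matrix (Fin 2) (Fin 2) K) 1 = ![0, 1]) :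
    g = nm ((g : Matrix (Fin 2) (Fin 2) K) 0 1) := by
  have h10 : (g : Matrix (Fin 2) (Fin 2) K) 1 0 = 0 := by rw [h1]; rfl
  have h11 : (g : Matrix (Fin 2) (Fin 2) K) 1 1 = 1 := by rw [h1]; rfl
  have hdet := g.det_coe
  rw [Matrix.det_fin_two, h10, h11] at hdet
  have h00 : (g : Matrix (Fin 2) (Fin 2) K) 0 0 = 1 := by linear_combination hdet
  ext i j
  fin_cases i <;> fin_cases j
  · simpa [nm] using h00
  · simp [nm]
  · simpa [nm] using h10
  · simpa [nm] using h11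

/-- the points whose coset contains `(0, 1)` -/
theorem pt01 {n : Id K} (hn : IsInt n) {x : Pt n} (h : ![0, 1] ∈ x.V) :
    ∃ (c : Id K) (hc : Cp n c) (β : K), x = (ptS (x.L.det * c) hc).mul (nm β : GL (Fin 2) K) := by
  obtain ⟨g, c, hc, h1, h2⟩ := orb hn x h (by
    intro h
    have := congrFun h 1
    simp at this)
  refine ⟨c, hc, (g : Matrix (Fin 2) (Fin 2) K) 0 1, ?_⟩
  rw [← h2, sact_eq, ← pt_mul_mul]
  have h3 : ((g⁻¹ : SL(2, K)) : GL (Fin 2) K) *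
      (nm ((g : Matrix (Fin 2) (Fin 2) K) 0 1) : GL (Fin 2) K) = 1 := by
    rw [← li1_nm h1, ← map_mul, inv_mul_cancel, map_one]
  rw [h3, pt_mul_one]

theorem stab01 {g : SL(2, K)} {n b b' c c' : Id K} (hc : Cp n c) (hc' : Cp n c')
    (h1 : (g : Matrix (Fin 2) (Fin 2) K) 1 = ![0, 1]) (h : g • ptS b hc = ptS b' hc') :
    b = b' ∧ c = c' ∧ ∃ β ∈ (c⁻¹ / b).m, g = nm β := by
  have h2 : g • Lat.ds b c⁻¹ = Lat.ds b' c'⁻¹ := by
    have := congrArg Pt.L h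
    rw [li1_act_L] at this
    exact this
  obtain ⟨e1, e2, e3⟩ := stab_ds h1 h2
  exact ⟨e1, inv_injective e2, e3⟩

theorem ptS_inj {n b b' c c' : Id K} (hn : IsInt n) (hc : Cp n c) (hc' : Cp n c') {β β' : K}
    (h : (ptS b hc).mul (nm β : GL (Fin 2) K) = (ptS b' hc').mul (nm β' : GL (Fin 2) K)) :
    b = b' ∧ c = c' ∧ β' - β ∈ (c⁻¹ / b).m := by
  have h1 : nm (β' - β) • ptS b hc = ptS b' hc' := by
    have h2 := congrArg (fun x : Pt n => x.mul (((nm β')⁻¹ : SL(2, K)) : GL (Fin 2) K)) h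
    simp only [← pt_mul_mul] at h2
    rw [← map_mul, ← map_mul, mul_inv_cancel, map_one, pt_mul_one] at h2
    rw [sact_eq, ← h2]
    congr 2
    rw [gb2_nm_inv', gb2_nm_inv']
    ext i j
    rw [Matrix.SpecialLinearGroup.coe_mul]
    fin_cases i <;> fin_cases j <;>
      simp [nm, Matrix.mul_apply, Fin.sum_univ_two, sub_eq_add_neg, add_comm]
  obtain ⟨e1, e2, β0, e3, e4⟩ := stab01 hc hc' (by
    ext j
    fin_cases j <;> simp [nm]) h1
  refine ⟨e1, e2, ?_⟩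
  have h3 := congrArg (fun g : SL(2, K) => (g : Matrix (Fin 2) (Fin 2) K) 0 1) e4
  simp only [nm, Matrix.SpecialLinearGroup.coe_mk, Matrix.of_apply, Matrix.cons_val', Matrix.cons_val_zero,
    Matrix.cons_val_one] at h3
  rw [h3]
  exact e3

theorem v01 {n b c : Id K} (hc : Cp n c) (β : K) :
    ![0, 1] ∈ ((ptS b hc).mul (nm β : GL (Fin 2) K)).V := by
  rw [mem_V_mul, li1_row, gb2_nm_inv]
  exact li1_01 hc

end Pool.Agent.HSG.LV
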