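import Pool.Agent.Lib_helper84.LV.Defs
import Pool.Agent.Lib_helper84.LVF.LA
import Pool.Agent.Lib_helper84.LVF.LB
import Pool.Agent.Lib_helper84.LVF.LI1

/-! # LV, block LI2: unimodular vectors, transitivity -/

namespace Pool.Agent.HSG.LV

open Complex NumberField IsDedekindDomain
open scoped nonZeroDivisors MatrixGroups

variable {K : Type} [Field K] [NumberField K]

/-- the coefficient ideal in `b ⊕ a` -/
theorem li2_av_mem {b a : Id K} {v : Fin 2 → K} (h0 : v ≠ 0) (t : K) :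
    t ∈ ((Lat.ds b a).av v).m ↔ t * v 0 ∈ b.m ∧ t * v 1 ∈ a.m := by
  rw [av_m _ h0, gb1_mem_aM, mem_ds]
  rfl

theorem li2_int {a : Id K} (h : IsInt a) {x : K} (hx : x ∈ a.m) : x ∈ (1 : Id K).m :=
  (isInt_iff a).1 h hx

/-- an integral ideal multiplies an ideal into itself -/
theorem li2_mul {a b : Id K} (h : IsInt a) : (a * b).m ≤ b.m := by
  rw [← isInt_div, mul_div_assoc, div_self', mul_one]
  exact h

theorem li2_std {n b c : Id K} (hn : IsInt n) (hc : Cp n c) :
    ∃ v ∈ (ptS b hc).V, v ≠ 0 ∧ (ptS b hc).L.av v = 1 := by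
  obtain ⟨x, hx, y, hy, hxy⟩ := cp_comax hn hc
  obtain ⟨t, -, ht⟩ := cp_gen hc.1 b⁻¹
  obtain ⟨u, hu, w, hw, huw⟩ := cp_comax hc.1 ht
  have htb : (t : K) ∈ b.m := by
    have h1 : IsInt (prI t / b) := by rw [div_eq_mul_inv]; exact ht.1
    rw [isInt_div] at h1
    apply h1
    have h2 := (mem_prI_mul t 1 (t : K)).2 (by
      rw [Units.inv_mul]
      exact (mem_m_one 1).2 ⟨1, by simp⟩)
    rwa [mul_one] at h2
  have hyn : (t : K) * y ∈ (n * b).m := by
    rw [mul_comm n b]
    exact mem_mul_of htb hy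
  have hv : (![(t : K) * y, 1] : Fin 2 → K) ≠ 0 := by
    intro h
    have := congrFun h 1
    simp at this
  refine ⟨![(t : K) * y, 1], ?_, hv, ?_⟩
  · show (![(t : K) * y, 1] : Fin 2 → K) - ![0, 1] ∈ ((Lat.ds b c⁻¹).sm n).M
    rw [ds_sm, mem_ds]
    refine ⟨?_, ?_⟩
    · simpa using hyn
    · simp
  · show (Lat.ds b c⁻¹).av _ = 1
    apply m_inj
    ext s
    rw [li2_av_mem hv]
    simp only [Matrix.cons_val_zero, Matrix.cons_val_one, mul_one]
    constructor
    · rintro ⟨h1, h2⟩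
      -- `s = s t y u' + s (u x + w x + w y)`
      have hu' : ((t⁻¹ : Kˣ) : K) * u ∈ (b⁻¹).m := (mem_prI_mul t b⁻¹ u).1 hu
      have e1 : (s * ((t : K) * y)) * (((t⁻¹ : Kˣ) : K) * u) ∈ (1 : Id K).m := by
        have := mem_mul_of h1 hu'
        rwa [mul_inv_cancel] at this
      have hyI : y ∈ (1 : Id K).m := li2_int hn hy
      have hxI : x ∈ (1 : Id K).m := li2_int hc.1 hx
      have huI : u ∈ (1 : Id K).m := li2_int ht.1 hu
      have e2 : u * x + w * (x + y) ∈ c.m := by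
        rw [hxy, mul_one]
        refine Submodule.add_mem _ ?_ hw
        have := mem_mul_of huI hx
        rwa [one_mul] at this
      have e3 : s * (u * x + w * (x + y)) ∈ (1 : Id K).m := by
        have := mem_mul_of h2 e2
        rwa [inv_mul_cancel] at this
      have e4 : s = (s * ((t : K) * y)) * (((t⁻¹ : Kˣ) : K) * u) + s * (u * x + w * (x + y)) := by
        have h5 : (t : K) * ((t⁻¹ : Kˣ) : K) = 1 := Units.mul_inv t
        have h6 : (s * ((t : K) * y)) * (((t⁻¹ : Kˣ) : K) * u) = s * y * u := by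
          calc (s * ((t : K) * y)) * (((t⁻¹ : Kˣ) : K) * u) =
              s * y * u * ((t : K) * ((t⁻¹ : Kˣ) : K)) := by ring
            _ = s * y * u := by rw [h5, mul_one]
        rw [h6]
        calc s = s * ((u + w) * (x + y)) := by rw [huw, hxy, mul_one, mul_one]
          _ = _ := by ring
      rw [e4]
      exact Submodule.add_mem _ e1 e3
    · intro h
      constructor
      · have := mem_mul_of h (li2_mul hn hyn)
        rwa [one_mul] at this
      · obtain ⟨o, ho⟩ := (mem_m_one s).1 h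
        have := (c⁻¹).m.smul_mem o (cp_inv hc).1
        rw [gb1_osmul', mul_one, ho] at this
        exact this

/-- the cosets contain nonzero vectors -/
theorem li2_ne {n : Id K} (hn : IsInt n) (x : Pt n) : ∃ v ∈ x.V, v ≠ 0 := by
  obtain ⟨v, hv⟩ := v_ne n x
  by_cases h0 : v = 0
  · obtain ⟨-, hV⟩ := v_prim hn x hv
    have h1 : ((x.L.sm n).M : Set (Fin 2 → K)) ≠ {0} := by
      intro h
      have h2 := (x.L.sm n).top
      rw [h, Submodule.span_zero_singleton] at h2
      exact bot_ne_top h2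
    have h3 : ∃ u ∈ (x.L.sm n).M, u ≠ 0 := by
      by_contra hcon
      push Not at hcon
      apply h1
      ext u
      constructor
      · intro hu
        exact hcon u hu
      · intro hu
        rw [Set.mem_singleton_iff] at hu
        rw [hu]
        exact Submodule.zero_mem _
    obtain ⟨u, hu, hu0⟩ := h3
    refine ⟨u, ?_, hu0⟩
    rw [hV, h0]
    show u - 0 ∈ (x.L.sm n).M
    rwa [sub_zero]
  · exact ⟨v, hv, h0⟩

theorem li2_av_act (g : SL(2, K)) (L : Lat K) {v : Fin 2 → K} (hv : v ≠ 0) :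
    L.av (Matrix.vecMul v (g : Matrix (Fin 2) (Fin 2) K)) = (g • L).av v := by
  have hne : Matrix.vecMul v (g : Matrix (Fin 2) (Fin 2) K) ≠ 0 := by
    intro h
    apply hv
    have h2 := congrArg (fun w => Matrix.vecMul w ((g⁻¹ : SL(2, K)) :
      Matrix (Fin 2) (Fin 2) K)) h
    simp only [Matrix.vecMul_vecMul, Matrix.zero_vecMul] at h2
    rwa [← Matrix.SpecialLinearGroup.coe_mul, mul_inv_cancel, Matrix.SpecialLinearGroup.coe_one,
      Matrix.vecMul_one] at h2
  have h1 := av_act (g : GL (Fin 2) K) L hne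
  rw [← h1]
  have h3 : Matrix.vecMul (Matrix.vecMul v (g : Matrix (Fin 2) (Fin 2) K))
      (((g : GL (Fin 2) K)⁻¹ : GL (Fin 2) K) : Matrix (Fin 2) (Fin 2) K) = v := by
    rw [← map_inv, Matrix.SpecialLinearGroup.coe_GL_coe_matrix, Matrix.vecMul_vecMul,
      ← Matrix.SpecialLinearGroup.coe_mul, mul_inv_cancel, Matrix.SpecialLinearGroup.coe_one,
      Matrix.vecMul_one]
  rw [h3]
  rfl

/-- there are unimodular vectors in every coset -/
theorem unim {n : Id K} (hn : IsInt n) (x : Pt n) : ∃ v ∈ x.V, v ≠ 0 ∧ x.L.av v = 1 := by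
  obtain ⟨v0, hv0, h0⟩ := li2_ne hn x
  obtain ⟨g, c, hc, -, h2⟩ := orb hn x hv0 h0
  obtain ⟨v, hv, hne, hav⟩ := li2_std (b := x.L.det * c) hn hc
  rw [← h2] at hv hav
  refine ⟨Matrix.vecMul v (g : Matrix (Fin 2) (Fin 2) K), (li1_mem_V g x v).1 hv, ?_, ?_⟩
  · intro h
    apply hne
    have h2 := congrArg (fun w => Matrix.vecMul w ((g⁻¹ : SL(2, K)) :
      Matrix (Fin 2) (Fin 2) K)) h
    simp only [Matrix.vecMul_vecMul, Matrix.zero_vecMul] at h2
    rwa [← Matrix.SpecialLinearGroup.coe_mul, mul_inv_cancel, Matrix.SpecialLinearGroup.coe_one,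
      Matrix.vecMul_one] at h2
  · rw [li2_av_act g x.L hne, ← li1_act_L]
    exact hav

theorem to_std {n : Id K} (hn : IsInt n) (x : Pt n) : ∃ g : SL(2, K), g • x = sS n x.L.det := by
  obtain ⟨v, hv, h0, hav⟩ := unim hn x
  obtain ⟨g, hc, -, h2⟩ := li1_orb hn x hv h0
  refine ⟨g, ?_⟩
  rw [h2]
  apply pt_eq hn (v := ![0, 1]) _ (li1_01 _) (li1_01 _)
  show Lat.ds _ _ = Lat.ds _ _
  rw [hav, inv_one, inv_one, mul_one]

/-- transitivity (strong approximation) -/
theorem pt_trans {n : Id K} (hn : IsInt n) {x y : Pt n} (h : x.L.det = y.L.det) :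
    ∃ g : SL(2, K), g • x = y := by
  obtain ⟨g1, h1⟩ := to_std hn x
  obtain ⟨g2, h2⟩ := to_std hn y
  refine ⟨g2⁻¹ * g1, ?_⟩
  rw [mul_smul, h1, h, ← h2, inv_smul_smul]

end Pool.Agent.HSG.LV
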