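import Pool.Agent.Lib_helper84.LV.Defs
import Pool.Agent.Lib_helper84.HSGF.GG
import Pool.Agent.Lib_helper84.LVF.LA

/-! # Lattices with a level structure, block LM: classes -/

namespace Pool.Agent.HSG.LV

open Complex NumberField IsDedekindDomain
open scoped nonZeroDivisors MatrixGroups

variable {K : Type} [Field K] [NumberField K]

theorem ncl_fin : Finite (NCl K) := by
  have := gg_pp (K := K)
  exact Subgroup.finite_quotient_of_finiteIndex

theorem lm_mk {ν : Kˣ} (hν : ν ∈ Kp K) (a : Id K) :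
    (QuotientGroup.mk (prI ν * a) : NCl K) = QuotientGroup.mk a := by
  refine (QuotientGroup.eq.mpr ?_).symm
  have h1 : a⁻¹ * (prI ν * a) = prI ν := by
    rw [mul_comm (prI ν) a, inv_mul_cancel_left]
  rw [h1]
  exact ⟨ν, hν, rfl⟩

/-- every ideal `m` is `ν d / b` for exactly one class `b` and totally positive `ν` -/
theorem cls_all {b : NCl K → Id K} (hb : ∀ κ, (QuotientGroup.mk (b κ) : NCl K) = κ) (m : Id K) :
    ∃! κ : NCl K, ∃ ν ∈ Kp K, prI ν * DD K / b κ = m := by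
  refine ⟨QuotientGroup.mk (DD K / m), ?_, ?_⟩
  · have h1 : (DD K / m)⁻¹ * b (QuotientGroup.mk (DD K / m)) ∈ Pp K := by
      refine QuotientGroup.eq.mp ?_
      exact (hb _).symm
    obtain ⟨ν, hν, h2⟩ := h1
    refine ⟨ν, hν, ?_⟩
    have h3 : b (QuotientGroup.mk (DD K / m)) = prI ν * (DD K / m) := by
      rw [h2, mul_comm ((DD K / m)⁻¹), mul_assoc, inv_mul_cancel, mul_one]
    rw [h3, mul_div_mul_left_eq_div, div_div_cancel]
  · rintro κ ⟨ν, hν, h1⟩
    have h3 : b κ = prI ν * (DD K / m) := by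
      rw [← h1, ← mul_div_assoc, div_div_cancel]
    rw [← hb κ, h3, lm_mk hν]

theorem cls_unit {ν ν' : Kˣ} (h : ν ∈ Kp K) (h' : ν' ∈ Kp K) (e : prI ν = prI ν') :
    ∃ ε ∈ Up K, ν' = ε * ν := by
  refine ⟨ν' * ν⁻¹, ⟨(Kp K).mul_mem h' ((Kp K).inv_mem h), ?_⟩, by rw [inv_mul_cancel_right]⟩
  show ν' * ν⁻¹ ∈ (prI (K := K)).ker
  rw [MonoidHom.mem_ker, map_mul, map_inv, e, mul_inv_cancel]

theorem cls_cop {n : Id K} (hn : IsInt n) (κ : NCl K) :
    ∃ c : Id K, Cp n c ∧ (QuotientGroup.mk c : NCl K) = κ := by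
  obtain ⟨a, rfl⟩ := QuotientGroup.mk_surjective κ
  obtain ⟨t, ht, h⟩ := cp_gen hn a
  exact ⟨prI t * a, h, lm_mk ht a⟩

end Pool.Agent.HSG.LV
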