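import Pool.Agent.Lib_helper84.LV.Defs
import Pool.Agent.Lib_helper84.HSGF.GC2
import Pool.Agent.Lib_helper84.LVF.LA
import Pool.Agent.Lib_helper84.LVF.LB

/-! # Lattices with a level structure, block LG (HSS): the Hecke operators at `(b ⊕ O, (0,1))` -/

namespace Pool.Agent.HSG.LV

open Complex NumberField IsDedekindDomain
open scoped nonZeroDivisors MatrixGroups

variable {K : Type} [Field K] [NumberField K]

theorem lg_cst_mono {n : Id K} {L L' : Lat K} (h : L.M ≤ L'.M) (v : Fin 2 → K) :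
    cst n L v ⊆ cst n L' v := fun _ hu => Submodule.smul_mono le_rfl h hu

theorem lg_self (n : Id K) (L : Lat K) (v : Fin 2 → K) : v ∈ cst n L v := by
  show v - v ∈ (L.sm n).M
  rw [sub_self]
  exact Submodule.zero_mem _

/-- criterion for neighbours: the lattices are neighbours and a vector is common -/
theorem lg_nb {n : Id K} (hn : IsInt n) {p : Pr K} {x y : Pt n} (h : y.L.Sub p x.L)
    {v : Fin 2 → K} (hx : v ∈ x.V) (hy : v ∈ y.V) : Nb p x y := by
  refine ⟨h, ?_⟩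
  rw [(v_prim hn x hx).2, (v_prim hn y hy).2]
  exact lg_cst_mono h.2.le v

/-- the sum over the neighbours as a finite sum -/
theorem lg_sum {M : Type} [AddCommMonoid M] {n : Id K} {p : Pr K} {x : Pt n} {ι : Type}
    [Fintype ι] (φ : ι → Pt n) (h1 : ∀ i, Nb p x (φ i)) (h2 : Function.Injective φ)
    (h3 : ∀ y, Nb p x y → ∃ i, φ i = y) (f : Pt n → M) : Tp p f x = ∑ i, f (φ i) := by
  have hb : Function.Bijective (fun i => (⟨φ i, h1 i⟩ : {y : Pt n // Nb p x y})) := by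
    constructor
    · intro i j h
      exact h2 (congrArg Subtype.val h)
    · rintro ⟨y, hy⟩
      obtain ⟨i, hi⟩ := h3 y hy
      exact ⟨i, Subtype.ext hi⟩
  unfold Tp
  rw [← finsum_comp_equiv (Equiv.ofBijective _ hb), finsum_eq_sum_of_fintype]
  rfl

omit [NumberField K] in
theorem lg_vm_nm (β : K) (x y : K) :
    Matrix.vecMul ![x, y] ((nm β : GL (Fin 2) K) : Matrix (Fin 2) (Fin 2) K) =
      ![x, x * β + y] := by
  rw [Matrix.SpecialLinearGroup.coe_GL_coe_matrix]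
  ext i
  fin_cases i <;> simp [nm, Matrix.vecMul, dotProduct, Fin.sum_univ_two]

/-- multiplication by a matrix preserves the vector -/
theorem lg_mem_mul {n : Id K} {x : Pt n} {v : Fin 2 → K} (h : v ∈ x.V) (g : GL (Fin 2) K) :
    Matrix.vecMul v (g : Matrix (Fin 2) (Fin 2) K) ∈ (x.mul g).V := ⟨v, h, rfl⟩

theorem lg_ptS_mem {n b c : Id K} (hc : Cp n c) (β : K) :
    ![0, 1] ∈ ((ptS b hc).mul (nm β : GL (Fin 2) K)).V := by
  have h := lg_mem_mul (x := ptS b hc) (v := ![0, 1]) (lg_self n _ _) (nm β : GL (Fin 2) K)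
  rw [lg_vm_nm, zero_mul, zero_add] at h
  exact h

theorem lg_sm_inj {c : Id K} {L L' : Lat K} (h : L.sm c = L'.sm c) : L = L' := by
  have h1 := congrArg (fun L => Lat.sm c⁻¹ L) h
  simpa only [sm_sm, mul_inv_cancel, sm_one] using h1

theorem lg_sS_L (n b : Id K) : (sS n b).L = Lat.ds b 1 := by
  show Lat.ds b (1 : Id K)⁻¹ = _
  rw [inv_one]

/-- the lattice of the second kind -/
theorem lg_L2 (n b : Id K) (p : Pr K) (β : K) :
    (((sS n (b / pI p)).mul (nm β : GL (Fin 2) K)).L).sm (pI p) =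
      (Lat.ds b (pI p)).mul (nm β : GL (Fin 2) K) := by
  show ((sS n (b / pI p)).L.mul _).sm (pI p) = _
  rw [lg_sS_L, ← mul_sm, ds_sm, mul_div_cancel, mul_one]

theorem lg_L1 {n b : Id K} {p : Pr K} (hp : ¬ Dv p n) :
    ((ptS b (cp_pI hp)).L).sm (pI p) = Lat.ds (pI p * b) 1 := by
  show (Lat.ds b (pI p)⁻¹).sm (pI p) = _
  rw [ds_sm, mul_inv_cancel]

theorem lg_nb2 {n : Id K} (hn : IsInt n) (p : Pr K) (b : Id K) {β : K} (hβ : β ∈ (b⁻¹).m) :
    Nb p (sS n b) ((sS n (b / pI p)).mul (nm β : GL (Fin 2) K)) := by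
  refine lg_nb hn ?_ (v := ![0, 1]) (lg_self n _ _) (lg_ptS_mem _ β)
  rw [sub_dual, lg_L2, lg_sS_L]
  exact gc2_sub1 p b hβ

theorem lg_nb1 {n : Id K} (hn : IsInt n) {p : Pr K} (hp : ¬ Dv p n) (b : Id K) :
    Nb p (sS n b) (ptS b (cp_pI hp)) := by
  refine lg_nb hn ?_ (v := ![0, 1]) (lg_self n _ _) (lg_self n _ _)
  rw [sub_dual, lg_L1 hp, lg_sS_L]
  exact gc2_sub0 p b

theorem lg_inj2 {n : Id K} {p : Pr K} {b : Id K} {S : Finset K}
    (hS : IsRepQ b⁻¹ (pI p * b⁻¹) S) {β β' : K} (hβ : β ∈ S) (hβ' : β' ∈ S)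
    (h : (sS n (b / pI p)).mul (nm β : GL (Fin 2) K) =
      (sS n (b / pI p)).mul (nm β' : GL (Fin 2) K)) : β = β' := by
  have h1 := congrArg (fun x : Pt n => x.L.sm (pI p)) h
  simp only [lg_L2] at h1
  exact hS.inj β hβ β' hβ' (gc2_inj p b h1)

/-- the neighbours of the standard point -/
theorem lg_sur {n : Id K} (hn : IsInt n) {p : Pr K} {b : Id K} {S : Finset K}
    (hS : IsRepQ b⁻¹ (pI p * b⁻¹) S) {y : Pt n} (h : Nb p (sS n b) y) :
    ![0, 1] ∈ y.V ∧ (y.L.sm (pI p) = Lat.ds (pI p * b) 1 ∨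
      ∃ β ∈ S, (sS n (b / pI p)).mul (nm β : GL (Fin 2) K) = y) := by
  have hv : ![0, 1] ∈ y.V := h.2 (lg_self n _ _)
  refine ⟨hv, ?_⟩
  have h1 := h.1
  rw [sub_dual, lg_sS_L] at h1
  rcases gc2_exh p b h1 with h2 | ⟨β, hβ, h2⟩
  · exact Or.inl h2
  · right
    obtain ⟨β', hβ', h3⟩ := hS.sur β hβ
    refine ⟨β', hβ', ?_⟩
    refine pt_eq hn ?_ (lg_ptS_mem _ β') hv
    apply lg_sm_inj (c := pI p)
    rw [lg_L2, ← gc2_eq p b h3]
    exact h2.symm

section op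
variable {M : Type} [AddCommMonoid M] [Module ℂ M]

theorem tp_S_dv {n : Id K} (hn : IsInt n) {p : Pr K} (hp : Dv p n) (b : Id K) {S : Finset K}
    (hS : IsRepQ b⁻¹ (pI p * b⁻¹) S) (f : Pt n → M) :
    Tp p f (sS n b) = ∑ β ∈ S, f ((sS n (b / pI p)).mul (nm β : GL (Fin 2) K)) := by
  rw [lg_sum (fun β : S => (sS n (b / pI p)).mul (nm β.1 : GL (Fin 2) K))
    (fun β => lg_nb2 hn p b (hS.mem β.1 β.2)) ?_ ?_ f]
  · exact Finset.sum_coe_sort S fun β => f ((sS n (b / pI p)).mul (nm β : GL (Fin 2) K))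
  · intro β β' h
    exact Subtype.ext (lg_inj2 hS β.2 β'.2 h)
  · intro y hy
    obtain ⟨hv, h | ⟨β, hβ, h⟩⟩ := lg_sur hn hS hy
    · exfalso
      apply (v_prim hn y hv).1.2 p hp
      rw [h]
      exact ⟨by simp, by simpa using gc2_one_mem⟩
    · exact ⟨⟨β, hβ⟩, h⟩

theorem tp_S {n : Id K} (hn : IsInt n) {p : Pr K} (hp : ¬ Dv p n) (b : Id K) {S : Finset K}
    (hS : IsRepQ b⁻¹ (pI p * b⁻¹) S) (f : Pt n → M) :
    Tp p f (sS n b) = f (ptS b (cp_pI hp)) +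
      ∑ β ∈ S, f ((sS n (b / pI p)).mul (nm β : GL (Fin 2) K)) := by
  rw [lg_sum (ι := Option S) (fun o => o.elim (ptS b (cp_pI hp))
    (fun β => (sS n (b / pI p)).mul (nm β.1 : GL (Fin 2) K))) ?_ ?_ ?_ f]
  · rw [Fintype.sum_option]
    congr 1
    exact Finset.sum_coe_sort S fun β => f ((sS n (b / pI p)).mul (nm β : GL (Fin 2) K))
  · rintro (_ | β)
    · exact lg_nb1 hn hp b
    · exact lg_nb2 hn p b (hS.mem β.1 β.2)
  · have hne : ∀ β : K, ptS b (cp_pI hp) ≠ (sS n (b / pI p)).mul (nm β : GL (Fin 2) K) := by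
      intro β h
      have h1 := congrArg (fun x : Pt n => x.L.sm (pI p)) h
      simp only [lg_L2, lg_L1 hp] at h1
      exact gc2_ne p b β h1
    rintro (_ | β) (_ | β') h
    · rfl
    · exact absurd h (hne β'.1)
    · exact absurd h.symm (hne β.1)
    · exact congrArg some (Subtype.ext (lg_inj2 hS β.2 β'.2 h))
  · intro y hy
    obtain ⟨hv, h | ⟨β, hβ, h⟩⟩ := lg_sur hn hS hy
    · refine ⟨none, pt_eq hn ?_ (lg_self n _ _) hv⟩
      apply lg_sm_inj (c := pI p)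
      rw [h]
      exact lg_L1 hp
    · exact ⟨some ⟨β, hβ⟩, h⟩

end op


end Pool.Agent.HSG.LV
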