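import Pool.Agent.Lib_helper84.LV.Defs
import Pool.Agent.Lib_helper84.HSGF.GC2
import Pool.Agent.Lib_helper84.LVF.LA
import Pool.Agent.Lib_helper84.LVF.LB

/-! # Lattices with a level structure, block LH (HSZ): the Hecke operators at `(O ⊕ b, (1,0))` -/

namespace Pool.Agent.HSG.LV

open Complex NumberField IsDedekindDomain
open scoped nonZeroDivisors MatrixGroups

variable {K : Type} [Field K] [NumberField K]

theorem lh_cst_mono {n : Id K} {L L' : Lat K} (h : L.M ≤ L'.M) (v : Fin 2 → K) :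
    cst n L v ⊆ cst n L' v := fun _ hu => Submodule.smul_mono le_rfl h hu

theorem lh_self (n : Id K) (L : Lat K) (v : Fin 2 → K) : v ∈ cst n L v := by
  show v - v ∈ (L.sm n).M
  rw [sub_self]
  exact Submodule.zero_mem _

/-- criterion for neighbours: the lattices are neighbours and a vector is common -/
theorem lh_nb {n : Id K} (hn : IsInt n) {p : Pr K} {x y : Pt n} (h : y.L.Sub p x.L)
    {v : Fin 2 → K} (hx : v ∈ x.V) (hy : v ∈ y.V) : Nb p x y := by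
  refine ⟨h, ?_⟩
  rw [(v_prim hn x hx).2, (v_prim hn y hy).2]
  exact lh_cst_mono h.2.le v

/-- the sum over the neighbours as a finite sum -/
theorem lh_sum {M : Type} [AddCommMonoid M] {n : Id K} {P : Pt n → Prop} {ι : Type}
    [Fintype ι] (φ : ι → Pt n) (h1 : ∀ i, P (φ i)) (h2 : Function.Injective φ)
    (h3 : ∀ y, P y → ∃ i, φ i = y) (f : Pt n → M) :
    ∑ᶠ y : {y : Pt n // P y}, f y.1 = ∑ i, f (φ i) := by
  have hb : Function.Bijective (fun i => (⟨φ i, h1 i⟩ : {y : Pt n // P y})) := by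
    constructor
    · intro i j h
      exact h2 (congrArg Subtype.val h)
    · rintro ⟨y, hy⟩
      obtain ⟨i, hi⟩ := h3 y hy
      exact ⟨i, Subtype.ext hi⟩
  rw [← finsum_comp_equiv (Equiv.ofBijective _ hb), finsum_eq_sum_of_fintype]
  rfl

omit [NumberField K] in
theorem lh_vm_nm (β : K) (x y : K) :
    Matrix.vecMul ![x, y] ((nm β : GL (Fin 2) K) : Matrix (Fin 2) (Fin 2) K) =
      ![x, x * β + y] := by
  rw [Matrix.SpecialLinearGroup.coe_GL_coe_matrix]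
  ext i
  fin_cases i <;> simp [nm, Matrix.vecMul, dotProduct, Fin.sum_univ_two]

/-- the coset of the translated standard point -/
theorem lh_ptZ_V {n b c : Id K} (hc : Cp n c) (β : K) :
    ((ptZ b hc).mul (nm β : GL (Fin 2) K)).V =
      cst n ((Lat.ds c⁻¹ b).mul (nm β : GL (Fin 2) K)) ![1, β] := by
  have h := cst_mul n (Lat.ds c⁻¹ b) ![1, 0] (nm β : GL (Fin 2) K)
  rw [lh_vm_nm, one_mul, add_zero] at h
  exact h

theorem lh_ptZ_mem {n b c : Id K} (hc : Cp n c) (β : K) :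
    ![1, β] ∈ ((ptZ b hc).mul (nm β : GL (Fin 2) K)).V := by
  rw [lh_ptZ_V]
  exact lh_self _ _ _

/-- membership of `(x, y)` in the coset of the translated standard point -/
theorem lh_mem {n b c : Id K} (hc : Cp n c) (β : K) {x y : K} (hx : x - 1 ∈ (n * c⁻¹).m)
    (hy : y - x * β ∈ (n * b).m) :
    ![x, y] ∈ ((ptZ b hc).mul (nm β : GL (Fin 2) K)).V := by
  rw [lh_ptZ_V]
  show ![x, y] - ![1, β] ∈ (((Lat.ds c⁻¹ b).mul (nm β : GL (Fin 2) K)).sm n).M
  rw [← mul_sm, ds_sm, mem_ds_nm]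
  constructor
  · simpa using hx
  · have e : (![x, y] - ![1, β] : Fin 2 → K) 1 - (![x, y] - ![1, β] : Fin 2 → K) 0 * β =
        y - x * β := by
      simp
      ring
    rw [e]
    exact hy

theorem lh_sm_inj {c : Id K} {L L' : Lat K} (h : L.sm c = L'.sm c) : L = L' := by
  have h1 := congrArg (fun L => Lat.sm c⁻¹ L) h
  simpa only [sm_sm, mul_inv_cancel, sm_one] using h1

/-! ### Sublattices of `O ⊕ b` -/

theorem lh_scale (b : Id K) : (Lat.ds b⁻¹ 1).sm b = Lat.ds 1 b := by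
  rw [ds_sm, mul_inv_cancel, mul_one]

theorem lh_sub0 (p : Pr K) (b : Id K) : (Lat.ds 1 b).Sub p (Lat.ds (pI p) b) := by
  have h := (sub_sm b).2 (gc2_sub0 p b⁻¹)
  rw [lh_scale, ds_sm, mul_one, mul_left_comm, mul_inv_cancel, mul_one] at h
  exact h

theorem lh_sub1 (p : Pr K) (b : Id K) {β : K} (hβ : β ∈ b.m) :
    (Lat.ds 1 b).Sub p ((Lat.ds 1 (pI p * b)).mul (nm β : GL (Fin 2) K)) := by
  have h := (sub_sm b).2 (gc2_sub1 p b⁻¹ (β := β) (by rwa [inv_inv]))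
  rw [lh_scale, ← mul_sm, ds_sm, mul_inv_cancel, mul_comm b] at h
  exact h

theorem lh_exh (p : Pr K) (b : Id K) {L' : Lat K} (h : (Lat.ds 1 b).Sub p L') :
    L' = Lat.ds (pI p) b ∨
      ∃ β ∈ b.m, L' = (Lat.ds 1 (pI p * b)).mul (nm β : GL (Fin 2) K) := by
  have h1 : (Lat.ds b⁻¹ 1).Sub p (L'.sm b⁻¹) := by
    have h2 := (sub_sm b⁻¹).2 h
    rwa [ds_sm, mul_one, inv_mul_cancel] at h2
  rcases gc2_exh p b⁻¹ h1 with h2 | ⟨β, hβ, h2⟩
  · left
    apply lh_sm_inj (c := b⁻¹)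
    rw [h2, ds_sm, inv_mul_cancel, mul_comm b⁻¹]
  · right
    refine ⟨β, by rwa [inv_inv] at hβ, ?_⟩
    apply lh_sm_inj (c := b⁻¹)
    rw [h2, ← mul_sm, ds_sm, mul_one, mul_left_comm, inv_mul_cancel, mul_one]

theorem lh_inj (p : Pr K) (b : Id K) {β β' : K}
    (h : (Lat.ds 1 (pI p * b)).mul (nm β : GL (Fin 2) K) =
      (Lat.ds 1 (pI p * b)).mul (nm β' : GL (Fin 2) K)) : β - β' ∈ (pI p * b).m := by
  have h1 := congrArg (Lat.sm b⁻¹) h
  rw [← mul_sm, ← mul_sm, ds_sm, mul_one, mul_left_comm, inv_mul_cancel, mul_one] at h1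
  have h2 := gc2_inj p b⁻¹ h1
  rwa [inv_inv] at h2

theorem lh_eq (p : Pr K) (b : Id K) {β β' : K} (h : β - β' ∈ (pI p * b).m) :
    (Lat.ds 1 (pI p * b)).mul (nm β : GL (Fin 2) K) =
      (Lat.ds 1 (pI p * b)).mul (nm β' : GL (Fin 2) K) := by
  have h1 := gc2_eq p b⁻¹ (β := β) (β' := β') (by rwa [inv_inv])
  have h2 := congrArg (Lat.sm b) h1
  rwa [← mul_sm, ← mul_sm, ds_sm, mul_inv_cancel, mul_comm b] at h2

theorem lh_ne (p : Pr K) (b : Id K) (β : K) :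
    Lat.ds (pI p) b ≠ (Lat.ds 1 (pI p * b)).mul (nm β : GL (Fin 2) K) := by
  intro h
  have h1 := congrArg (Lat.sm b⁻¹) h
  rw [← mul_sm, ds_sm, ds_sm, mul_one, mul_left_comm, inv_mul_cancel, mul_one,
    mul_comm b⁻¹] at h1
  exact gc2_ne p b⁻¹ β h1

theorem lh_int_le {n : Id K} (hn : IsInt n) (b : Id K) : (n * b).m ≤ b.m := by
  rw [← isInt_div, mul_div_assoc, div_self', mul_one]
  exact hn

theorem lh_sZ_L (n b : Id K) : (sZ n b).L = Lat.ds 1 b := by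
  show Lat.ds (1 : Id K)⁻¹ b = _
  rw [inv_one]

theorem lh_sZ_mem (n b : Id K) : ![1, 0] ∈ (sZ n b).V := lh_self n _ _

/-! ### The primes which do not divide the level -/

theorem lh_L1 (n b : Id K) (p : Pr K) : ((sZ n (b / pI p)).L).sm (pI p) = Lat.ds (pI p) b := by
  rw [lh_sZ_L, ds_sm, mul_one, mul_div_cancel]

theorem lh_L2 {n b : Id K} {p : Pr K} (hp : ¬ Dv p n) (β : K) :
    (((ptZ b (cp_pI hp)).mul (nm β : GL (Fin 2) K)).L).sm (pI p) =
      (Lat.ds 1 (pI p * b)).mul (nm β : GL (Fin 2) K) := by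
  show ((Lat.ds (pI p)⁻¹ b).mul _).sm (pI p) = _
  rw [← mul_sm, ds_sm, mul_inv_cancel]

theorem lh_Z_mem {n b c : Id K} (hc : Cp n c) {β : K} (hβ : β ∈ (n * b).m) :
    ![1, 0] ∈ ((ptZ b hc).mul (nm β : GL (Fin 2) K)).V := by
  apply lh_mem
  · rw [sub_self]
    exact Submodule.zero_mem _
  · rw [one_mul, zero_sub]
    exact Submodule.neg_mem _ hβ

theorem lh_nb1 {n : Id K} (hn : IsInt n) (p : Pr K) (b : Id K) :
    Nb p (sZ n b) (sZ n (b / pI p)) := by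
  refine lh_nb hn ?_ (lh_sZ_mem n b) (lh_sZ_mem n _)
  rw [sub_dual, lh_L1, lh_sZ_L]
  exact lh_sub0 p b

theorem lh_nb2 {n : Id K} (hn : IsInt n) {p : Pr K} (hp : ¬ Dv p n) {b : Id K} {β : K}
    (hβ : β ∈ (n * b).m) :
    Nb p (sZ n b) ((ptZ b (cp_pI hp)).mul (nm β : GL (Fin 2) K)) := by
  refine lh_nb hn ?_ (lh_sZ_mem n b) (lh_Z_mem _ hβ)
  rw [sub_dual, lh_L2 hp, lh_sZ_L]
  exact lh_sub1 p b (lh_int_le hn b hβ)

theorem lh_inj2 {n : Id K} (hn : IsInt n) {p : Pr K} (hp : ¬ Dv p n) {b : Id K} {S : Finset K}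
    (hS : IsRepQ (n * b) (pI p * (n * b)) S) {β β' : K} (hβ : β ∈ S) (hβ' : β' ∈ S)
    (h : (ptZ b (cp_pI hp)).mul (nm β : GL (Fin 2) K) =
      (ptZ b (cp_pI hp)).mul (nm β' : GL (Fin 2) K)) : β = β' := by
  have h1 := congrArg (fun x : Pt n => x.L.sm (pI p)) h
  simp only [lh_L2 hp] at h1
  have h2 := lh_inj p b h1
  have h3 := (cp_inf hn (cp_pI hp) b (β - β')).1
    ⟨Submodule.sub_mem _ (hS.mem β hβ) (hS.mem β' hβ'), h2⟩
  apply hS.inj β hβ β' hβ'
  rwa [mul_comm n, mul_assoc] at h3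

theorem lh_sur {n : Id K} (hn : IsInt n) {p : Pr K} (hp : ¬ Dv p n) {b : Id K} {S : Finset K}
    (hS : IsRepQ (n * b) (pI p * (n * b)) S) {y : Pt n} (h : Nb p (sZ n b) y) :
    sZ n (b / pI p) = y ∨
      ∃ β ∈ S, (ptZ b (cp_pI hp)).mul (nm β : GL (Fin 2) K) = y := by
  have hv : ![1, 0] ∈ y.V := h.2 (lh_sZ_mem n b)
  have h1 := h.1
  rw [sub_dual, lh_sZ_L] at h1
  rcases lh_exh p b h1 with h2 | ⟨β, hβ, h2⟩
  · left
    refine pt_eq hn ?_ (lh_sZ_mem n _) hv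
    apply lh_sm_inj (c := pI p)
    rw [lh_L1]
    exact h2.symm
  · right
    obtain ⟨s, hs, t, ht, hst⟩ := cp_comax hn (cp_pI hp)
    obtain ⟨β', hβ', h3⟩ := hS.sur (t * β) (mem_mul_of ht hβ)
    refine ⟨β', hβ', ?_⟩
    refine pt_eq hn ?_ (lh_Z_mem _ (hS.mem β' hβ')) hv
    apply lh_sm_inj (c := pI p)
    have h4 : β - β' ∈ (pI p * b).m := by
      have h5 : (pI p * (n * b)).m ≤ (pI p * b).m := by
        rw [mul_left_comm]
        exact lh_int_le hn _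
      have h6 := Submodule.add_mem _ (mem_mul_of hs hβ) (h5 h3)
      have e : s * β + (t * β - β') = β - β' := by
        have : β = s * β + t * β := by rw [← add_mul, hst, one_mul]
        linear_combination (-1 : K) * this
      rwa [e] at h6
    rw [lh_L2 hp, ← lh_eq p b h4]
    exact h2.symm

/-! ### The primes dividing the level -/

theorem lh_dv_le {n : Id K} {p : Pr K} (hp : Dv p n) (b : Id K) : (n * b).m ≤ (pI p * b).m := by
  rw [← isInt_div, mul_div_mul_right_eq_div]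
  exact hp

theorem lh_dv_le' {n : Id K} {p : Pr K} (hp : Dv p n) : n.m ≤ (pI p).m := by
  have := lh_dv_le hp (1 : Id K)
  rwa [mul_one, mul_one] at this

theorem lh_int {n : Id K} {p : Pr K} (hp : Dv p n) : IsInt n :=
  (isInt_iff n).2 ((lh_dv_le' hp).trans (gc2_p_le p))

theorem lh_L3 {n b : Id K} {p : Pr K} (hp : Dv p n) {β : K} (hβ : β ∈ (n * b).m) :
    ((sZ n (pI p * b)).mul (nm β : GL (Fin 2) K)).L = Lat.ds 1 (pI p * b) := by
  show (sZ n (pI p * b)).L.mul _ = _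
  rw [lh_sZ_L]
  apply ds_nm
  rw [div_one]
  exact lh_dv_le hp b hβ

theorem lh_nb3 {n : Id K} (hn : IsInt n) {p : Pr K} (hp : Dv p n) {b : Id K} {β : K}
    (hβ : β ∈ (n * b).m) :
    Nb p ((sZ n (pI p * b)).mul (nm β : GL (Fin 2) K)) (sZ n b) := by
  refine lh_nb hn ?_ (v := ![1, β]) (lh_ptZ_mem _ β) ?_
  · rw [lh_L3 hp hβ, lh_sZ_L]
    have h := lh_sub1 p b (β := 0) (Submodule.zero_mem _)
    rw [ds_nm _ _ (Submodule.zero_mem _)] at h
    exact h
  · show ![1, β] - ![1, 0] ∈ ((sZ n b).L.sm n).M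
    rw [lh_sZ_L, ds_sm]
    exact ⟨by simp, by simpa using hβ⟩

theorem lh_inj3 {n : Id K} {p : Pr K} {b : Id K} {S : Finset K}
    (hS : IsRepQ (n * b) (pI p * (n * b)) S) {β β' : K} (hβ : β ∈ S) (hβ' : β' ∈ S)
    (h : (sZ n (pI p * b)).mul (nm β : GL (Fin 2) K) =
      (sZ n (pI p * b)).mul (nm β' : GL (Fin 2) K)) : β = β' := by
  have h1 : ![1, β'] ∈ ((sZ n (pI p * b)).mul (nm β : GL (Fin 2) K)).V := by
    rw [h]
    exact lh_ptZ_mem _ β'
  rw [show (sZ n (pI p * b)) = ptZ (pI p * b) (cp_one n) from rfl, lh_ptZ_V] at h1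
  have h2 : ![1, β'] - ![1, β] ∈
      (((Lat.ds (1 : Id K)⁻¹ (pI p * b)).mul (nm β : GL (Fin 2) K)).sm n).M := h1
  rw [← mul_sm, ds_sm, mem_ds_nm] at h2
  have h3 : β' - β ∈ (n * (pI p * b)).m := by simpa using h2.2
  rw [mul_left_comm] at h3
  exact (hS.inj β' hβ' β hβ h3).symm

theorem lh_sur3 {n : Id K} (hn : IsInt n) {p : Pr K} (hp : Dv p n) {b : Id K} {S : Finset K}
    (hS : IsRepQ (n * b) (pI p * (n * b)) S) {x : Pt n} (h : Nb p x (sZ n b)) :
    ∃ β ∈ S, (sZ n (pI p * b)).mul (nm β : GL (Fin 2) K) = x := by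
  obtain ⟨v, hv⟩ := v_ne n x
  have hvL : v ∈ x.L.M := v_sub hn x hv
  have h1 := h.1
  rw [lh_sZ_L] at h1
  -- the coordinates of `v`
  have h2 : v - ![1, 0] ∈ ((sZ n b).L.sm n).M := h.2 hv
  rw [lh_sZ_L, ds_sm, mul_one] at h2
  have h3 : v 0 - 1 ∈ n.m := by simpa using h2.1
  have h4 : v 1 ∈ (n * b).m := by simpa using h2.2
  have h5 : v 0 ∉ (pI p).m := by
    intro h6
    apply gc2_one_not p
    have h7 := Submodule.sub_mem _ h6 (lh_dv_le' hp h3)
    rwa [sub_sub_cancel] at h7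
  rcases lh_exh p b h1 with h6 | ⟨γ, hγ, h6⟩
  · exfalso
    rw [h6] at hvL
    exact h5 hvL.1
  · have hγ' : γ ∈ (pI p * b).m := by
      have h7 := hvL
      rw [h6, mem_ds_nm] at h7
      have h8 : (v 0 - 1) * γ ∈ (pI p * b).m := mem_mul_of (lh_dv_le' hp h3) hγ
      have h9 := Submodule.sub_mem _ (Submodule.sub_mem _ (lh_dv_le hp b h4) h7.2) h8
      have e : v 1 - (v 1 - v 0 * γ) - (v 0 - 1) * γ = γ := by ring
      rwa [e] at h9
    have hL : x.L = Lat.ds 1 (pI p * b) := by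
      rw [h6]
      apply ds_nm
      rw [div_one]
      exact hγ'
    obtain ⟨β, hβ, h7⟩ := hS.sur (v 1) h4
    refine ⟨β, hβ, ?_⟩
    refine pt_eq hn ?_ (v := v) ?_ hv
    · rw [lh_L3 hp (hS.mem β hβ), hL]
    · rw [show v = ![v 0, v 1] from (gc2_eta v).symm]
      apply lh_mem
      · rw [inv_one, mul_one]
        exact h3
      · have h8 : (v 0 - 1) * β ∈ (n * (pI p * b)).m :=
          mem_mul_of h3 (lh_dv_le hp b (hS.mem β hβ))
        rw [mul_left_comm] at h8 ⊢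
        have h9 := Submodule.sub_mem _ h7 h8
        have e : v 1 - β - (v 0 - 1) * β = v 1 - v 0 * β := by ring
        rwa [e] at h9

section op
variable {M : Type} [AddCommMonoid M] [Module ℂ M]

theorem tp_Z {n : Id K} (hn : IsInt n) {p : Pr K} (hp : ¬ Dv p n) (b : Id K) {S : Finset K}
    (hS : IsRepQ (n * b) (pI p * (n * b)) S) (f : Pt n → M) :
    Tp p f (sZ n b) = f (sZ n (b / pI p)) +
      ∑ β ∈ S, f ((ptZ b (cp_pI hp)).mul (nm β : GL (Fin 2) K)) := by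
  unfold Tp
  rw [lh_sum (ι := Option S) (fun o => o.elim (sZ n (b / pI p))
    (fun β => (ptZ b (cp_pI hp)).mul (nm β.1 : GL (Fin 2) K))) ?_ ?_ ?_ f]
  · rw [Fintype.sum_option]
    congr 1
    exact Finset.sum_coe_sort S fun β => f ((ptZ b (cp_pI hp)).mul (nm β : GL (Fin 2) K))
  · rintro (_ | β)
    · exact lh_nb1 hn p b
    · exact lh_nb2 hn hp (hS.mem β.1 β.2)
  · have hne : ∀ β : K, sZ n (b / pI p) ≠ (ptZ b (cp_pI hp)).mul (nm β : GL (Fin 2) K) := by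
      intro β h
      have h1 := congrArg (fun x : Pt n => x.L.sm (pI p)) h
      simp only [lh_L2 hp, lh_L1] at h1
      exact lh_ne p b β h1
    rintro (_ | β) (_ | β') h
    · rfl
    · exact absurd h (hne β'.1)
    · exact absurd h.symm (hne β.1)
    · exact congrArg some (Subtype.ext (lh_inj2 hn hp hS β.2 β'.2 h))
  · intro y hy
    rcases lh_sur hn hp hS hy with h | ⟨β, hβ, h⟩
    · exact ⟨none, h⟩
    · exact ⟨some ⟨β, hβ⟩, h⟩

theorem ts_Z {n : Id K} (hn : IsInt n) {p : Pr K} (hp : Dv p n) (b : Id K) {S : Finset K}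
    (hS : IsRepQ (n * b) (pI p * (n * b)) S) (f : Pt n → M) :
    Ts p f (sZ n b) = ∑ β ∈ S, f ((sZ n (pI p * b)).mul (nm β : GL (Fin 2) K)) := by
  unfold Ts
  rw [lh_sum (fun β : S => (sZ n (pI p * b)).mul (nm β.1 : GL (Fin 2) K))
    (fun β => lh_nb3 hn hp (hS.mem β.1 β.2)) ?_ ?_ f]
  · exact Finset.sum_coe_sort S fun β => f ((sZ n (pI p * b)).mul (nm β : GL (Fin 2) K))
  · intro β β' h
    exact Subtype.ext (lh_inj3 hS β.2 β'.2 h)
  · intro y hy
    obtain ⟨β, hβ, h⟩ := lh_sur3 hn hp hS hy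
    exact ⟨⟨β, hβ⟩, h⟩

end op


end Pool.Agent.HSG.LV
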