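import Pool.Agent.Lib_helper84.LV.Defs
import Pool.Agent.Lib_helper84.HSGF.GA1
import Pool.Agent.Lib_helper45.HSF.KI

/-! # LV, block LN (LAM): the function `λ` on ideals and the Fourier coefficients (helper39) -/

namespace Pool.Agent.HSG.LV

open Complex NumberField IsDedekindDomain
open scoped nonZeroDivisors MatrixGroups

variable {K : Type} [Field K] [NumberField K]

theorem hl_zero (w lam : Pr K → ℂ) : hl w lam 0 = 1 := Finsupp.prod_zero_index

theorem hl_single (w lam : Pr K → ℂ) (p : Pr K) (j : ℕ) :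
    hl w lam (Finsupp.single p j) = hk (lam p) (w p) j := Finsupp.prod_single_index rfl

theorem hl_add (w lam : Pr K → ℂ) {m m' : Pr K →₀ ℕ} (h : Disjoint m.support m'.support) :
    hl w lam (m + m') = hl w lam m * hl w lam m' := by
  classical
  exact Finsupp.prod_add_index_of_disjoint h _

theorem ln_rec {q : ℝ} (hq : 0 < q) (l w : ℂ) (a : ℕ → ℂ)
    (h1 : (q : ℂ) * a 1 = ((√q : ℝ) : ℂ) * l * a 0)
    (h2 : ∀ j, (q : ℂ) * a (j + 2) + w * a j = ((√q : ℝ) : ℂ) * l * a (j + 1)) (j : ℕ) :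
    a j = hk l w j * a 0 * (((√q : ℝ) : ℂ)⁻¹) ^ j := by
  have hs : ((√q : ℝ) : ℂ) ≠ 0 := by
    exact_mod_cast (Real.sqrt_pos.2 hq).ne'
  have hqs : (q : ℂ) = ((√q : ℝ) : ℂ) * ((√q : ℝ) : ℂ) := by
    rw [← Complex.ofReal_mul, Real.mul_self_sqrt hq.le]
  set s : ℂ := ((√q : ℝ) : ℂ) with hsdef
  have key : ∀ j, a j = hk l w j * a 0 * (s⁻¹) ^ j ∧
      a (j + 1) = hk l w (j + 1) * a 0 * (s⁻¹) ^ (j + 1) := by
    intro j
    induction j with
    | zero =>
      refine ⟨by simp [hk], ?_⟩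
      rw [hqs] at h1
      have h3 : s * (s * a 1) = s * (l * a 0) := by linear_combination h1
      have h4 := mul_left_cancel₀ hs h3
      show a 1 = l * a 0 * s⁻¹ ^ (0 + 1)
      rw [zero_add, pow_one, ← h4]
      field_simp
    | succ j ih =>
      refine ⟨ih.2, ?_⟩
      have h3 := h2 j
      rw [hqs, ih.1, ih.2] at h3
      have h4 : s ^ 2 * a (j + 2) = s ^ 2 * (hk l w (j + 2) * a 0 * (s⁻¹) ^ (j + 2)) := by
        have e1 : s ^ 2 * (hk l w (j + 2) * a 0 * (s⁻¹) ^ (j + 2)) =
            hk l w (j + 2) * a 0 * (s⁻¹) ^ j := by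
          rw [pow_add]
          field_simp
        have e2 : s * (s⁻¹) ^ (j + 1) = (s⁻¹) ^ j := by
          rw [pow_succ]
          field_simp
        rw [e1]
        show s ^ 2 * a (j + 2) = (l * hk l w (j + 1) - w * hk l w j) * a 0 * (s⁻¹) ^ j
        linear_combination h3 + (l * hk l w (j + 1) * a 0) * e2
      exact mul_left_cancel₀ (pow_ne_zero 2 hs) h4
  exact (key j).1

theorem ln_nI_mul (a b : Id K) : nI (a * b) = nI a * nI b := by
  unfold nI
  rw [Units.val_mul, map_mul]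
  push_cast
  rfl

theorem ln_nI_pI (p : Pr K) : nI (pI p) = (qP p : ℝ) := by
  unfold nI pI HS.frP qP
  rw [Units.val_mk0, FractionalIdeal.coeIdeal_absNorm]
  norm_cast

theorem ln_q_pos (p : Pr K) : (0 : ℝ) < (qP p : ℝ) := by
  have := HS.pk_ne_bot p
  unfold qP
  exact_mod_cast Nat.pos_of_ne_zero this

theorem ln_int (m : Pr K →₀ ℕ) : IsInt (HS.idl m) := HS.ki_le_one m

theorem ln_nint {m : Pr K →₀ ℕ} {p : Pr K} (h : p ∉ m.support) : ¬ IsInt (HS.idl m / pI p) := by
  intro h1
  rw [isInt_div, ga1_le] at h1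
  have h2 : (HS.idl m : FractionalIdeal (𝓞 K)⁰ K) ≤
      (HS.idl (Finsupp.single p 1) : FractionalIdeal (𝓞 K)⁰ K) := by
    rw [HS.idl_single, pow_one]; exact h1
  rw [← HS.idl_le] at h2
  have h3 := h2 p
  rw [Finsupp.single_eq_same] at h3
  exact h (Finsupp.mem_support_iff.2 (by omega))

theorem co_S (w lam : Pr K → ℂ) {A : Id K → ℂ} (h0 : ∀ m, ¬ IsInt m → A m = 0)
    (h1 : ∀ (p : Pr K) (m : Id K), IsInt m → (qP p : ℂ) * A (pI p * m) + w p * A (m / pI p) =
      ((√(qP p : ℝ) : ℝ) : ℂ) * lam p * A m) (m : Pr K →₀ ℕ) :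
    A (HS.idl m) = A 1 * hl w lam m * (((√(nI (HS.idl m)))⁻¹ : ℝ) : ℂ) := by
  classical
  induction m using Finsupp.induction with
  | zero =>
    rw [HS.idl_zero, hl_zero]
    have : nI (1 : Id K) = 1 := by
      unfold nI
      rw [Units.val_one, map_one]
      norm_cast
    rw [this]
    simp
  | single_add p j m' hp hj ih =>
    have hq := ln_q_pos p
    have hrec := ln_rec hq (lam p) (w p) (fun i => A (pI p ^ i * HS.idl m')) (by
        have h2 := h1 p (HS.idl m') (ln_int m')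
        rw [h0 _ (ln_nint hp), mul_zero, add_zero] at h2
        simp only [pow_one, pow_zero, one_mul]
        exact_mod_cast h2) (by
        intro i
        have h2 := h1 p (pI p ^ (i + 1) * HS.idl m') (by
          have h3 := ln_int (Finsupp.single p (i + 1) + m')
          rw [HS.idl_add, HS.idl_single] at h3
          exact h3)
        have e1 : pI p * (pI p ^ (i + 1) * HS.idl m') = pI p ^ (i + 2) * HS.idl m' := by
          rw [← mul_assoc, ← pow_succ']
        have e2 : pI p ^ (i + 1) * HS.idl m' / pI p = pI p ^ i * HS.idl m' := by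
          rw [pow_succ', mul_assoc, mul_div_cancel_left]
        rw [e1, e2] at h2
        exact_mod_cast h2) j
    rw [HS.idl_add, HS.idl_single]
    have e3 : A (HS.frP p ^ j * HS.idl m') = A (pI p ^ j * HS.idl m') := rfl
    rw [e3]
    have hrec' : A (pI p ^ j * HS.idl m') = hk (lam p) (w p) j * A (HS.idl m') *
        ((((√(qP p : ℝ) : ℝ)) : ℂ)⁻¹) ^ j := by
      have := hrec
      simp only [pow_zero, one_mul] at this
      exact this
    have e4 : hl w lam (Finsupp.single p j + m') = hk (lam p) (w p) j * hl w lam m' := by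
      rw [hl_add, hl_single]
      rw [Finsupp.support_single_ne_zero _ hj]
      exact Finset.disjoint_singleton_left.2 hp
    have e5 : √(nI (HS.frP p ^ j * HS.idl m')) = √(qP p : ℝ) ^ j * √(nI (HS.idl m')) := by
      have e6 : nI (HS.frP p ^ j : Id K) = (qP p : ℝ) ^ j := by
        have : nI (HS.frP p) = (qP p : ℝ) := ln_nI_pI p
        rw [← this]
        clear hj hrec e3 hrec' e4
        induction j with
        | zero =>
          unfold nI
          rw [pow_zero, pow_zero, Units.val_one, map_one]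
          norm_cast
        | succ j ih => rw [pow_succ, pow_succ, ln_nI_mul, ih]
      rw [ln_nI_mul, e6, Real.sqrt_mul (by positivity)]
      congr 1
      rw [Real.sqrt_eq_iff_mul_self_eq (by positivity) (by positivity), ← mul_pow,
        Real.mul_self_sqrt hq.le]
    rw [hrec', ih, e4, e5, mul_inv]
    push_cast
    rw [inv_pow]
    ring

theorem ln_hk_star (l w : ℂ) (j : ℕ) :
    starRingEnd ℂ (hk l w j) = hk (starRingEnd ℂ l) (starRingEnd ℂ w) j := by
  have key : ∀ j, starRingEnd ℂ (hk l w j) = hk (starRingEnd ℂ l) (starRingEnd ℂ w) j ∧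
      starRingEnd ℂ (hk l w (j + 1)) = hk (starRingEnd ℂ l) (starRingEnd ℂ w) (j + 1) := by
    intro j
    induction j with
    | zero => exact ⟨by simp [hk], rfl⟩
    | succ j ih =>
      refine ⟨ih.2, ?_⟩
      show starRingEnd ℂ (l * hk l w (j + 1) - w * hk l w j) = _
      rw [map_sub, map_mul, map_mul, ih.1, ih.2]
      rfl
  exact (key j).1

theorem ln_hl_star (w lam : Pr K → ℂ) (m : Pr K →₀ ℕ) :
    starRingEnd ℂ (hl w lam m) =
      hl (fun p => starRingEnd ℂ (w p)) (fun p => starRingEnd ℂ (lam p)) m := by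
  unfold hl Finsupp.prod
  rw [map_prod]
  exact Finset.prod_congr rfl fun p _ => ln_hk_star _ _ _

theorem co_Z (n : Id K) (w lam : Pr K → ℂ) {B : Id K → ℂ}
    (hw : ∀ p, ¬ Dv p n → ‖w p‖ = 1) (hw0 : ∀ p, Dv p n → w p = 0)
    (hc : ∀ p, ¬ Dv p n → lam p = w p * starRingEnd ℂ (lam p))
    (h0 : ∀ m, ¬ IsInt m → B m = 0)
    (h1 : ∀ (p : Pr K) (m : Id K), ¬ Dv p n → IsInt m → B (m / pI p) +
      (qP p : ℂ) * w p * B (pI p * m) = ((√(qP p : ℝ) : ℝ) : ℂ) * lam p * B m)
    (h2 : ∀ (p : Pr K) (m : Id K), Dv p n → IsInt m →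
      (qP p : ℂ) * B (pI p * m) = ((√(qP p : ℝ) : ℝ) : ℂ) * starRingEnd ℂ (lam p) * B m)
    (m : Pr K →₀ ℕ) :
    B (HS.idl m) = B 1 * starRingEnd ℂ (hl w lam m) * (((√(nI (HS.idl m)))⁻¹ : ℝ) : ℂ) := by
  rw [ln_hl_star]
  refine co_S _ _ h0 (fun p m hm => ?_) m
  by_cases hp : Dv p n
  · have h3 := h2 p m hp hm
    rw [hw0 p hp, map_zero, zero_mul, add_zero]
    exact h3
  · have h3 := h1 p m hp hm
    have h4 : starRingEnd ℂ (w p) * w p = 1 := by
      rw [← Complex.normSq_eq_conj_mul_self, Complex.normSq_eq_norm_sq, hw p hp]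
      norm_num
    have h5 := hc p hp
    calc (qP p : ℂ) * B (pI p * m) + starRingEnd ℂ (w p) * B (m / pI p)
        = starRingEnd ℂ (w p) * (B (m / pI p) + (qP p : ℂ) * w p * B (pI p * m)) := by
          linear_combination (-(qP p : ℂ) * B (pI p * m)) * h4
      _ = ((√(qP p : ℝ) : ℝ) : ℂ) * starRingEnd ℂ (lam p) * B m := by
          rw [h3]
          linear_combination (starRingEnd ℂ (w p) * ((√(qP p : ℝ) : ℝ) : ℂ) * B m) * h5 +
            (((√(qP p : ℝ) : ℝ) : ℂ) * starRingEnd ℂ (lam p) * B m) * h4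

theorem hl_conj (n : Id K) (w lam : Pr K → ℂ) (hw : ∀ p, ¬ Dv p n → ‖w p‖ = 1)
    (hc : ∀ p, ¬ Dv p n → lam p = w p * starRingEnd ℂ (lam p)) {m : Pr K →₀ ℕ}
    (hm : ∀ p ∈ m.support, ¬ Dv p n) :
    hl w lam m = (m.prod fun p j => w p ^ j) * starRingEnd ℂ (hl w lam m) := by
  unfold hl Finsupp.prod
  rw [map_prod, ← Finset.prod_mul_distrib]
  refine Finset.prod_congr rfl fun p hp => ?_
  have hn := hm p hp
  have h4 : starRingEnd ℂ (w p) * w p = 1 := by
    rw [← Complex.normSq_eq_conj_mul_self, Complex.normSq_eq_norm_sq, hw p hn]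
    norm_num
  have h5 := hc p hn
  have key : ∀ j, hk (lam p) (w p) j = w p ^ j * starRingEnd ℂ (hk (lam p) (w p) j) ∧
      hk (lam p) (w p) (j + 1) = w p ^ (j + 1) * starRingEnd ℂ (hk (lam p) (w p) (j + 1)) := by
    intro j
    induction j with
    | zero =>
      refine ⟨by simp [hk], ?_⟩
      show lam p = w p ^ (0 + 1) * starRingEnd ℂ (lam p)
      rw [zero_add, pow_one]
      exact h5
    | succ j ih =>
      refine ⟨ih.2, ?_⟩
      show lam p * hk (lam p) (w p) (j + 1) - w p * hk (lam p) (w p) j =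
        w p ^ (j + 1 + 1) * starRingEnd ℂ (lam p * hk (lam p) (w p) (j + 1) -
          w p * hk (lam p) (w p) j)
      rw [map_sub, map_mul, map_mul]
      set x := hk (lam p) (w p) (j + 1)
      set y := hk (lam p) (w p) j
      have hx := ih.2
      have hy := ih.1
      calc lam p * x - w p * y
          = (w p * starRingEnd ℂ (lam p)) * (w p ^ (j + 1) * starRingEnd ℂ x) -
            w p * (w p ^ j * starRingEnd ℂ y) := by rw [← h5, ← hx, ← hy]
        _ = _ := by linear_combination (w p ^ (j + 1) * starRingEnd ℂ y) * h4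
  exact (key (m p)).1

end Pool.Agent.HSG.LV
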