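import Pool.Agent.Lib_helper84.LV.Defs
import Pool.Agent.Lib_helper84.HSGF.GA1
import Pool.Agent.Lib_helper84.HSGF.GB1
import Pool.Agent.Lib_helper84.HSGF.GB2
import Pool.Agent.Lib_helper84.HSGF.GC1
import Pool.Agent.Lib_helper84.LVF.LA
import Pool.Agent.Lib_helper84.LVF.LB

/-! ## Block LD1 (HEC): the Hecke correspondences -/

namespace Pool.Agent.HSG.LV

open Complex NumberField IsDedekindDomain
open scoped nonZeroDivisors MatrixGroups

variable {K : Type} [Field K] [NumberField K]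

theorem ld1_smul {a : Id K} {x : K} (hx : x ∈ a.m) {L : Lat K} {v : Fin 2 → K} (hv : v ∈ L.M) :
    x • v ∈ (L.sm a).M := Submodule.smul_mem_smul hx hv

theorem ld1_mono (a : Id K) {L L' : Lat K} (h : L.M ≤ L'.M) : (L.sm a).M ≤ (L'.sm a).M :=
  Submodule.smul_mono le_rfl h

theorem ld1_vm_inj (g : GL (Fin 2) K) : Function.Injective
    (fun u : Fin 2 → K => Matrix.vecMul u (g : Matrix (Fin 2) (Fin 2) K)) := by
  intro u v h
  have h1 := congrArg (fun u => Matrix.vecMul u ((g⁻¹ : GL (Fin 2) K) : Matrix (Fin 2) (Fin 2) K)) h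
  simpa [Matrix.vecMul_vecMul] using h1

/-- points with a common vector -/
theorem ld1_sub {n : Id K} (hn : IsInt n) {x y : Pt n} (h : x.L.M ≤ y.L.M) {v : Fin 2 → K}
    (hx : v ∈ x.V) (hy : v ∈ y.V) : x.V ⊆ y.V := by
  rw [(v_prim hn x hx).2, (v_prim hn y hy).2]
  intro u hu
  exact ld1_mono n h hu

theorem nb_mul {n : Id K} {p : Pr K} {x y : Pt n} (g : GL (Fin 2) K) :
    Nb p (x.mul g) (y.mul g) ↔ Nb p x y := by
  show ((y.L.mul g).Sub p (x.L.mul g) ∧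
    (fun u : Fin 2 → K => Matrix.vecMul u (g : Matrix (Fin 2) (Fin 2) K)) '' x.V ⊆
    (fun u : Fin 2 → K => Matrix.vecMul u (g : Matrix (Fin 2) (Fin 2) K)) '' y.V) ↔
    (y.L.Sub p x.L ∧ x.V ⊆ y.V)
  rw [sub_mul, Set.image_subset_image_iff (ld1_vm_inj g)]

theorem nb_sc {n c : Id K} (hn : IsInt n) {p : Pr K} {x y x' y' : Pt n} (h : Sc c x x')
    (h' : Sc c y y') : Nb p x' y' ↔ Nb p x y := by
  have hsub : y'.L.Sub p x'.L ↔ y.L.Sub p x.L := by
    rw [h.2.1, h'.2.1, sub_sm]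
  constructor
  · rintro ⟨h1, h2⟩
    have h3 := hsub.1 h1
    refine ⟨h3, ?_⟩
    obtain ⟨v, hv⟩ := v_ne n x'
    have hvx : v ∈ x.V := (h.2.2 ▸ hv).1
    have hvy : v ∈ y.V := (h'.2.2 ▸ (h2 hv)).1
    exact ld1_sub hn h3.2.le hvx hvy
  · rintro ⟨h1, h2⟩
    have h3 := hsub.2 h1
    refine ⟨h3, ?_⟩
    rw [h.2.2, h'.2.2]
    exact Set.inter_subset_inter h2 h3.2.le

theorem ld1_frP (p : Pr K) (L : Lat K) : (L.sm (pI p)).M = p.asIdeal • L.M :=
  gc1_smul p L.M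

/-- for the primes which do not divide the level -/
theorem nb_dual {n : Id K} (hn : IsInt n) {p : Pr K} (hp : ¬ Dv p n) {x x' : Pt n}
    (h : Sc (pI p) x x') (y : Pt n) : Nb p y x ↔ Nb p x' y := by
  have hsub : x.L.Sub p y.L ↔ y.L.Sub p x'.L := by
    rw [h.2.1, sub_dual]
  constructor
  · rintro ⟨h1, h2⟩
    have h3 := hsub.1 h1
    refine ⟨h3, ?_⟩
    intro v hv
    have hv1 : v ∈ x.V := (h.2.2 ▸ hv).1
    have hv2 : v ∈ x'.L.M := (h.2.2 ▸ hv).2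
    have hv3 : v ∈ y.L.M := h3.2.le hv2
    obtain ⟨w, hw⟩ := v_ne n y
    have hw1 : w ∈ x.V := h2 hw
    have hwp := v_prim hn y hw
    rw [hwp.2]
    show v - w ∈ (y.L.sm n).M
    have e1 : v - w ∈ y.L.M := Submodule.sub_mem _ hv3 hwp.1.1
    have e2 : v - w ∈ (x.L.sm n).M := by
      have := (v_prim hn x hw1).2 ▸ hv1
      exact this
    obtain ⟨a, ha, b, hb, hab⟩ := cp_comax hn (cp_pI hp)
    have e3 : v - w = a • (v - w) + b • (v - w) := by rw [← add_smul, hab, one_smul]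
    rw [e3]
    apply Submodule.add_mem
    · have e4 := ld1_smul ha e2
      rw [sm_sm, mul_comm, ← sm_sm] at e4
      refine ld1_mono n ?_ e4
      rw [ld1_frP]
      exact h1.1.le
    · exact ld1_smul hb e1
  · rintro ⟨h1, h2⟩
    have h3 := hsub.2 h1
    refine ⟨h3, ?_⟩
    obtain ⟨v, hv⟩ := v_ne n x'
    exact ld1_sub hn h3.2.le (h2 hv) (h.2.2 ▸ hv).1

theorem ld1_sm_inj {c : Id K} {L L' : Lat K} (h : L.sm c = L'.sm c) : L = L' := by
  have h1 : (L.sm c).sm c⁻¹ = (L'.sm c).sm c⁻¹ := by rw [h]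
  rw [sm_sm, sm_sm, mul_inv_cancel, sm_one, sm_one] at h1
  exact h1

theorem nb_fin {n : Id K} (hn : IsInt n) (p : Pr K) (x : Pt n) :
    Finite {y : Pt n // Nb p x y} := by
  have hf := sub_fin p x.L
  obtain ⟨v, hv⟩ := v_ne n x
  let φ : {y : Pt n // Nb p x y} → {L' : Lat K // x.L.Sub p L'} :=
    fun y => ⟨y.1.L.sm (HS.frP p), sub_dual.1 y.2.1⟩
  apply Finite.of_injective φ
  rintro ⟨y, hy⟩ ⟨z, hz⟩ h
  have h1 : y.L.sm (HS.frP p) = z.L.sm (HS.frP p) := congrArg Subtype.val h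
  have h2 := ld1_sm_inj h1
  apply Subtype.ext
  exact pt_eq hn h2 (hy.2 hv) (hz.2 hv)

theorem nb_fin' {n : Id K} (hn : IsInt n) (p : Pr K) (y : Pt n) :
    Finite {x : Pt n // Nb p x y} := by
  have hf : {L' : Lat K | y.L.Sub p L'}.Finite := sub_fin p y.L
  have h1 : (⋃ L' ∈ {L' : Lat K | y.L.Sub p L'}, {x : Pt n | x.L = L'}).Finite :=
    hf.biUnion (fun L _ => fib_fin hn L)
  have h2 : {x : Pt n | Nb p x y}.Finite := by
    apply h1.subset
    intro x hx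
    rw [Set.mem_iUnion₂]
    exact ⟨x.L, hx.1, rfl⟩
  exact h2


end Pool.Agent.HSG.LV
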