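import Pool.Agent.Lib_helper84.LV.Defs
import Pool.Agent.Lib_helper84.LVF.LA
import Pool.Agent.Lib_helper84.LVF.LC
import Pool.Agent.Lib_helper84.LVF.LD1

/-! # Lattices with a level structure, block LE1: the Hecke operators -/

namespace Pool.Agent.HSG.LV

open Complex NumberField IsDedekindDomain
open scoped nonZeroDivisors MatrixGroups

variable {K : Type} [Field K] [NumberField K]

/-! ## Block LE (HOP): the Hecke operators (cites LC, LD) -/

section op
variable {M : Type} [AddCommMonoid M] [Module ℂ M]

/-- the action of a matrix on points -/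
noncomputable def le1_eq {n : Id K} (g : GL (Fin 2) K) : Pt n ≃ Pt n where
  toFun y := y.mul g
  invFun y := y.mul g⁻¹
  left_inv y := by
    show (y.mul g).mul g⁻¹ = y
    rw [← pt_mul_mul, mul_inv_cancel, pt_mul_one]
  right_inv y := by
    show (y.mul g⁻¹).mul g = y
    rw [← pt_mul_mul, inv_mul_cancel, pt_mul_one]

theorem tp_mul {n : Id K} (p : Pr K) (f : Pt n → M) (x : Pt n) (g : GL (Fin 2) K) :
    Tp p (fun y => f (y.mul g)) x = Tp p f (x.mul g) ∧
      Ts p (fun y => f (y.mul g)) x = Ts p f (x.mul g) := by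
  constructor
  · exact finsum_comp_equiv (f := fun y : {y : Pt n // Nb p (x.mul g) y} => f y.1)
      (e := (le1_eq (n := n) g).subtypeEquiv (p := fun y => Nb p x y)
        (q := fun y => Nb p (x.mul g) y) fun y => (nb_mul g).symm)
  · exact finsum_comp_equiv (f := fun y : {y : Pt n // Nb p y (x.mul g)} => f y.1)
      (e := (le1_eq (n := n) g).subtypeEquiv (p := fun y => Nb p y x)
        (q := fun y => Nb p y (x.mul g)) fun y => (nb_mul g).symm)

/-- multiplication by an ideal prime to the level -/
noncomputable def le1_sc {n c : Id K} (hn : IsInt n) (hc : Cp n c) : Pt n ≃ Pt n where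
  toFun y := (sc_exists hn hc y).choose
  invFun y := (sc_exists' hn hc y).choose
  left_inv y := by
    have h1 := (sc_exists hn hc y).choose_spec.1
    exact ((sc_exists' hn hc (sc_exists hn hc y).choose).choose_spec.2 y h1).symm
  right_inv y := by
    have h1 := (sc_exists' hn hc y).choose_spec.1
    exact ((sc_exists hn hc (sc_exists' hn hc y).choose).choose_spec.2 y h1).symm

theorem le1_sc_spec {n c : Id K} (hn : IsInt n) (hc : Cp n c) (y : Pt n) :
    Sc c y (le1_sc hn hc y) := (sc_exists hn hc y).choose_spec.1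

theorem tp_sc {n c : Id K} (hn : IsInt n) (p : Pr K) {f : Pt n → M} {w : ℂ}
    (hf : ∀ x y, Sc c x y → f y = w • f x) {x y : Pt n} (h : Sc c x y) :
    Tp p f y = w • Tp p f x ∧ Ts p f y = w • Ts p f x := by
  classical
  have hc : Cp n c := h.1
  constructor
  · have hfin1 : Finite {z : Pt n // Nb p x z} := nb_fin hn p x
    have hfin2 : Finite {z : Pt n // Nb p y z} := nb_fin hn p y
    have : Fintype {z : Pt n // Nb p x z} := Fintype.ofFinite _
    have : Fintype {z : Pt n // Nb p y z} := Fintype.ofFinite _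
    unfold Tp
    rw [← finsum_comp_equiv ((le1_sc (K := K) hn hc).subtypeEquiv (p := fun z => Nb p x z)
        (q := fun z => Nb p y z) fun z => (nb_sc hn h (le1_sc_spec hn hc z)).symm),
      finsum_eq_sum_of_fintype, finsum_eq_sum_of_fintype, Finset.smul_sum]
    refine Finset.sum_congr rfl fun z _ => ?_
    exact hf z.1 _ (le1_sc_spec hn hc z.1)
  · have hfin1 : Finite {z : Pt n // Nb p z x} := nb_fin' hn p x
    have hfin2 : Finite {z : Pt n // Nb p z y} := nb_fin' hn p y
    have : Fintype {z : Pt n // Nb p z x} := Fintype.ofFinite _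
    have : Fintype {z : Pt n // Nb p z y} := Fintype.ofFinite _
    unfold Ts
    rw [← finsum_comp_equiv ((le1_sc (K := K) hn hc).subtypeEquiv (p := fun z => Nb p z x)
        (q := fun z => Nb p z y) fun z => (nb_sc hn (le1_sc_spec hn hc z) h).symm),
      finsum_eq_sum_of_fintype, finsum_eq_sum_of_fintype, Finset.smul_sum]
    refine Finset.sum_congr rfl fun z _ => ?_
    exact hf z.1 _ (le1_sc_spec hn hc z.1)

theorem ts_eq {n : Id K} (hn : IsInt n) {p : Pr K} (hp : ¬ Dv p n) (f : Pt n → M) {x x' : Pt n}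
    (h : Sc (pI p) x x') : Ts p f x = Tp p f x' :=
  finsum_comp_equiv (f := fun y : {y : Pt n // Nb p x' y} => f y.1)
    (e := Equiv.subtypeEquivRight fun y => nb_dual hn hp h y)

/-- the eigenvalue of the adjoint operator -/
theorem ts_tp {n : Id K} (hn : IsInt n) {p : Pr K} (hp : ¬ Dv p n) {f : Pt n → M} {w : ℂ}
    (hf : ∀ x y, Sc (pI p) x y → f y = w • f x) (x : Pt n) : Ts p f x = w • Tp p f x := by
  obtain ⟨x', hx', -⟩ := sc_exists hn (cp_pI hp) x
  rw [ts_eq hn hp f hx']
  exact (tp_sc hn p hf hx').1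


end op

end Pool.Agent.HSG.LV
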