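import Pool.Agent.Lib_helper84.LV.Defs
import Pool.Agent.Lib_helper84.HSGF.GC2
import Pool.Agent.Lib_helper84.LVF.LA
import Pool.Agent.Lib_helper84.LVF.LB
import Pool.Agent.Lib_helper84.LVF.LC
import Pool.Agent.Lib_helper84.LVF.LD1
import Pool.Agent.Lib_helper84.LVF.LF
import Pool.Agent.Lib_helper84.LVF.LG
import Pool.Agent.Lib_helper84.LVF.LH
import Pool.Agent.Lib_helper84.LVF.LI2

/-! # Lattices with a level structure, block LD2 (HCC): the number of neighbours -/

set_option autoImplicit false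

namespace Pool.Agent.HSG.LV

open NumberField IsDedekindDomain
open scoped nonZeroDivisors MatrixGroups Pointwise

variable {K : Type} [Field K] [NumberField K]

theorem ld2_mul {n : Id K} (p : Pr K) (x : Pt n) (g : GL (Fin 2) K) :
    Nat.card {y : Pt n // Nb p (x.mul g) y} = Nat.card {y : Pt n // Nb p x y} ∧
      Nat.card {y : Pt n // Nb p y (x.mul g)} = Nat.card {y : Pt n // Nb p y x} := by
  have hinv : ∀ y : Pt n, (y.mul g⁻¹).mul g = y := by
    intro y
    rw [← pt_mul_mul, inv_mul_cancel, pt_mul_one]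
  have hinv' : ∀ y : Pt n, (y.mul g).mul g⁻¹ = y := by
    intro y
    rw [← pt_mul_mul, mul_inv_cancel, pt_mul_one]
  let e : Pt n ≃ Pt n := ⟨fun y => y.mul g, fun y => y.mul g⁻¹, hinv', hinv⟩
  constructor
  · symm
    exact Nat.card_congr (e.subtypeEquiv fun y => (nb_mul g).symm)
  · symm
    exact Nat.card_congr (e.subtypeEquiv fun y => (nb_mul g).symm)

theorem ld2_sact {n : Id K} (p : Pr K) (x : Pt n) (g : SL(2, K)) :
    Nat.card {y : Pt n // Nb p (g • x) y} = Nat.card {y : Pt n // Nb p x y} ∧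
      Nat.card {y : Pt n // Nb p y (g • x)} = Nat.card {y : Pt n // Nb p y x} := by
  rw [sact_eq]
  exact ld2_mul p x _

theorem ld2_tp {n : Id K} (hn : IsInt n) (p : Pr K) (x : Pt n) :
    Tp p (fun _ => (1 : ℂ)) x = (Nat.card {y : Pt n // Nb p x y} : ℂ) := by
  have := nb_fin hn p x
  have := Fintype.ofFinite {y : Pt n // Nb p x y}
  unfold Tp
  rw [finsum_eq_sum_of_fintype, Finset.sum_const, Nat.card_eq_fintype_card, nsmul_eq_mul, mul_one]
  rfl

theorem ld2_ts {n : Id K} (hn : IsInt n) (p : Pr K) (x : Pt n) :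
    Ts p (fun _ => (1 : ℂ)) x = (Nat.card {y : Pt n // Nb p y x} : ℂ) := by
  have := nb_fin' hn p x
  have := Fintype.ofFinite {y : Pt n // Nb p y x}
  unfold Ts
  rw [finsum_eq_sum_of_fintype, Finset.sum_const, Nat.card_eq_fintype_card, nsmul_eq_mul, mul_one]
  rfl

theorem ld2_rep (p : Pr K) (b : Id K) : ∃ S : Finset K, IsRepQ b (pI p * b) S ∧ S.card = qP p := by
  have hle : (pI p * b).m ≤ b.m := gc2_pb_le p b
  obtain ⟨S, hS⟩ := repq_exists hle
  refine ⟨S, hS, ?_⟩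
  have h := repq_card hle hS
  rw [nI_mul, (pI_facts p).2.2.1, mul_div_assoc, div_self (nI_pos b).ne', mul_one] at h
  exact_mod_cast h

theorem ld2_up {n : Id K} (hn : IsInt n) {p : Pr K} (hp : ¬ Dv p n) (x : Pt n) :
    Nat.card {y : Pt n // Nb p x y} = qP p + 1 := by
  obtain ⟨g, hg⟩ := to_std hn x
  rw [← (ld2_sact p x g).1, hg]
  obtain ⟨S, hS, hc⟩ := ld2_rep p (x.L.det)⁻¹
  have h := tp_S hn hp x.L.det hS (fun _ => (1 : ℂ))
  rw [ld2_tp hn, Finset.sum_const, hc, nsmul_eq_mul, mul_one, add_comm] at h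
  exact_mod_cast h

theorem nb_card {n : Id K} (hn : IsInt n) {p : Pr K} (hp : ¬ Dv p n) (x : Pt n) :
    Nat.card {y : Pt n // Nb p x y} = qP p + 1 ∧ Nat.card {y : Pt n // Nb p y x} = qP p + 1 := by
  refine ⟨ld2_up hn hp x, ?_⟩
  obtain ⟨x', hx', _⟩ := sc_exists hn (cp_pI hp) x
  rw [← ld2_up hn hp x']
  exact Nat.card_congr (Equiv.subtypeEquivRight fun y => nb_dual hn hp hx' y)

theorem nb_card_dv {n : Id K} (hn : IsInt n) {p : Pr K} (hp : Dv p n) (x : Pt n) :
    Nat.card {y : Pt n // Nb p x y} = qP p ∧ Nat.card {y : Pt n // Nb p y x} = qP p := by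
  obtain ⟨g, hg⟩ := to_std hn x
  constructor
  · rw [← (ld2_sact p x g).1, hg]
    obtain ⟨S, hS, hc⟩ := ld2_rep p (x.L.det)⁻¹
    have h := tp_S_dv hn hp x.L.det hS (fun _ => (1 : ℂ))
    rw [ld2_tp hn, Finset.sum_const, hc, nsmul_eq_mul, mul_one] at h
    exact_mod_cast h
  · rw [← (ld2_sact p x g).2, hg, ← (ld2_mul p (sS n x.L.det) (wm K : GL (Fin 2) K)).2]
    have hw : (sS n x.L.det).mul (wm K : GL (Fin 2) K) = sZ n x.L.det := ptS_wm _
    rw [hw]
    obtain ⟨S, hS, hc⟩ := ld2_rep p (n * x.L.det)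
    have h := ts_Z hn hp x.L.det hS (fun _ => (1 : ℂ))
    rw [ld2_ts hn, Finset.sum_const, hc, nsmul_eq_mul, mul_one] at h
    exact_mod_cast h

end Pool.Agent.HSG.LV
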