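import Pool.Agent.Lib_helper84.LV.Defs
import Pool.Agent.Lib_helper45.HSF.P0
import Pool.Agent.Lib_helper45.HSF.P1
import Pool.Agent.Lib_helper45.HSF.H1C
import Pool.Agent.Lib_helper45.HSF.KI
import Pool.Agent.Lib_helper84.LVF.LD1
import Pool.Agent.Lib_helper84.LVF.LD2

/-! # LV, block LO: the Dirichlet series and its Euler product -/

namespace Pool.Agent.HSG.LV

open Complex NumberField IsDedekindDomain
open scoped nonZeroDivisors MatrixGroups

variable {K : Type} [Field K] [NumberField K]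

theorem lo_hk_zero (l : ℂ) : ∀ j : ℕ, hk l 0 j = l ^ j
  | 0 => by simp [hk]
  | 1 => by simp [hk]
  | (j + 2) => by
    have h1 := lo_hk_zero l (j + 1)
    have : hk l 0 (j + 2) = l * hk l 0 (j + 1) - 0 * hk l 0 j := rfl
    rw [this, h1]
    ring

theorem lo_hk_scale {l w η : ℂ} {x : ℝ} (hη : η ^ 2 = w) (hl : l = η * x) :
    ∀ j : ℕ, hk l w j = η ^ j * (SEL.Uc x j : ℂ)
  | 0 => by simp [hk, SEL.Uc]
  | 1 => by simp [hk, SEL.Uc, hl]
  | (j + 2) => by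
    have h1 := lo_hk_scale hη hl (j + 1)
    have h0 := lo_hk_scale hη hl j
    have h2 : hk l w (j + 2) = l * hk l w (j + 1) - w * hk l w j := rfl
    have h3 : SEL.Uc x (j + 2) = x * SEL.Uc x (j + 1) - SEL.Uc x j := rfl
    rw [h2, h1, h0, h3, hl, ← hη]
    push_cast
    ring

theorem lo_loc {l w : ℂ} {c : ℝ} (hc1 : 1 ≤ c)
    (h : (‖w‖ = 1 ∧ l = w * starRingEnd ℂ l ∧ ‖l‖ ≤ c + 1 / c) ∨ (w = 0 ∧ ‖l‖ ≤ c)) (j : ℕ) :
    ‖hk l w j‖ ≤ (j + 1) * c ^ j := by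
  rcases h with ⟨hw, hl, hb⟩ | ⟨rfl, hb⟩
  · obtain ⟨η, hη⟩ := IsAlgClosed.exists_pow_nat_eq w (n := 2) (by norm_num)
    have hη1 : ‖η‖ = 1 := by
      have h1 : ‖η‖ ^ 2 = 1 := by rw [← norm_pow, hη, hw]
      have h2 := norm_nonneg η
      nlinarith
    have hη0 : η ≠ 0 := by
      intro h0
      rw [h0, norm_zero] at hη1
      exact zero_ne_one hη1
    have hinv : η⁻¹ = starRingEnd ℂ η := Complex.inv_eq_conj hη1
    have hx : starRingEnd ℂ (l * η⁻¹) = l * η⁻¹ := by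
      have h1 : l * η⁻¹ = η * starRingEnd ℂ l := by
        calc l * η⁻¹ = (w * starRingEnd ℂ l) * η⁻¹ := by rw [← hl]
          _ = η * starRingEnd ℂ l := by
            rw [← hη]
            field_simp
      rw [map_mul, hinv, Complex.conj_conj, mul_comm, ← h1, hinv]
    obtain ⟨x, hx'⟩ := Complex.conj_eq_iff_real.mp hx
    have hlx : l = η * x := by
      rw [← hx']
      field_simp
    have hxn : |x| ≤ c + 1 / c := by
      have h1 : ‖l‖ = |x| := by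
        rw [hlx, norm_mul, hη1, one_mul, Complex.norm_real, Real.norm_eq_abs]
      rw [← h1]
      exact hb
    rw [lo_hk_scale hη hlx j, norm_mul, norm_pow, hη1, one_pow, one_mul, Complex.norm_real,
      Real.norm_eq_abs]
    refine (SEL.Uc_le_pr x j).trans ?_
    exact mul_le_mul_of_nonneg_left (pow_le_pow_left₀ (norm_nonneg _) (HS.h1c_rt hc1 hxn) j)
      (by positivity)
  · rw [lo_hk_zero, norm_pow]
    have h1 : ‖l‖ ^ j ≤ c ^ j := pow_le_pow_left₀ (norm_nonneg _) hb j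
    have h2 : (0 : ℝ) ≤ c ^ j := by positivity
    have h3 : (0 : ℝ) ≤ j := Nat.cast_nonneg j
    nlinarith

theorem lo_q (p : Pr K) : (HS.PK K).q p = qP p := rfl

theorem lo_nI (m : Pr K →₀ ℕ) : nI (HS.idl m) = (((HS.PK K).nrm m : ℕ) : ℝ) := HS.idl_nrm m

/-- absolute convergence -/
theorem hl_sum (n : Id K) (w lam : Pr K → ℂ) (hw : ∀ p, ¬ Dv p n → ‖w p‖ = 1)
    (hw0 : ∀ p, Dv p n → w p = 0)
    (hc : ∀ p, ¬ Dv p n → lam p = w p * starRingEnd ℂ (lam p))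
    (hb : ∀ p, ‖lam p‖ ≤ √(qP p : ℝ) + 1 / √(qP p : ℝ))
    (hb' : ∀ p, Dv p n → ‖lam p‖ ≤ √(qP p : ℝ)) {σ : ℝ} (hσ : 3 / 2 < σ) :
    Summable (fun m : Pr K →₀ ℕ => ‖hl w lam m‖ * nI (HS.idl m) ^ (-σ)) := by
  classical
  set S := HS.PK K with hS
  have hq2 : ∀ p : Pr K, (2 : ℝ) ≤ (qP p : ℝ) := fun p => by exact_mod_cast HS.q_two S p
  have hloc : ∀ (p : Pr K) (j : ℕ), ‖hk (lam p) (w p) j‖ ≤ (j + 1) * √(qP p : ℝ) ^ j := by
    intro p j
    apply lo_loc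
    · exact HS.h1c_sqrt S p
    · by_cases hp : Dv p n
      · exact Or.inr ⟨hw0 p hp, hb' p hp⟩
      · exact Or.inl ⟨hw p hp, hc p hp, hb p⟩
  set f : Pr K → ℕ → ℂ := fun p j => hk (lam p) (w p) j * (((((qP p : ℝ) ^ (-σ)) ^ j : ℝ)) : ℂ)
    with hf
  have hf0 : ∀ p, f p 0 = 1 := by
    intro p
    simp [hf, hk]
  have hfle : ∀ (p : Pr K) (j : ℕ), ‖f p j‖ ≤ (j + 1) * ((qP p : ℝ) ^ (1 / 2 - σ)) ^ j := by
    intro p j
    have h1 : (qP p : ℝ) ^ (1 / 2 - σ) = √(qP p : ℝ) * (qP p : ℝ) ^ (-σ) := by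
      rw [Real.sqrt_eq_rpow, ← Real.rpow_add (by linarith [hq2 p])]
      congr 1
    have h2 : (0 : ℝ) ≤ ((qP p : ℝ) ^ (-σ)) ^ j := by positivity
    simp only [hf]
    rw [norm_mul, Complex.norm_real, Real.norm_eq_abs, abs_of_nonneg h2, h1, mul_pow, ← mul_assoc]
    exact mul_le_mul_of_nonneg_right (hloc p j) h2
  have hhalf : ∀ p : Pr K, (qP p : ℝ) ^ (1 / 2 - σ) ≤ 1 / 2 := by
    intro p
    have h : (qP p : ℝ) ^ (1 / 2 - (σ : ℂ).re) ≤ 1 / 2 :=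
      HS.h1c_half S p (s := (σ : ℂ)) (by simpa using hσ)
    rwa [Complex.ofReal_re] at h
  have hfs : Summable (fun x : Pr K × ℕ => ‖f x.1 (x.2 + 1)‖) := by
    have h1 : Summable (fun p : Pr K => (qP p : ℝ) ^ (1 / 2 - σ)) := by
      refine (HS.sum_q S (s := σ - 1 / 2) (by linarith)).congr fun p => ?_
      rw [show -(σ - 1 / 2) = 1 / 2 - σ by ring]
      rfl
    have h2 : Summable (fun x : Pr K × ℕ => (qP x.1 : ℝ) ^ (1 / 2 - σ) *
        (((x.2 : ℝ) + 2) * (1 / 2) ^ x.2)) :=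
      Summable.mul_of_nonneg h1 HS.h1c_sumi (fun p => by positivity) (fun i => by positivity)
    refine Summable.of_nonneg_of_le (fun _ => norm_nonneg _) (fun x => ?_) h2
    refine (hfle x.1 (x.2 + 1)).trans ?_
    have h3 := hhalf x.1
    have h4 : (0 : ℝ) ≤ (qP x.1 : ℝ) ^ (1 / 2 - σ) := by positivity
    have h5 : ((qP x.1 : ℝ) ^ (1 / 2 - σ)) ^ x.2 ≤ (1 / 2) ^ x.2 := pow_le_pow_left₀ h4 h3 _
    rw [pow_succ]
    push_cast
    calc ((x.2 : ℝ) + 1 + 1) * (((qP x.1 : ℝ) ^ (1 / 2 - σ)) ^ x.2 *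
          (qP x.1 : ℝ) ^ (1 / 2 - σ))
        ≤ ((x.2 : ℝ) + 1 + 1) * ((1 / 2) ^ x.2 * (qP x.1 : ℝ) ^ (1 / 2 - σ)) := by gcongr
      _ = (qP x.1 : ℝ) ^ (1 / 2 - σ) * (((x.2 : ℝ) + 2) * (1 / 2) ^ x.2) := by ring
  refine (HS.euler_inf f hf0 hfs).1.congr fun m => ?_
  have h3 : m.prod f = hl w lam m * (((nI (HS.idl m)) ^ (-σ) : ℝ) : ℂ) := by
    rw [lo_nI, HS.h1c_psi, hl, Finsupp.prod, Finsupp.prod, Finsupp.prod, Complex.ofReal_prod,
      ← Finset.prod_mul_distrib]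
    rfl
  rw [h3, norm_mul, Complex.norm_real, Real.norm_eq_abs,
    abs_of_nonneg (by rw [lo_nI]; positivity)]

theorem lo_gen {l w X : ℂ} (h : Summable (fun i : ℕ => hk l w i * X ^ i)) :
    (∑' i : ℕ, hk l w i * X ^ i) * (1 - l * X + w * X ^ 2) = 1 := by
  set T := ∑' i : ℕ, hk l w i * X ^ i with hT
  have h1 : Summable (fun i : ℕ => hk l w (i + 1) * X ^ (i + 1)) :=
    (summable_nat_add_iff (f := fun i : ℕ => hk l w i * X ^ i) 1).2 h
  have e1 : T = 1 + ∑' i : ℕ, hk l w (i + 1) * X ^ (i + 1) := by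
    rw [hT, h.tsum_eq_zero_add]
    simp [hk]
  have e2 : ∑' i : ℕ, hk l w (i + 1) * X ^ (i + 1) =
      l * X + ∑' i : ℕ, hk l w (i + 2) * X ^ (i + 2) := by
    rw [h1.tsum_eq_zero_add]
    simp [hk]
  have e3 : ∑' i : ℕ, hk l w (i + 2) * X ^ (i + 2) =
      l * X * ∑' i : ℕ, hk l w (i + 1) * X ^ (i + 1) - w * X ^ 2 * T := by
    rw [← tsum_mul_left, hT, ← tsum_mul_left, ← (h1.mul_left _).tsum_sub (h.mul_left _)]
    refine tsum_congr fun i => ?_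
    have : hk l w (i + 2) = l * hk l w (i + 1) - w * hk l w i := rfl
    rw [this]
    ring
  have e4 : ∑' i : ℕ, hk l w (i + 1) * X ^ (i + 1) = T - 1 := by rw [e1]; ring
  rw [e4] at e2 e3
  rw [e3] at e2
  linear_combination e2

/-- the Euler product, with a twist by a completely multiplicative unitary function -/
theorem hl_prod (w lam : Pr K → ℂ) (ψ : Id K →* ℂˣ)
    (hψ : ∀ p, ‖((ψ (pI p) : ℂˣ) : ℂ)‖ = 1) {s : ℂ}
    (hs : Summable (fun m : Pr K →₀ ℕ => ‖hl w lam m‖ * nI (HS.idl m) ^ (-s.re))) :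
    HasProd (fun p : Pr K => (1 - lam p * (ψ (pI p) : ℂˣ) * (qP p : ℂ) ^ (-s) +
        w p * ((ψ (pI p) : ℂˣ) : ℂ) ^ 2 * (qP p : ℂ) ^ (-2 * s))⁻¹)
      (∑' m : Pr K →₀ ℕ, hl w lam m * (ψ (HS.idl m) : ℂˣ) * (nI (HS.idl m) : ℂ) ^ (-s)) := by
  classical
  set S := HS.PK K with hS
  set X : Pr K → ℂ := fun p => ((ψ (pI p) : ℂˣ) : ℂ) * (qP p : ℂ) ^ (-s) with hX
  set f : Pr K → ℕ → ℂ := fun p j => hk (lam p) (w p) j * X p ^ j with hf
  have hf0 : ∀ p, f p 0 = 1 := by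
    intro p
    simp [hf, hk]
  have hXn : ∀ p, ‖X p‖ = (qP p : ℝ) ^ (-s.re) := by
    intro p
    simp only [hX]
    rw [norm_mul, hψ, one_mul]
    exact HS.h1c_norm S p s
  have hfs : Summable (fun x : Pr K × ℕ => ‖f x.1 (x.2 + 1)‖) := by
    have hinj : Function.Injective
        (fun x : Pr K × ℕ => (Finsupp.single x.1 (x.2 + 1) : Pr K →₀ ℕ)) := by
      rintro ⟨p, i⟩ ⟨q, j⟩ h
      have h' : (Finsupp.single p (i + 1) : Pr K →₀ ℕ) = Finsupp.single q (j + 1) := h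
      rcases (Finsupp.single_eq_single_iff _ _ _ _).1 h' with ⟨h1, h2⟩ | ⟨h1, -⟩
      · rw [h1, Nat.add_right_cancel h2]
      · omega
    refine (hs.comp_injective hinj).congr ?_
    rintro ⟨p, i⟩
    simp only [Function.comp, hf]
    have h1 : hl w lam (Finsupp.single p (i + 1)) = hk (lam p) (w p) (i + 1) := by
      unfold hl
      exact Finsupp.prod_single_index (by simp [hk])
    have h2 : nI (HS.idl (Finsupp.single p (i + 1))) ^ (-s.re) =
        ((qP p : ℝ) ^ (-s.re)) ^ (i + 1) := by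
      rw [lo_nI, HS.h1c_psi, Finsupp.prod_single_index (by simp)]
      rfl
    rw [h1, h2, norm_mul, norm_pow, hXn]
  have h := (HS.euler_inf f hf0 hfs).2
  have e1 : (fun m : Pr K →₀ ℕ => m.prod f) = fun m : Pr K →₀ ℕ =>
      hl w lam m * (ψ (HS.idl m) : ℂˣ) * (nI (HS.idl m) : ℂ) ^ (-s) := by
    funext m
    have h2 : (nI (HS.idl m) : ℂ) ^ (-s) = m.prod fun p i => ((qP p : ℂ) ^ (-s)) ^ i := by
      rw [lo_nI, Complex.ofReal_natCast]
      exact HS.h1c_cpow S m s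
    have h3 : ((ψ (HS.idl m) : ℂˣ) : ℂ) = m.prod fun p i => ((ψ (pI p) : ℂˣ) : ℂ) ^ i := by
      rw [HS.idl, Finsupp.prod, Finsupp.prod, map_prod, Units.coe_prod]
      refine Finset.prod_congr rfl fun p _ => ?_
      rw [map_pow, Units.val_pow_eq_pow_val]
    rw [h2, h3, hl, Finsupp.prod, Finsupp.prod, Finsupp.prod, Finsupp.prod,
      ← Finset.prod_mul_distrib, ← Finset.prod_mul_distrib]
    refine Finset.prod_congr rfl fun p _ => ?_
    simp only [hf, hX]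
    rw [mul_pow, mul_assoc]
  have e2 : (fun p : Pr K => ∑' i : ℕ, f p i) = fun p : Pr K =>
      (1 - lam p * (ψ (pI p) : ℂˣ) * (qP p : ℂ) ^ (-s) +
        w p * ((ψ (pI p) : ℂˣ) : ℂ) ^ 2 * (qP p : ℂ) ^ (-2 * s))⁻¹ := by
    funext p
    have h1 : Summable (fun i : ℕ => ‖f p (i + 1)‖) :=
      hfs.comp_injective (i := fun i : ℕ => (p, i)) fun a b h => by simpa using h
    have h2 : Summable (fun i : ℕ => f p i) :=
      (summable_nat_add_iff (f := fun i : ℕ => f p i) 1).1 h1.of_norm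
    have h3 := lo_gen (l := lam p) (w := w p) (X := X p) h2
    have h4 : (qP p : ℂ) ^ (-2 * s) = ((qP p : ℂ) ^ (-s)) ^ 2 := by
      rw [← Complex.cpow_nat_mul]
      congr 1
      push_cast
      ring
    rw [h4]
    apply eq_inv_of_mul_eq_one_left
    refine Eq.trans ?_ h3
    refine congrArg₂ (· * ·) rfl ?_
    simp only [hX]
    ring
  rw [e1, e2] at h
  exact h

/-- the eigenvalues of a bounded function are bounded trivially (cites LD) -/
theorem lam_triv {n : Id K} (hn : IsInt n) {f : Pt n → ℂ} {C : ℝ} (hC : ∀ x, ‖f x‖ ≤ C)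
    (h0 : ∃ x, f x ≠ 0) {p : Pr K} {l : ℂ}
    (h : ∀ x, Tp p f x = ((√(qP p : ℝ) : ℝ) : ℂ) * l * f x) :
    ‖l‖ ≤ √(qP p : ℝ) + 1 / √(qP p : ℝ) ∧ (Dv p n → ‖l‖ ≤ √(qP p : ℝ)) := by
  classical
  have hq2 : (2 : ℝ) ≤ (qP p : ℝ) := by exact_mod_cast HS.q_two (HS.PK K) p
  have hq0 : (0 : ℝ) < √(qP p : ℝ) := Real.sqrt_pos.mpr (by linarith)
  have hqq : √(qP p : ℝ) * √(qP p : ℝ) = qP p := Real.mul_self_sqrt (by linarith)
  obtain ⟨x0, hx0⟩ := h0
  have hbdd : BddAbove (Set.range fun x => ‖f x‖) := ⟨C, by rintro _ ⟨x, rfl⟩; exact hC x⟩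
  set M := ⨆ x, ‖f x‖ with hM
  have hMle : ∀ x, ‖f x‖ ≤ M := fun x => le_ciSup hbdd x
  have hMpos : 0 < M := lt_of_lt_of_le (norm_pos_iff.mpr hx0) (hMle x0)
  have key : ∀ N : ℕ, (∀ x : Pt n, Nat.card {y : Pt n // Nb p x y} = N) →
      √(qP p : ℝ) * ‖l‖ ≤ N := by
    intro N hN
    have h1 : ∀ x, √(qP p : ℝ) * ‖l‖ * ‖f x‖ ≤ N * M := by
      intro x
      have hfin := nb_fin hn p x
      have hft := Fintype.ofFinite {y : Pt n // Nb p x y}
      have h2 : ‖Tp p f x‖ ≤ N * M := by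
        unfold Tp
        rw [finsum_eq_sum_of_fintype]
        refine (norm_sum_le _ _).trans ?_
        refine (Finset.sum_le_card_nsmul _ _ M fun y _ => hMle y.1).trans ?_
        rw [nsmul_eq_mul, Finset.card_univ, ← Nat.card_eq_fintype_card, hN x]
      rw [h x, norm_mul, norm_mul, Complex.norm_real, Real.norm_eq_abs, abs_of_pos hq0] at h2
      exact h2
    by_contra hcon
    push Not at hcon
    have hpos : 0 < √(qP p : ℝ) * ‖l‖ := lt_of_le_of_lt (Nat.cast_nonneg N) hcon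
    have h3 : M ≤ N * M / (√(qP p : ℝ) * ‖l‖) := by
      have : Nonempty (Pt n) := ⟨x0⟩
      refine ciSup_le fun x => ?_
      rw [le_div_iff₀ hpos]
      linarith [h1 x]
    rw [le_div_iff₀ hpos] at h3
    nlinarith
  have hdv : Dv p n → ‖l‖ ≤ √(qP p : ℝ) := by
    intro hp
    have h1 := key (qP p) fun x => (nb_card_dv hn hp x).1
    exact le_of_mul_le_mul_left (h1.trans_eq hqq.symm) hq0
  refine ⟨?_, hdv⟩
  by_cases hp : Dv p n
  · have := hdv hp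
    have h2 : 0 ≤ 1 / √(qP p : ℝ) := by positivity
    linarith
  · have h1 := key (qP p + 1) fun x => (nb_card hn hp x).1
    have h2 : √(qP p : ℝ) * (√(qP p : ℝ) + 1 / √(qP p : ℝ)) = ((qP p + 1 : ℕ) : ℝ) := by
      push_cast
      rw [mul_add, hqq]
      field_simp
    rw [← h2] at h1
    exact le_of_mul_le_mul_left h1 hq0

end Pool.Agent.HSG.LV
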