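import Pool.Agent.Lib_helper84.LV.Defs
import Pool.Agent.Lib_helper84.HSGF.GA1
import Pool.Agent.Lib_helper84.HSGF.GA3
import Pool.Agent.Lib_helper84.HSGF.GD1

/-! # LV, block LK1 (GAI): automorphisms of the field and ideals (helper39) -/

namespace Pool.Agent.HSG.LV

open Complex NumberField IsDedekindDomain
open scoped nonZeroDivisors MatrixGroups

variable {K : Type} [Field K] [NumberField K]

/-- the submodule in the definition of `gI` -/
noncomputable def lk1_S (τ : K ≃+* K) (a : Id K) : Submodule (𝓞 K) K :=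
  { carrier := {x | τ.symm x ∈ a.m}
    add_mem' := fun {x y} hx hy => by
      show τ.symm (x + y) ∈ a.m
      rw [map_add]; exact a.m.add_mem hx hy
    zero_mem' := by
      show τ.symm 0 ∈ a.m
      rw [map_zero]; exact a.m.zero_mem
    smul_mem' := fun c x hx => by
      show τ.symm (c • x) ∈ a.m
      have h1 : τ.symm (c • x) = (oA τ.symm c) • τ.symm x := by
        rw [Algebra.smul_def, Algebra.smul_def, map_mul]
        rfl
      rw [h1]; exact a.m.smul_mem _ hx }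

theorem lk1_mem_S (τ : K ≃+* K) (a : Id K) (x : K) : x ∈ lk1_S τ a ↔ τ.symm x ∈ a.m := Iff.rfl

theorem lk1_oA (τ : K ≃+* K) (c : 𝓞 K) : ((oA τ c : 𝓞 K) : K) = τ (c : K) := rfl

theorem lk1_smul (τ : K ≃+* K) (c : 𝓞 K) (x : K) : τ (c • x) = (oA τ c) • τ x := by
  rw [Algebra.smul_def, Algebra.smul_def, map_mul]
  rfl

theorem lk1_fg (τ : K ≃+* K) (a : Id K) : (lk1_S τ a).FG := by
  classical
  obtain ⟨T, hT⟩ := FractionalIdeal.fg_unit a
  have hT' : Submodule.span (𝓞 K) (T : Set K) = a.m := hT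
  refine ⟨T.image τ, le_antisymm ?_ ?_⟩
  · rw [Submodule.span_le]
    intro x hx
    rw [Finset.mem_coe, Finset.mem_image] at hx
    obtain ⟨t, ht, rfl⟩ := hx
    show τ.symm (τ t) ∈ a.m
    rw [RingEquiv.symm_apply_apply, ← hT']
    exact Submodule.subset_span ht
  · intro x hx
    rw [lk1_mem_S, ← hT'] at hx
    have key : ∀ y ∈ Submodule.span (𝓞 K) (T : Set K),
        τ y ∈ Submodule.span (𝓞 K) ((T.image τ : Finset K) : Set K) := by
      intro y hy
      induction hy using Submodule.span_induction with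
      | mem t ht =>
        exact Submodule.subset_span (Finset.mem_coe.mpr (Finset.mem_image_of_mem _ ht))
      | zero => rw [map_zero]; exact Submodule.zero_mem _
      | add x y _ _ hx hy => rw [map_add]; exact Submodule.add_mem _ hx hy
      | smul c x _ hx => rw [lk1_smul]; exact Submodule.smul_mem _ _ hx
    have := key _ hx
    rwa [RingEquiv.apply_symm_apply] at this

theorem lk1_ne (τ : K ≃+* K) (a : Id K) : lk1_S τ a ≠ ⊥ := by
  obtain ⟨x, hx0, hx⟩ := a.exists_ne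
  intro h
  have h1 : τ x ∈ lk1_S τ a := by
    rw [lk1_mem_S, RingEquiv.symm_apply_apply]; exact hx
  rw [h, Submodule.mem_bot, map_eq_zero_iff _ (RingEquiv.injective τ)] at h1
  exact hx0 h1

theorem mem_gI (τ : K ≃+* K) (a : Id K) (x : K) : x ∈ (gI τ a).m ↔ τ.symm x ∈ a.m := by
  have h : (gI τ a).m = lk1_S τ a := toId_m (lk1_ne τ a) (lk1_fg τ a)
  rw [h]
  exact Iff.rfl

theorem lk1_mem' (τ : K ≃+* K) (a : Id K) (x : K) : τ x ∈ (gI τ a).m ↔ x ∈ a.m := by
  rw [mem_gI, RingEquiv.symm_apply_apply]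

theorem lk1_one (τ : K ≃+* K) : gI τ (1 : Id K) = 1 := by
  apply m_inj
  ext x
  rw [mem_gI, mem_m_one, mem_m_one]
  constructor
  · rintro ⟨y, hy⟩
    refine ⟨oA τ y, ?_⟩
    rw [lk1_oA, hy, RingEquiv.apply_symm_apply]
  · rintro ⟨y, rfl⟩
    exact ⟨oA τ.symm y, rfl⟩

theorem lk1_mul (τ : K ≃+* K) (a b : Id K) : gI τ (a * b) = gI τ a * gI τ b := by
  apply m_inj
  apply le_antisymm
  · intro x hx
    rw [mem_gI, m_mul] at hx
    have key : ∀ y ∈ a.m * b.m, τ y ∈ (gI τ a * gI τ b).m := by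
      intro y hy
      induction hy using Submodule.mul_induction_on' with
      | mem_mul_mem u hu v hv =>
        rw [map_mul]
        exact mem_mul_of ((lk1_mem' τ a u).2 hu) ((lk1_mem' τ b v).2 hv)
      | add u _ v _ hu hv => rw [map_add]; exact Submodule.add_mem _ hu hv
    have := key _ hx
    rwa [RingEquiv.apply_symm_apply] at this
  · rw [m_mul, Submodule.mul_le]
    intro u hu v hv
    rw [mem_gI] at hu hv ⊢
    rw [map_mul]
    exact mem_mul_of hu hv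

theorem lk1_inv (τ : K ≃+* K) (a : Id K) : gI τ a⁻¹ = (gI τ a)⁻¹ := by
  apply eq_inv_of_mul_eq_one_left
  rw [← lk1_mul, inv_mul_cancel, lk1_one]

theorem gI_mul (τ : K ≃+* K) (a b : Id K) : gI τ (a * b) = gI τ a * gI τ b ∧
    gI τ a⁻¹ = (gI τ a)⁻¹ ∧ gI τ 1 = 1 := ⟨lk1_mul τ a b, lk1_inv τ a, lk1_one τ⟩

theorem lk1_div (τ : K ≃+* K) (a b : Id K) : gI τ (a / b) = gI τ a / gI τ b := by
  rw [div_eq_mul_inv, lk1_mul, lk1_inv, ← div_eq_mul_inv]

theorem lk1_le (τ : K ≃+* K) (a b : Id K) : (gI τ a).m ≤ (gI τ b).m ↔ a.m ≤ b.m := by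
  constructor
  · intro h x hx
    have := h ((lk1_mem' τ a x).2 hx)
    exact (lk1_mem' τ b x).1 this
  · intro h x hx
    rw [mem_gI] at hx ⊢
    exact h hx

theorem gI_int (τ : K ≃+* K) (a : Id K) : IsInt (gI τ a) ↔ IsInt a := by
  rw [isInt_iff, isInt_iff, ← lk1_le τ a 1, lk1_one]

theorem gI_prI (τ : K ≃+* K) (x : Kˣ) :
    gI τ (prI x) = prI (Units.map (τ : K →* K) x) := by
  apply m_inj
  ext y
  rw [mem_gI, ← mul_one (prI x), mem_prI_mul, ← mul_one (prI (Units.map (τ : K →* K) x)),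
    mem_prI_mul]
  rw [← lk1_mem' τ 1, lk1_one, map_mul, RingEquiv.apply_symm_apply]
  have h : τ ((x⁻¹ : Kˣ) : K) = (((Units.map (τ : K →* K) x)⁻¹ : Kˣ) : K) := by
    rw [← map_inv, Units.coe_map]
    rfl
  rw [h]

theorem lk1_mem_pI (p : Pr K) (x : K) : x ∈ (pI p).m ↔ ∃ y ∈ p.asIdeal, (y : K) = x := by
  show x ∈ (p.asIdeal : FractionalIdeal (𝓞 K)⁰ K) ↔ _
  rw [FractionalIdeal.mem_coeIdeal]

theorem gI_pI (τ : K ≃+* K) (p : Pr K) : gI τ (pI p) = pI (gP τ p) := by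
  apply m_inj
  ext x
  rw [mem_gI, lk1_mem_pI, lk1_mem_pI]
  constructor
  · rintro ⟨y, hy, hyx⟩
    refine ⟨oA τ y, ?_, ?_⟩
    · show oA τ.symm (oA τ y) ∈ p.asIdeal
      have h1 : oA τ.symm (oA τ y) = y := by
        apply NumberField.RingOfIntegers.ext
        rw [lk1_oA, lk1_oA, RingEquiv.symm_apply_apply]
      rw [h1]; exact hy
    · rw [lk1_oA, hyx, RingEquiv.apply_symm_apply]
  · rintro ⟨y, hy, rfl⟩
    exact ⟨oA τ.symm y, hy, rfl⟩

theorem lk1_rel (τ : K ≃+* K) (a b : Id K) :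
    (gI τ a).m.toAddSubgroup.relIndex (gI τ b).m.toAddSubgroup =
      a.m.toAddSubgroup.relIndex b.m.toAddSubgroup := by
  have e : ∀ a : Id K, (gI τ a).m.toAddSubgroup =
      a.m.toAddSubgroup.map (τ : K →+* K).toAddMonoidHom := by
    intro a
    ext z
    rw [Submodule.mem_toAddSubgroup, mem_gI, AddSubgroup.mem_map]
    constructor
    · intro hz
      exact ⟨_, hz, RingEquiv.apply_symm_apply τ z⟩
    · rintro ⟨w, hw, rfl⟩
      show τ.symm (τ w) ∈ a.m
      rw [RingEquiv.symm_apply_apply]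
      exact hw
  rw [e, e, AddSubgroup.relIndex_map_map_of_injective _ _ (RingEquiv.injective τ)]

theorem lk1_nI_int (τ : K ≃+* K) {a : Id K} (ha : IsInt a) : nI (gI τ a) = nI a := by
  have h1 := ga3_rel ((isInt_iff a).1 ha)
  have h2 := ga3_rel ((isInt_iff (gI τ a)).1 ((gI_int τ a).2 ha))
  have h3 := lk1_rel τ a 1
  rw [lk1_one] at h3
  rw [h3, h1, nI_one, div_one, div_one] at h2
  exact h2.symm

theorem nI_gI (τ : K ≃+* K) (a : Id K) : nI (gI τ a) = nI a := by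
  obtain ⟨r, hr, h⟩ := (a : FractionalIdeal (𝓞 K)⁰ K).isFractional
  have ha0 : (r : K) ≠ 0 := by
    intro h0
    apply nonZeroDivisors.ne_zero hr
    exact NumberField.RingOfIntegers.ext h0
  set d : Kˣ := Units.mk0 (r : K) ha0 with hd
  have hdi : IsInt (prI d) := by
    rw [isInt_iff]
    intro y hy
    rw [← mul_one (prI d), mem_prI_mul, mem_m_one] at hy
    obtain ⟨z, hz⟩ := hy
    rw [mem_m_one]
    refine ⟨r * z, ?_⟩
    have h1 : ((r * z : 𝓞 K) : K) = (r : K) * (z : K) := rfl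
    rw [h1, hz, hd, Units.val_inv_eq_inv_val, Units.val_mk0, ← mul_assoc, mul_inv_cancel₀ ha0,
      one_mul]
  have hdai : IsInt (prI d * a) := by
    rw [isInt_iff]
    intro y hy
    rw [mem_prI_mul] at hy
    obtain ⟨z, hz⟩ := h _ hy
    rw [mem_m_one]
    refine ⟨z, ?_⟩
    have h1 : (z : K) = (r : K) * (((d⁻¹ : Kˣ) : K) * y) := by
      rw [show (z : K) = algebraMap (𝓞 K) K z from rfl, hz]
      rfl
    rw [h1, hd, Units.val_inv_eq_inv_val, Units.val_mk0, ← mul_assoc, mul_inv_cancel₀ ha0,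
      one_mul]
  have h3 := lk1_nI_int τ hdai
  rw [lk1_mul, nI_mul, nI_mul, lk1_nI_int τ hdi] at h3
  exact mul_left_cancel₀ (nI_pos (prI d)).ne' h3

theorem lk1_dual (ν : K) : ν ∈ ((DD K)⁻¹).m ↔
    ∀ y ∈ (1 : Id K).m, ∃ k : ℤ, Algebra.trace ℚ K (ν * y) = k := by
  have h1 : (((DD K)⁻¹ : Id K) : FractionalIdeal (𝓞 K)⁰ K) =
      FractionalIdeal.dual ℤ ℚ (1 : FractionalIdeal (𝓞 K)⁰ K) := by
    rw [Units.val_inv_eq_inv_val, gd1_DD_val, inv_inv]
  have h2 : ν ∈ ((DD K)⁻¹).m ↔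
      ν ∈ FractionalIdeal.dual ℤ ℚ (1 : FractionalIdeal (𝓞 K)⁰ K) := by
    rw [← h1]
    rfl
  rw [h2, FractionalIdeal.mem_dual (show (1 : FractionalIdeal (𝓞 K)⁰ K) ≠ 0 from
    (1 : Id K).ne_zero)]
  refine forall_congr' fun y => imp_congr Iff.rfl ?_
  rw [Algebra.traceForm_apply, RingHom.mem_range]
  refine exists_congr fun n => ?_
  constructor
  · intro h
    rw [← h]
    rfl
  · intro h
    rw [h]
    rfl

theorem lk1_trace (τ : K ≃+* K) (x : K) : Algebra.trace ℚ K (τ x) = Algebra.trace ℚ K x :=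
  Algebra.trace_eq_of_algEquiv τ.toRatAlgEquiv x

theorem gI_DD (τ : K ≃+* K) : gI τ (DD K) = DD K := by
  have h : gI τ (DD K)⁻¹ = (DD K)⁻¹ := by
    apply m_inj
    ext x
    rw [mem_gI, lk1_dual, lk1_dual]
    constructor
    · intro h y hy
      have hy' : τ.symm y ∈ (1 : Id K).m := by
        rw [← lk1_one τ, mem_gI] at hy
        exact hy
      obtain ⟨k, hk⟩ := h _ hy'
      refine ⟨k, ?_⟩
      rw [← hk, ← map_mul, ← lk1_trace τ (τ.symm (x * y)), RingEquiv.apply_symm_apply]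
    · intro h y hy
      have hy' : τ y ∈ (1 : Id K).m := by
        rw [← lk1_one τ, mem_gI, RingEquiv.symm_apply_apply]
        exact hy
      obtain ⟨k, hk⟩ := h _ hy'
      refine ⟨k, ?_⟩
      rw [← hk, ← lk1_trace τ (τ.symm x * y), map_mul, RingEquiv.apply_symm_apply]
  rw [lk1_inv, inv_inj] at h
  exact h

theorem lk1_gP (τ : K ≃+* K) (p : Pr K) : gP τ (gP τ.symm p) = p := by
  apply HeightOneSpectrum.ext
  ext x
  show oA τ.symm.symm (oA τ.symm x) ∈ p.asIdeal ↔ x ∈ p.asIdeal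
  have h1 : oA τ.symm.symm (oA τ.symm x) = x := by
    apply NumberField.RingOfIntegers.ext
    rw [lk1_oA, lk1_oA, RingEquiv.symm_apply_apply]
  rw [h1]

theorem lk1_dv (τ : K ≃+* K) (p : Pr K) (n : Id K) : Dv (gP τ p) (gI τ n) ↔ Dv p n := by
  unfold Dv
  rw [← gI_pI, ← lk1_div, gI_int]

theorem cp_gI (τ : K ≃+* K) (n c : Id K) : Cp (gI τ n) (gI τ c) ↔ Cp n c := by
  unfold Cp
  rw [gI_int]
  refine and_congr Iff.rfl ?_
  constructor
  · intro h p hp hn
    exact h (gP τ p) ((lk1_dv τ p c).2 hp) ((lk1_dv τ p n).2 hn)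
  · intro h p hp hn
    rw [← lk1_gP τ p] at hp hn
    exact h _ ((lk1_dv τ _ c).1 hp) ((lk1_dv τ _ n).1 hn)

end Pool.Agent.HSG.LV
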