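import Pool.Agent.Lib_helper84.LV.Defs
import Pool.Agent.Lib_helper84.LVF.LK1

/-! # Lattices with a level structure, block LK2 (GAL): automorphisms of the field -/

set_option autoImplicit false

namespace Pool.Agent.HSG.LV

open NumberField IsDedekindDomain
open scoped nonZeroDivisors MatrixGroups Pointwise

variable {K : Type} [Field K] [NumberField K]

/-- the image of a vector under `τ⁻¹` -/
def lk2_v (τ : K ≃+* K) (v : Fin 2 → K) : Fin 2 → K := fun i => τ.symm (v i)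

omit [NumberField K] in
theorem lk2_v_symm (τ : K ≃+* K) (v : Fin 2 → K) : lk2_v τ (lk2_v τ.symm v) = v := by
  funext i
  simp [lk2_v]

omit [NumberField K] in
theorem lk2_v_symm' (τ : K ≃+* K) (v : Fin 2 → K) : lk2_v τ.symm (lk2_v τ v) = v := by
  funext i
  simp [lk2_v]

omit [NumberField K] in
theorem lk2_v_add (τ : K ≃+* K) (u v : Fin 2 → K) : lk2_v τ (u + v) = lk2_v τ u + lk2_v τ v := by
  funext i
  simp [lk2_v]

omit [NumberField K] in
theorem lk2_v_sub (τ : K ≃+* K) (u v : Fin 2 → K) : lk2_v τ (u - v) = lk2_v τ u - lk2_v τ v := by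
  funext i
  simp [lk2_v]

omit [NumberField K] in
theorem lk2_v_smul (τ : K ≃+* K) (c : K) (v : Fin 2 → K) :
    lk2_v τ (c • v) = τ.symm c • lk2_v τ v := by
  funext i
  simp [lk2_v]

omit [NumberField K] in
theorem lk2_v_osmul (τ : K ≃+* K) (c : 𝓞 K) (v : Fin 2 → K) :
    lk2_v τ (c • v) = (oA τ.symm c) • lk2_v τ v := by
  funext i
  show τ.symm (c • v i) = (oA τ.symm c) • τ.symm (v i)
  rw [Algebra.smul_def, Algebra.smul_def, map_mul]
  rfl

omit [NumberField K] in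
theorem lk2_oA (τ : K ≃+* K) (c : 𝓞 K) : oA τ.symm (oA τ c) = c := by
  apply RingOfIntegers.ext
  show τ.symm (τ (c : K)) = c
  simp

/-- the submodule `{v : τ⁻¹ v ∈ M}` -/
def lk2_M (τ : K ≃+* K) (M : Submodule (𝓞 K) (Fin 2 → K)) : Submodule (𝓞 K) (Fin 2 → K) where
  carrier := {v | lk2_v τ v ∈ M}
  add_mem' := fun {x y} hx hy => by
    show lk2_v τ (x + y) ∈ M
    rw [lk2_v_add]; exact M.add_mem hx hy
  zero_mem' := by
    show lk2_v τ 0 ∈ M
    have : lk2_v τ (0 : Fin 2 → K) = 0 := by funext i; simp [lk2_v]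
    rw [this]; exact M.zero_mem
  smul_mem' := fun c x hx => by
    show lk2_v τ (c • x) ∈ M
    rw [lk2_v_osmul]; exact M.smul_mem _ hx

omit [NumberField K] in
theorem lk2_mem_M (τ : K ≃+* K) (M : Submodule (𝓞 K) (Fin 2 → K)) (v : Fin 2 → K) :
    v ∈ lk2_M τ M ↔ lk2_v τ v ∈ M := Iff.rfl

omit [NumberField K] in
theorem lk2_fg (τ : K ≃+* K) {M : Submodule (𝓞 K) (Fin 2 → K)} (h : M.FG) : (lk2_M τ M).FG := by
  classical
  obtain ⟨S, hS⟩ := h
  refine ⟨S.image (lk2_v τ.symm), le_antisymm ?_ ?_⟩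
  · rw [Submodule.span_le]
    intro v hv
    rw [Finset.coe_image] at hv
    obtain ⟨s, hs, rfl⟩ := hv
    show lk2_v τ (lk2_v τ.symm s) ∈ M
    rw [lk2_v_symm, ← hS]
    exact Submodule.subset_span hs
  · intro v hv
    have hv' : lk2_v τ v ∈ M := hv
    rw [← hS] at hv'
    have key : ∀ w ∈ Submodule.span (𝓞 K) (S : Set (Fin 2 → K)),
        lk2_v τ.symm w ∈ Submodule.span (𝓞 K) ((S.image (lk2_v τ.symm) : Finset _) :
          Set (Fin 2 → K)) := by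
      intro w hw
      induction hw using Submodule.span_induction with
      | mem x hx =>
        apply Submodule.subset_span
        rw [Finset.coe_image]
        exact ⟨x, hx, rfl⟩
      | zero =>
        have : lk2_v τ.symm (0 : Fin 2 → K) = 0 := by funext i; simp [lk2_v]
        rw [this]; exact Submodule.zero_mem _
      | add x y _ _ hx hy => rw [lk2_v_add]; exact Submodule.add_mem _ hx hy
      | smul c x _ hx => rw [lk2_v_osmul]; exact Submodule.smul_mem _ _ hx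
    have := key _ hv'
    rwa [lk2_v_symm'] at this

omit [NumberField K] in
theorem lk2_top (τ : K ≃+* K) {M : Submodule (𝓞 K) (Fin 2 → K)}
    (h : Submodule.span K (M : Set (Fin 2 → K)) = ⊤) :
    Submodule.span K (lk2_M τ M : Set (Fin 2 → K)) = ⊤ := by
  rw [eq_top_iff]
  intro v _
  have hv : lk2_v τ v ∈ Submodule.span K (M : Set (Fin 2 → K)) := by
    rw [h]; exact Submodule.mem_top
  have key : ∀ w ∈ Submodule.span K (M : Set (Fin 2 → K)),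
      lk2_v τ.symm w ∈ Submodule.span K (lk2_M τ M : Set (Fin 2 → K)) := by
    intro w hw
    induction hw using Submodule.span_induction with
    | mem x hx =>
      apply Submodule.subset_span
      show lk2_v τ (lk2_v τ.symm x) ∈ M
      rw [lk2_v_symm]
      exact hx
    | zero =>
      have : lk2_v τ.symm (0 : Fin 2 → K) = 0 := by funext i; simp [lk2_v]
      rw [this]; exact Submodule.zero_mem _
    | add x y _ _ hx hy => rw [lk2_v_add]; exact Submodule.add_mem _ hx hy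
    | smul c x _ hx => rw [lk2_v_smul]; exact Submodule.smul_mem _ _ hx
  have := key _ hv
  rwa [lk2_v_symm'] at this

/-- the image of a lattice -/
def lk2_L (τ : K ≃+* K) (L : Lat K) : Lat K where
  M := lk2_M τ L.M
  fg := lk2_fg τ L.fg
  top := lk2_top τ L.top

omit [NumberField K] in
theorem lk2_mem (τ : K ≃+* K) (L : Lat K) (v : Fin 2 → K) :
    v ∈ (lk2_L τ L).M ↔ lk2_v τ v ∈ L.M := Iff.rfl

omit [NumberField K] in
theorem lk2_L_inj (τ : K ≃+* K) {L L' : Lat K} (h : lk2_L τ L = lk2_L τ L') : L = L' := by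
  ext v
  have h1 : lk2_v τ.symm v ∈ (lk2_L τ L).M ↔ lk2_v τ.symm v ∈ (lk2_L τ L').M := by rw [h]
  rwa [lk2_mem, lk2_mem, lk2_v_symm] at h1

theorem lk2_sm_le (τ : K ≃+* K) (a : Id K) (L : Lat K) {v : Fin 2 → K}
    (hv : v ∈ ((lk2_L τ L).sm (gI τ a)).M) : lk2_v τ v ∈ (L.sm a).M := by
  have h1 : ((lk2_L τ L).sm (gI τ a)).M ≤ lk2_M τ (L.sm a).M := by
    show (gI τ a).m • (lk2_L τ L).M ≤ _
    rw [Submodule.smul_le]
    intro r hr w hw
    show lk2_v τ (r • w) ∈ a.m • L.M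
    rw [lk2_v_smul]
    exact Submodule.smul_mem_smul ((mem_gI τ a r).1 hr) hw
  exact h1 hv

theorem lk2_gI_symm (τ : K ≃+* K) (a : Id K) : gI τ.symm (gI τ a) = a := by
  apply m_inj
  ext x
  rw [mem_gI, mem_gI]
  simp

theorem lk2_gI_symm' (τ : K ≃+* K) (a : Id K) : gI τ (gI τ.symm a) = a := by
  apply m_inj
  ext x
  rw [mem_gI, mem_gI]
  simp

theorem lk2_sm (τ : K ≃+* K) (a : Id K) (L : Lat K) :
    (lk2_L τ L).sm (gI τ a) = lk2_L τ (L.sm a) := by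
  ext v
  constructor
  · intro hv
    exact lk2_sm_le τ a L hv
  · intro hv
    have hv' : lk2_v τ v ∈ (L.sm a).M := hv
    have hL : lk2_L τ.symm (lk2_L τ L) = L := by
      ext w
      show lk2_v τ (lk2_v τ.symm w) ∈ L.M ↔ _
      rw [lk2_v_symm]
    have ha : gI τ.symm (gI τ a) = a := lk2_gI_symm τ a
    rw [← hL] at hv'
    have h2 : lk2_v τ v ∈ ((lk2_L τ.symm (lk2_L τ L)).sm (gI τ.symm (gI τ a))).M := by
      rw [ha]; exact hv'
    have h3 := lk2_sm_le τ.symm (gI τ a) (lk2_L τ L) h2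
    rwa [lk2_v_symm'] at h3

theorem lk2_gI_div (τ : K ≃+* K) (a b : Id K) : gI τ (a / b) = gI τ a / gI τ b := by
  rw [div_eq_mul_inv, (gI_mul τ a b⁻¹).1, (gI_mul τ b b).2.1, div_eq_mul_inv]

omit [NumberField K] in
theorem lk2_oA' (τ : K ≃+* K) (c : 𝓞 K) : oA τ (oA τ.symm c) = c := by
  apply RingOfIntegers.ext
  show τ (τ.symm (c : K)) = c
  simp

omit [NumberField K] in
theorem lk2_gP (τ : K ≃+* K) (p : Pr K) : gP τ (gP τ.symm p) = p := by
  apply HeightOneSpectrum.ext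
  show (p.asIdeal.comap (oA τ.symm.symm)).comap (oA τ.symm) = p.asIdeal
  ext x
  rw [Ideal.mem_comap, Ideal.mem_comap]
  have : oA τ.symm.symm (oA τ.symm x) = x := lk2_oA' τ x
  rw [this]

theorem lk2_dv (τ : K ≃+* K) (p : Pr K) (n : Id K) : Dv (gP τ p) (gI τ n) ↔ Dv p n := by
  unfold Dv
  rw [← gI_pI, ← lk2_gI_div, gI_int]

theorem lk2_prim (τ : K ≃+* K) {n : Id K} {L : Lat K} {v : Fin 2 → K} (h : Prim n L v) :
    Prim (gI τ n) (lk2_L τ L) (lk2_v τ.symm v) := by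
  refine ⟨?_, fun p hp hv => ?_⟩
  · rw [lk2_mem, lk2_v_symm]; exact h.1
  · rw [← lk2_gP τ p] at hp hv
    rw [lk2_dv] at hp
    rw [← gI_pI, lk2_sm, lk2_mem, lk2_v_symm] at hv
    exact h.2 _ hp hv

theorem lk2_cst (τ : K ≃+* K) (n : Id K) (L : Lat K) (v u : Fin 2 → K) :
    u ∈ cst (gI τ n) (lk2_L τ L) (lk2_v τ.symm v) ↔ lk2_v τ u ∈ cst n L v := by
  show u - lk2_v τ.symm v ∈ ((lk2_L τ L).sm (gI τ n)).M ↔ lk2_v τ u - v ∈ (L.sm n).M
  rw [lk2_sm, lk2_mem, lk2_v_sub, lk2_v_symm]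

/-- the image of a point -/
def lk2_P (τ : K ≃+* K) {n : Id K} (x : Pt n) : Pt (gI τ n) where
  L := lk2_L τ x.L
  V := {u | lk2_v τ u ∈ x.V}
  ex := by
    obtain ⟨v, hv, hV⟩ := x.ex
    refine ⟨_, lk2_prim τ hv, ?_⟩
    ext u
    rw [lk2_cst, ← hV]
    rfl

theorem lk2_gal (τ : K ≃+* K) {n : Id K} (x : Pt n) : Gal τ x (lk2_P τ x) :=
  ⟨fun _ => Iff.rfl, fun _ => Iff.rfl⟩

theorem lk2_uniq (τ : K ≃+* K) {n m : Id K} {x : Pt n} {y y' : Pt m} (h : Gal τ x y)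
    (h' : Gal τ x y') : y = y' := by
  apply Pt.ext
  · apply gb2_ext
    intro v
    rw [h.1, h'.1]
  · ext v
    rw [h.2, h'.2]

theorem lk2_gal_symm (τ : K ≃+* K) {n m : Id K} {x : Pt n} {y : Pt m}
    (h : Gal τ x y) : Gal τ.symm y x := by
  constructor
  · intro v
    have := h.1 (lk2_v τ.symm v)
    show _ ↔ lk2_v τ.symm v ∈ y.L.M
    rw [this]
    show _ ↔ lk2_v τ (lk2_v τ.symm v) ∈ x.L.M
    rw [lk2_v_symm]
  · intro v
    have := h.2 (lk2_v τ.symm v)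
    show _ ↔ lk2_v τ.symm v ∈ y.V
    rw [this]
    show _ ↔ lk2_v τ (lk2_v τ.symm v) ∈ x.V
    rw [lk2_v_symm]

theorem lk2_ex (τ : K ≃+* K) {n m : Id K} (hm : gI τ n = m) (x : Pt n) : ∃ y : Pt m, Gal τ x y := by
  subst hm
  exact ⟨_, lk2_gal τ x⟩

theorem gal_exists (τ : K ≃+* K) {n : Id K} (hn : IsInt n) (x : Pt n) :
    ∃! y : Pt (gI τ n), Gal τ x y :=
  ⟨lk2_P τ x, lk2_gal τ x, fun _ h => lk2_uniq τ h (lk2_gal τ x)⟩

theorem gal_exists' (τ : K ≃+* K) {n : Id K} (hn : IsInt n) (y : Pt (gI τ n)) :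
    ∃! x : Pt n, Gal τ x y := by
  obtain ⟨x, hx⟩ := lk2_ex τ.symm (lk2_gI_symm τ n) y
  refine ⟨x, lk2_gal_symm τ.symm hx, fun x' hx' => ?_⟩
  exact lk2_uniq τ.symm (lk2_gal_symm τ hx') hx

theorem lk2_vecMul (τ : K ≃+* K) (v : Fin 2 → K) (g : GL (Fin 2) K) :
    lk2_v τ (Matrix.vecMul v (((Matrix.GeneralLinearGroup.map (n := Fin 2) (τ : K →+* K) g)⁻¹ :
      GL (Fin 2) K) : Matrix (Fin 2) (Fin 2) K)) =
      Matrix.vecMul (lk2_v τ v) ((g⁻¹ : GL (Fin 2) K) : Matrix (Fin 2) (Fin 2) K) := by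
  rw [← map_inv]
  funext i
  simp only [lk2_v, Matrix.vecMul, dotProduct, Fin.sum_univ_two, map_add, map_mul,
    Matrix.GeneralLinearGroup.map_apply]
  simp

theorem lk2_mem_V {n : Id K} (x : Pt n) (g : GL (Fin 2) K) (v : Fin 2 → K) :
    v ∈ (x.mul g).V ↔
      Matrix.vecMul v ((g⁻¹ : GL (Fin 2) K) : Matrix (Fin 2) (Fin 2) K) ∈ x.V := by
  constructor
  · rintro ⟨u, hu, rfl⟩
    simpa [Matrix.vecMul_vecMul] using hu
  · intro h
    exact ⟨_, h, by simp [Matrix.vecMul_vecMul]⟩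

theorem gal_mul (τ : K ≃+* K) {n m : Id K} {x : Pt n} {y : Pt m} (h : Gal τ x y)
    (g : GL (Fin 2) K) :
    Gal τ (x.mul g) (y.mul (Matrix.GeneralLinearGroup.map (n := Fin 2) (τ : K →+* K) g)) := by
  constructor
  · intro v
    show v ∈ (y.L.mul _).M ↔ lk2_v τ v ∈ (x.L.mul g).M
    rw [mem_mul, mem_mul, h.1]
    show lk2_v τ _ ∈ _ ↔ _
    rw [lk2_vecMul]
  · intro v
    show _ ↔ lk2_v τ v ∈ (x.mul g).V
    rw [lk2_mem_V, lk2_mem_V, h.2]
    show lk2_v τ _ ∈ _ ↔ _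
    rw [lk2_vecMul]

theorem lk2_Leq (τ : K ≃+* K) {n m : Id K} {x : Pt n} {y : Pt m}
    (h : Gal τ x y) : y.L = lk2_L τ x.L := by
  apply gb2_ext
  intro v
  rw [h.1]
  rfl

theorem gal_sc (τ : K ≃+* K) {n c : Id K} (hn : IsInt n) {x x' : Pt n} {y y' : Pt (gI τ n)}
    (h : Gal τ x y) (h' : Gal τ x' y') : Sc (gI τ c) y y' ↔ Sc c x x' := by
  have e1 : y'.L = y.L.sm (gI τ c) ↔ x'.L = x.L.sm c := by
    rw [lk2_Leq τ h, lk2_Leq τ h', lk2_sm]
    exact ⟨fun h => lk2_L_inj τ h, fun h => by rw [h]⟩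
  have e2 : y'.V = y.V ∩ (y'.L.M : Set (Fin 2 → K)) ↔ x'.V = x.V ∩ (x'.L.M : Set (Fin 2 → K)) := by
    constructor
    · intro e
      ext v
      have h1 : lk2_v τ.symm v ∈ y'.V ↔ lk2_v τ.symm v ∈ y.V ∩ (y'.L.M : Set (Fin 2 → K)) := by
        rw [← e]
      rw [Set.mem_inter_iff, SetLike.mem_coe, h'.2, h.2, h'.1] at h1
      have h2 : (fun i => τ.symm (lk2_v τ.symm v i)) = v := lk2_v_symm τ v
      rw [h2] at h1
      exact h1
    · intro e
      ext v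
      rw [Set.mem_inter_iff, SetLike.mem_coe, h'.2, h.2, h'.1, e]
      rfl
  unfold Sc
  rw [cp_gI, e1, e2]

theorem gal_S (τ : K ≃+* K) {n b c : Id K} (hn : IsInt n) (hc : Cp n c) :
    Gal τ (ptS b hc) (ptS (gI τ b) ((cp_gI τ n c).2 hc)) ∧
      Gal τ (ptZ b hc) (ptZ (gI τ b) ((cp_gI τ n c).2 hc)) := by
  have hinv : (gI τ c)⁻¹ = gI τ c⁻¹ := ((gI_mul τ c c).2.1).symm
  have hmul : ∀ a b : Id K, gI τ a * gI τ b = gI τ (a * b) := fun a b => ((gI_mul τ a b).1).symm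
  refine ⟨⟨fun v => ?_, fun v => ?_⟩, ⟨fun v => ?_, fun v => ?_⟩⟩
  · show v ∈ (Lat.ds (gI τ b) (gI τ c)⁻¹).M ↔ _ ∈ (Lat.ds b c⁻¹).M
    rw [mem_ds, mem_ds, hinv, mem_gI, mem_gI]
  · show v - ![0, 1] ∈ ((Lat.ds (gI τ b) (gI τ c)⁻¹).sm (gI τ n)).M ↔
      lk2_v τ v - ![0, 1] ∈ ((Lat.ds b c⁻¹).sm n).M
    rw [ds_sm, ds_sm, mem_ds, mem_ds, hinv, hmul, hmul, mem_gI, mem_gI]
    simp [lk2_v]
  · show v ∈ (Lat.ds (gI τ c)⁻¹ (gI τ b)).M ↔ _ ∈ (Lat.ds c⁻¹ b).M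
    rw [mem_ds, mem_ds, hinv, mem_gI, mem_gI]
  · show v - ![1, 0] ∈ ((Lat.ds (gI τ c)⁻¹ (gI τ b)).sm (gI τ n)).M ↔
      lk2_v τ v - ![1, 0] ∈ ((Lat.ds c⁻¹ b).sm n).M
    rw [ds_sm, ds_sm, mem_ds, mem_ds, hinv, hmul, hmul, mem_gI, mem_gI]
    simp [lk2_v]

/-! ### Hecke operators -/

omit [NumberField K] in
theorem lk2_M_lt (τ : K ≃+* K) {M M' : Submodule (𝓞 K) (Fin 2 → K)} :
    lk2_M τ M < lk2_M τ M' ↔ M < M' := by
  have hle : ∀ {A B : Submodule (𝓞 K) (Fin 2 → K)}, lk2_M τ A ≤ lk2_M τ B ↔ A ≤ B := by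
    intro A B
    constructor
    · intro h v hv
      have h1 : lk2_v τ.symm v ∈ lk2_M τ A := by
        rw [lk2_mem_M, lk2_v_symm]; exact hv
      have h2 := h h1
      rwa [lk2_mem_M, lk2_v_symm] at h2
    · intro h v hv
      exact h hv
  rw [lt_iff_le_not_ge, lt_iff_le_not_ge, hle, hle]

theorem lk2_M_smul (τ : K ≃+* K) (p : Pr K) (M : Submodule (𝓞 K) (Fin 2 → K)) :
    lk2_M τ (p.asIdeal • M) = (gP τ p).asIdeal • lk2_M τ M := by
  have hle : ∀ (σ : K ≃+* K) (q : Pr K) (N : Submodule (𝓞 K) (Fin 2 → K)),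
      (gP σ q).asIdeal • lk2_M σ N ≤ lk2_M σ (q.asIdeal • N) := by
    intro σ q N
    rw [Submodule.smul_le]
    intro r hr w hw
    show lk2_v σ (r • w) ∈ (q.asIdeal • N : Submodule (𝓞 K) (Fin 2 → K))
    rw [lk2_v_osmul]
    exact Submodule.smul_mem_smul hr hw
  apply le_antisymm _ (hle τ p M)
  intro v hv
  have hv' : lk2_v τ v ∈ p.asIdeal • M := hv
  have e1 : M = lk2_M τ.symm (lk2_M τ M) := by
    ext w
    rw [lk2_mem_M, lk2_mem_M, lk2_v_symm]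
  have e2 : p = gP τ.symm (gP τ p) := (lk2_gP τ.symm p).symm
  rw [e1] at hv'
  have h2 : lk2_v τ v ∈ (gP τ.symm (gP τ p)).asIdeal • lk2_M τ.symm (lk2_M τ M) := by
    rw [← e2]; exact hv'
  have h3 := hle τ.symm (gP τ p) (lk2_M τ M) h2
  rwa [lk2_mem_M, lk2_v_symm'] at h3

theorem lk2_nb (τ : K ≃+* K) {n m : Id K} (p : Pr K) {x x' : Pt n} {y y' : Pt m}
    (h : Gal τ x y) (h' : Gal τ x' y') : Nb (gP τ p) y y' ↔ Nb p x x' := by
  have e1 : y'.L.Sub (gP τ p) y.L ↔ x'.L.Sub p x.L := by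
    unfold Lat.Sub
    rw [lk2_Leq τ h, lk2_Leq τ h']
    show (gP τ p).asIdeal • lk2_M τ x'.L.M < lk2_M τ x.L.M ∧ lk2_M τ x.L.M < lk2_M τ x'.L.M ↔ _
    rw [← lk2_M_smul, lk2_M_lt, lk2_M_lt]
  have e2 : y.V ⊆ y'.V ↔ x.V ⊆ x'.V := by
    constructor
    · intro e v hv
      have h1 : lk2_v τ.symm v ∈ y.V := by
        rw [h.2]
        show lk2_v τ (lk2_v τ.symm v) ∈ x.V
        rw [lk2_v_symm]; exact hv
      have h2 := (h'.2 _).1 (e h1)
      have h3 : (fun i => τ.symm (lk2_v τ.symm v i)) = v := lk2_v_symm τ v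
      rwa [h3] at h2
    · intro e v hv
      rw [h'.2]
      exact e ((h.2 v).1 hv)
  unfold Nb
  rw [e1, e2]

variable {M : Type} [AddCommMonoid M]

theorem gal_tp (τ : K ≃+* K) {n : Id K} (hn : IsInt n) (p : Pr K) {f : Pt n → M}
    {F : Pt (gI τ n) → M} (hF : ∀ x y, Gal τ x y → F y = f x) {x : Pt n} {y : Pt (gI τ n)}
    (h : Gal τ x y) : Tp (gP τ p) F y = Tp p f x ∧ Ts (gP τ p) F y = Ts p f x := by
  have hinj : Function.Injective (lk2_P τ : Pt n → Pt (gI τ n)) := by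
    intro a b hab
    have h1 := lk2_gal τ a
    have h2 := lk2_gal τ b
    rw [← hab] at h2
    exact lk2_uniq τ.symm (lk2_gal_symm τ h1) (lk2_gal_symm τ h2)
  have hsurj : ∀ z : Pt (gI τ n), ∃ a : Pt n, lk2_P τ a = z := by
    intro z
    obtain ⟨a, ha, _⟩ := gal_exists' τ hn z
    exact ⟨a, lk2_uniq τ (lk2_gal τ a) ha⟩
  constructor
  · unfold Tp
    symm
    apply finsum_eq_of_bijective (fun a : {a : Pt n // Nb p x a} =>
      (⟨lk2_P τ a.1, (lk2_nb τ p h (lk2_gal τ a.1)).2 a.2⟩ : {z : Pt (gI τ n) // Nb (gP τ p) y z}))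
    · constructor
      · intro a b hab
        exact Subtype.ext (hinj (congrArg Subtype.val hab))
      · rintro ⟨z, hz⟩
        obtain ⟨a, rfl⟩ := hsurj z
        exact ⟨⟨a, (lk2_nb τ p h (lk2_gal τ a)).1 hz⟩, rfl⟩
    · intro a
      exact (hF _ _ (lk2_gal τ a.1)).symm
  · unfold Ts
    symm
    apply finsum_eq_of_bijective (fun a : {a : Pt n // Nb p a x} =>
      (⟨lk2_P τ a.1, (lk2_nb τ p (lk2_gal τ a.1) h).2 a.2⟩ : {z : Pt (gI τ n) // Nb (gP τ p) z y}))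
    · constructor
      · intro a b hab
        exact Subtype.ext (hinj (congrArg Subtype.val hab))
      · rintro ⟨z, hz⟩
        obtain ⟨a, rfl⟩ := hsurj z
        exact ⟨⟨a, (lk2_nb τ p (lk2_gal τ a) h).1 hz⟩, rfl⟩
    · intro a
      exact (hF _ _ (lk2_gal τ a.1)).symm

end Pool.Agent.HSG.LV
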