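import Pool.Agent.Lib_helper84.LV.Defs
import Pool.Agent.Lib_helper84.HSGF.GA1
import Pool.Agent.Lib_helper84.HSGF.GC1
import Pool.Agent.Lib_helper84.LVF.LA
import Pool.Agent.Lib_helper84.LVF.LB
import Pool.Agent.Lib_helper84.LVF.LC
import Pool.Agent.Lib_helper84.LVF.LD1

/-! # Block LJ (RES): change of the level -/

namespace Pool.Agent.HSG.LV

open Complex NumberField IsDedekindDomain
open scoped nonZeroDivisors MatrixGroups

variable {K : Type} [Field K] [NumberField K]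

theorem lj_int {n m : Id K} (hn : IsInt n) (hm : IsInt (m / n)) : IsInt m := by
  have : m = (m / n) * n := by rw [div_mul_cancel]
  rw [this]
  exact isInt_mul hm hn

theorem lj_dv {n m : Id K} (hm : IsInt (m / n)) {p : Pr K} (h : Dv p n) : Dv p m := by
  unfold Dv at *
  have : m / pI p = (m / n) * (n / pI p) := by rw [div_mul_div_cancel]
  rw [this]
  exact isInt_mul hm h

theorem lj_sm_le {n m : Id K} (h : m.m ≤ n.m) {N N' : Submodule (𝓞 K) (Fin 2 → K)}
    (hN : N ≤ N') : m.m • N ≤ n.m • N' := Submodule.smul_mono h hN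

theorem lj_prim {n m : Id K} (hm : IsInt (m / n)) {L : Lat K} {v : Fin 2 → K}
    (h : Prim m L v) : Prim n L v := ⟨h.1, fun p hp => h.2 p (lj_dv hm hp)⟩

theorem lj_self (n : Id K) (L : Lat K) (v : Fin 2 → K) : v ∈ cst n L v := by
  show v - v ∈ (L.sm n).M
  rw [sub_self]; exact (L.sm n).M.zero_mem

theorem lj_cst {n m : Id K} (hm : IsInt (m / n)) {L L' : Lat K} (hL : L.M ≤ L'.M)
    (v : Fin 2 → K) : cst m L v ⊆ cst n L' v := by
  intro u hu
  exact lj_sm_le ((isInt_div m n).1 hm) hL hu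

theorem lj_cst' (n : Id K) {L L' : Lat K} (hL : L.M ≤ L'.M)
    (v : Fin 2 → K) : cst n L v ⊆ cst n L' v := by
  intro u hu
  exact lj_sm_le le_rfl hL hu

theorem res_exists {n m : Id K} (hn : IsInt n) (hm : IsInt (m / n)) (x : Pt m) :
    ∃! y : Pt n, Res x y := by
  obtain ⟨v, hv, hV⟩ := x.ex
  refine ⟨Pt.of x.L v (lj_prim hm hv), ⟨rfl, ?_⟩, ?_⟩
  · rw [hV]; exact lj_cst hm le_rfl v
  · rintro y ⟨h1, h2⟩
    refine pt_eq hn h1 (h2 ?_) (lj_self n x.L v)
    rw [hV]; exact lj_self m x.L v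

theorem lj_mul {n m : Id K} {x : Pt m} {y : Pt n} (g : GL (Fin 2) K) (h : Res x y) :
    Res (x.mul g) (y.mul g) := by
  refine ⟨?_, Set.image_mono h.2⟩
  show y.L.mul g = x.L.mul g
  rw [h.1]

theorem res_mul {n m : Id K} {x : Pt m} {y : Pt n} (g : GL (Fin 2) K) :
    Res (x.mul g) (y.mul g) ↔ Res x y := by
  refine ⟨fun h => ?_, lj_mul g⟩
  have := lj_mul g⁻¹ h
  rwa [← pt_mul_mul, ← pt_mul_mul, mul_inv_cancel, pt_mul_one, pt_mul_one] at this

theorem res_sc {n m c : Id K} (hn : IsInt n) (hm : IsInt (m / n)) {x x' : Pt m} {y y' : Pt n}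
    (h : Res x y) (h' : Res x' y') (hs : Sc c x x') : Sc c y y' := by
  have hc : Cp n c := cp_mono hm hs.1
  obtain ⟨z, hz, -⟩ := sc_exists hn hc y
  have hL : y'.L = z.L := by rw [h'.1, hs.2.1, hz.2.1, h.1]
  have : y' = z := by
    obtain ⟨v, hv⟩ := v_ne m x'
    have hv2 := hv
    rw [hs.2.2] at hv2
    refine pt_eq hn hL (h'.2 hv) ?_
    rw [hz.2.2]
    refine ⟨h.2 hv2.1, ?_⟩
    rw [← hL, h'.1]
    exact hv2.2
  rw [this]; exact hz

theorem res_S {n m b c : Id K} (hn : IsInt n) (hm : IsInt (m / n)) (hc : Cp m c)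
    (hc' : Cp n c) :
    Res (ptS b hc) (ptS b hc') ∧ Res (ptZ b hc) (ptZ b hc') :=
  ⟨⟨rfl, lj_cst hm le_rfl _⟩, ⟨rfl, lj_cst hm le_rfl _⟩⟩

/-- a vector of exact order `m` of `L` has exact order `m` in a superlattice of index `p`, `p`
prime to `m` -/
theorem lj_prim_up {m : Id K} {p : Pr K} (hp : ¬ Dv p m) {L L' : Lat K} (hs : L'.Sub p L)
    {v : Fin 2 → K} (h : Prim m L v) : Prim m L' v := by
  refine ⟨hs.2.le h.1, ?_⟩
  intro q hq hv
  apply h.2 q hq
  have hne : ¬ Dv p (pI q) := by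
    rw [dv_pI]
    rintro rfl
    exact hp hq
  have hint : ∀ r : Pr K, IsInt (pI r) := fun r => FractionalIdeal.coeIdeal_le_one
  obtain ⟨a, ha, b, hb, hab⟩ := cp_comax (hint q) (cp_pI hne)
  have hv1 : v = a • v + b • v := by rw [← add_smul, hab, one_smul]
  rw [hv1]
  refine (L.sm (pI q)).M.add_mem ?_ ?_
  · -- a v ∈ p q L' ⊆ q L
    have h1 : a • v ∈ ((pI p).m • ((pI q).m • L'.M) : Submodule (𝓞 K) (Fin 2 → K)) :=
      Submodule.smul_mem_smul ha hv
    rw [← gc1_mul, mul_comm, gc1_mul] at h1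
    have h2 : ((pI p).m • L'.M : Submodule (𝓞 K) (Fin 2 → K)) ≤ L.M := by
      have := ((gc1_sub p L' L).1 hs).1.le
      exact this
    exact (gc1_le (pI q)).2 h2 h1
  · exact Submodule.smul_mem_smul hb h.1

section res
variable {M : Type} [AddCommMonoid M]

theorem lj_tp {n m : Id K} (hn : IsInt n) (hm : IsInt (m / n)) {p : Pr K} (hp : ¬ Dv p m)
    {f : Pt n → M} {F : Pt m → M} (hF : ∀ x y, Res x y → F x = f y) {x : Pt m} {y : Pt n}
    (h : Res x y) : Tp p F x = Tp p f y := by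
  have hmi := lj_int hn hm
  obtain ⟨v, hv⟩ := v_ne m x
  have hyv : v ∈ y.V := h.2 hv
  have hmap : ∀ x' : {x' : Pt m // Nb p x x'}, ∃ y' : {y' : Pt n // Nb p y y'},
      Res x'.1 y'.1 := by
    rintro ⟨x', hx'⟩
    obtain ⟨y', hy', -⟩ := res_exists hn hm x'
    refine ⟨⟨y', ?_, ?_⟩, hy'⟩
    · rw [hy'.1, h.1]; exact hx'.1
    · have h1 := (v_prim hn y hyv).2
      have h2 := (v_prim hn y' (hy'.2 (hx'.2 hv))).2
      rw [h1, h2]
      apply lj_cst'
      rw [hy'.1, h.1]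
      exact hx'.1.2.le
  choose e he using hmap
  unfold Tp
  refine finsum_eq_of_bijective e ⟨?_, ?_⟩ (fun x' => hF _ _ (he x'))
  · intro x1 x2 h12
    apply Subtype.ext
    have h1 := he x1
    have h2 := he x2
    rw [h12] at h1
    exact pt_eq hmi (h1.1.symm.trans h2.1) (x1.2.2 hv) (x2.2.2 hv)
  · rintro ⟨y', hy'⟩
    have hs : y'.L.Sub p x.L := by rw [← h.1]; exact hy'.1
    have hpr : Prim m y'.L v := lj_prim_up hp hs (v_prim hmi x hv).1
    have hx' : Nb p x (Pt.of y'.L v hpr) := by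
      refine ⟨hs, ?_⟩
      rw [(v_prim hmi x hv).2]
      exact lj_cst' m hs.2.le v
    refine ⟨⟨Pt.of y'.L v hpr, hx'⟩, ?_⟩
    apply Subtype.ext
    have h1 := he ⟨Pt.of y'.L v hpr, hx'⟩
    refine pt_eq hn h1.1 (h1.2 (lj_self m y'.L v)) (hy'.2 hyv)

theorem res_tp {n m : Id K} (hn : IsInt n) (hm : IsInt (m / n)) {p : Pr K} (hp : ¬ Dv p m)
    {f : Pt n → M} {F : Pt m → M} (hF : ∀ x y, Res x y → F x = f y) {x : Pt m} {y : Pt n}
    (h : Res x y) : Tp p F x = Tp p f y ∧ Ts p F x = Ts p f y := by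
  refine ⟨lj_tp hn hm hp hF h, ?_⟩
  have hmi := lj_int hn hm
  have hpn : ¬ Dv p n := fun h => hp (lj_dv hm h)
  obtain ⟨x1, hx1, -⟩ := sc_exists hmi (cp_pI hp) x
  obtain ⟨y1, hy1, -⟩ := res_exists hn hm x1
  have hsc := res_sc hn hm h hy1 hx1
  -- the adjoint as an operator at the multiples by `p`
  have key : ∀ {k : Id K} (hk : IsInt k) (hpk : ¬ Dv p k) (G : Pt k → M) {u u' : Pt k}
      (hu : Sc (pI p) u u'), Ts p G u = Tp p G u' := by
    intro k hk hpk G u u' hu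
    unfold Ts Tp
    refine finsum_eq_of_bijective (fun z => ⟨z.1, (nb_dual hk hpk hu z.1).1 z.2⟩) ⟨?_, ?_⟩
      (fun z => rfl)
    · intro z z' hz
      apply Subtype.ext
      exact congrArg (fun t => t.1) hz
    · rintro ⟨z, hz⟩
      exact ⟨⟨z, (nb_dual hk hpk hu z).2 hz⟩, rfl⟩
  rw [key hmi hp F hx1, key hn hpn f hsc]
  exact lj_tp hn hm hp hF hy1

end res

end Pool.Agent.HSG.LV
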