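import Pool.Agent.Lib_helper84.LV.Defs
import Pool.Agent.Lib_helper84.HSGF.GB2

/-! # Lattices with a level structure, block LL (DUA): dual ideals and dual lattices -/

namespace Pool.Agent.HSG.LV

open Complex NumberField IsDedekindDomain
open scoped nonZeroDivisors MatrixGroups

variable {K : Type} [Field K] [NumberField K]

/-! ### Identities in commutative groups -/

theorem ll_g1 {G : Type*} [CommGroup G] (a b c : G) : a * (b * c)⁻¹ * b = a / c := by
  apply Additive.ofMul.injective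
  simp only [ofMul_mul, ofMul_inv, ofMul_div]
  abel

theorem ll_g2 {G : Type*} [CommGroup G] (a b c : G) : a * (b * c)⁻¹ * c = a / b := by
  apply Additive.ofMul.injective
  simp only [ofMul_mul, ofMul_inv, ofMul_div]
  abel

theorem ll_g3 {G : Type*} [CommGroup G] (n d e : G) :
    n * (d * (n ^ 2 * e))⁻¹ = (n * d * e)⁻¹ := by
  apply Additive.ofMul.injective
  simp only [ofMul_mul, ofMul_inv, ofMul_pow]
  abel

theorem ll_g4 {G : Type*} [CommGroup G] (m e : G) :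
    (m * e)⁻¹ ^ 2 * e = (m ^ 2 * e)⁻¹ := by
  apply Additive.ofMul.injective
  simp only [ofMul_mul, ofMul_inv, ofMul_pow]
  abel

theorem ll_g5 {G : Type*} [CommGroup G] (m e : G) :
    (m * (m ^ 2 * e)⁻¹)⁻¹ * (m * e)⁻¹ = 1 := by
  apply Additive.ofMul.injective
  simp only [ofMul_mul, ofMul_inv, ofMul_pow, ofMul_one]
  abel

theorem ll_g6 {G : Type*} [CommGroup G] (m p e : G) :
    (m * (p * e))⁻¹ = p⁻¹ * (m * e)⁻¹ := by
  apply Additive.ofMul.injective
  simp only [ofMul_mul, ofMul_inv]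
  abel

theorem ll_g7 {G : Type*} [CommGroup G] (m c e : G) :
    (m * (c ^ 2 * e))⁻¹ * c = c⁻¹ * (m * e)⁻¹ := by
  apply Additive.ofMul.injective
  simp only [ofMul_mul, ofMul_inv, ofMul_pow]
  abel

/-- the different as a unit -/
noncomputable def ll_D : Id K :=
  Units.mk0 ((differentIdeal ℤ (𝓞 K) : FractionalIdeal (𝓞 K)⁰ K)) (by
    rw [Ne, FractionalIdeal.coeIdeal_eq_zero]
    exact differentIdeal_ne_bot)

theorem ll_DD : DD K = ll_D := by
  have h : DD K = toId (Id.m (ll_D (K := K))) := rfl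
  rw [h, toId_self]

theorem ll_DD_val : ((DD K : Id K) : FractionalIdeal (𝓞 K)⁰ K) =
    (FractionalIdeal.dual ℤ ℚ (1 : FractionalIdeal (𝓞 K)⁰ K))⁻¹ := by
  rw [ll_DD]
  exact coeIdeal_differentIdeal ℤ ℚ K (𝓞 K)

theorem dual_id (b : Id K) (ν : K) :
    (∀ y ∈ b.m, ∃ k : ℤ, Algebra.trace ℚ K (ν * y) = k) ↔ ν ∈ ((DD K)⁻¹ * b⁻¹).m := by
  have h1 : (((DD K)⁻¹ * b⁻¹ : Id K) : FractionalIdeal (𝓞 K)⁰ K) =
      FractionalIdeal.dual ℤ ℚ (b : FractionalIdeal (𝓞 K)⁰ K) := by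
    rw [Units.val_mul, Units.val_inv_eq_inv_val, Units.val_inv_eq_inv_val, ll_DD_val, inv_inv,
      ← FractionalIdeal.dual_eq_mul_inv]
  have h2 : ν ∈ ((DD K)⁻¹ * b⁻¹).m ↔
      ν ∈ FractionalIdeal.dual ℤ ℚ (b : FractionalIdeal (𝓞 K)⁰ K) := by
    rw [← h1]
    rfl
  rw [h2, FractionalIdeal.mem_dual b.ne_zero]
  refine forall_congr' fun y => imp_congr_right fun _ => ?_
  rw [Algebra.traceForm_apply, RingHom.mem_range]
  refine exists_congr fun n => ?_
  constructor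
  · intro h
    rw [h]
    rfl
  · intro h
    rw [← h]
    rfl

/-- the elements with integral trace form with an element of a lattice -/
theorem ll_tr (L : Lat K) (l : Fin 2 → K) :
    (∀ u ∈ L.M, ∃ k : ℤ, Algebra.trace ℚ K (dt u l) = k) ↔
      ∀ u ∈ L.M, dt u l ∈ ((DD K)⁻¹).m := by
  have h0 : ((DD K)⁻¹ : Id K) = (DD K)⁻¹ * (1 : Id K)⁻¹ := by rw [inv_one, mul_one]
  constructor
  · intro h u hu
    rw [h0, ← dual_id]
    intro y hy
    obtain ⟨c, rfl⟩ := (mem_m_one y).1 hy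
    have h1 := h (c • u) (L.M.smul_mem c hu)
    rwa [gb1_osmul, gb1_smul_l, mul_comm] at h1
  · intro h u hu
    have h1 := h u hu
    rw [h0, ← dual_id] at h1
    have h2 := h1 1 ((mem_m_one 1).2 ⟨1, by simp⟩)
    rwa [mul_one] at h2

theorem ll_ds (b c a : Id K) (l : Fin 2 → K) :
    (∀ u ∈ (Lat.ds b c).M, dt u l ∈ a.m) ↔ l ∈ (Lat.ds (a / c) (a / b)).M := by
  rw [mem_ds]
  constructor
  · intro h
    constructor
    · rw [mem_div_iff]
      intro y hy
      have h1 := h ![0, y] ⟨b.m.zero_mem, by simpa using hy⟩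
      have h2 : dt ![0, y] l = -(l 0 * y) := by
        simp [dt, mul_comm]
      rw [h2] at h1
      simpa using a.m.neg_mem h1
    · rw [mem_div_iff]
      intro y hy
      have h1 := h ![y, 0] ⟨by simpa using hy, c.m.zero_mem⟩
      have h2 : dt ![y, 0] l = l 1 * y := by
        simp [dt, mul_comm]
      rwa [h2] at h1
  · rintro ⟨h0, h1⟩ u hu
    rw [mem_div_iff] at h0 h1
    have hu' := (mem_ds b c u).1 hu
    have e : dt u l = l 1 * u 0 - l 0 * u 1 := by
      simp only [dt]; ring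
    rw [e]
    exact a.m.sub_mem (h1 _ hu'.1) (h0 _ hu'.2)

theorem ll_all (L : Lat K) (a : Id K) (l : Fin 2 → K) :
    (∀ u ∈ L.M, dt u l ∈ a.m) ↔ l ∈ (L.sm (a * L.det⁻¹)).M := by
  obtain ⟨g, -, hg⟩ := split L (v := ![0, 1]) (by
    intro h
    have := congrFun h 1
    simp at this)
  set c : Id K := L.av ![0, 1] with hc
  set b : Id K := L.det / c with hb
  have hdet : L.det = b * c := by rw [hb, div_mul_cancel]
  have hL : L = (Lat.ds b c).mul (g : GL (Fin 2) K) := by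
    rw [← hg, act_eq, ← mul_mul, ← map_mul, inv_mul_cancel, map_one]
    have := one_smul (GL (Fin 2) K) L
    rw [show (1 : GL (Fin 2) K) • L = L.mul 1⁻¹ from rfl, inv_one] at this
    exact this.symm
  have hs : L.sm (a * L.det⁻¹) = (Lat.ds (a / c) (a / b)).mul (g : GL (Fin 2) K) := by
    have h1 : (Lat.ds b c).sm (a * L.det⁻¹) = Lat.ds (a / c) (a / b) := by
      rw [ds_sm, hdet, ll_g1, ll_g2]
    rw [← h1, mul_sm, ← hL]
  rw [hs, gb2_mem_mul', ← ll_ds]
  have hdg : ((g : GL (Fin 2) K) : Matrix (Fin 2) (Fin 2) K).det = 1 := by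
    simp
  constructor
  · intro h u hu
    have h1 := h (Matrix.vecMul u ((g : GL (Fin 2) K) : Matrix (Fin 2) (Fin 2) K)) (by
      rw [hL]; exact ⟨u, hu, rfl⟩)
    have h2 := gb1_dt_mul u (Matrix.vecMul l (((g : GL (Fin 2) K)⁻¹ : GL (Fin 2) K) :
      Matrix (Fin 2) (Fin 2) K)) ((g : GL (Fin 2) K) : Matrix (Fin 2) (Fin 2) K)
    rw [Matrix.vecMul_vecMul, ← Units.val_mul, inv_mul_cancel, hdg, one_mul] at h2
    rw [← h2]
    simpa using h1
  · intro h u hu
    rw [hL, gb2_mem_mul'] at hu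
    have h1 := h _ hu
    have h2 := gb1_dt_mul (Matrix.vecMul u (((g : GL (Fin 2) K)⁻¹ : GL (Fin 2) K) :
      Matrix (Fin 2) (Fin 2) K)) (Matrix.vecMul l (((g : GL (Fin 2) K)⁻¹ : GL (Fin 2) K) :
      Matrix (Fin 2) (Fin 2) K)) ((g : GL (Fin 2) K) : Matrix (Fin 2) (Fin 2) K)
    rw [Matrix.vecMul_vecMul, Matrix.vecMul_vecMul, ← Units.val_mul, inv_mul_cancel, hdg,
      one_mul] at h2
    rw [← h2] at h1
    simpa using h1

theorem dual_lat (L : Lat K) (l : Fin 2 → K) :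
    (∀ u ∈ L.M, ∃ k : ℤ, Algebra.trace ℚ K (dt u l) = k) ↔
      l ∈ (L.sm (DD K * L.det)⁻¹).M := by
  rw [ll_tr, ll_all, mul_inv]

/-- the dual lattice of `n L` -/
theorem mem_dua (n : Id K) (L : Lat K) (l : Fin 2 → K) :
    l ∈ (dua n L).M ↔ ∀ u ∈ (L.sm n).M, ∃ k : ℤ, Algebra.trace ℚ K (dt u l) = k := by
  rw [dual_lat, sm_sm, det_sm]
  rw [ll_g3]
  rfl

theorem dua_det (n : Id K) (L : Lat K) : (dua n L).det = ((n * DD K) ^ 2 * L.det)⁻¹ := by
  unfold dua
  rw [det_sm, ll_g4]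

theorem dua_dua (n : Id K) (L : Lat K) : dua n (dua n L) = L := by
  show (dua n L).sm (n * DD K * (dua n L).det)⁻¹ = L
  rw [dua_det]
  unfold dua
  rw [sm_sm, mul_comm, ll_g5, sm_one]

theorem dua_mul (n : Id K) (L : Lat K) (g : GL (Fin 2) K) :
    dua n (L.mul g) = ((dua n L).mul g).sm (prI (Matrix.GeneralLinearGroup.det g))⁻¹ := by
  unfold dua
  rw [det_mul, mul_sm, sm_sm, ll_g6]
  congr 1
  exact mul_comm _ _

theorem dua_sm (n c : Id K) (L : Lat K) : dua n (L.sm c) = (dua n L).sm c⁻¹ := by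
  unfold dua
  rw [det_sm, sm_sm, sm_sm]
  congr 1
  rw [mul_comm c, ll_g7]
  exact mul_comm _ _

end Pool.Agent.HSG.LV
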