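import Pool.Agent.Lib_helper84.LV.Defs
import Pool.Agent.Lib_helper84.HSGF.GB2
import Pool.Agent.Lib_helper84.LVF.LB
import Pool.Agent.Lib_helper84.LVF.LF
import Pool.Agent.Lib_helper84.LVF.LI1
import Pool.Agent.Lib_helper84.LVF.LM

/-! # LV, block LQ (GLO): orbits under matrices of totally positive determinant -/

namespace Pool.Agent.HSG.LV

open Complex NumberField IsDedekindDomain
open scoped nonZeroDivisors MatrixGroups

variable {K : Type} [Field K] [NumberField K]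

/-- a representative of the class of `a` is `t a` with `t` totally positive -/
theorem lq_rep {b : NCl K → Id K} (hb : ∀ κ, (QuotientGroup.mk (b κ) : NCl K) = κ) (a : Id K) :
    ∃ (t : Kˣ) (κ : NCl K), t ∈ Kp K ∧ b κ = prI t * a := by
  have h := hb (QuotientGroup.mk a)
  rw [eq_comm, QuotientGroup.eq] at h
  obtain ⟨t, ht, ht1⟩ := h
  refine ⟨t, QuotientGroup.mk a, ht, ?_⟩
  rw [ht1, mul_comm a⁻¹, mul_assoc, inv_mul_cancel, mul_one]

omit [NumberField K] in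
theorem lq_dgm_inv (α : Kˣ) : (dgm α)⁻¹ = dgm α⁻¹ := by
  apply Units.ext
  rfl

omit [NumberField K] in
theorem lq_det_dgm (α : Kˣ) : Matrix.GeneralLinearGroup.det (dgm α) = α := by
  apply Units.ext
  show Matrix.det !![(α : K), 0; 0, 1] = α
  simp [Matrix.det_fin_two]

theorem lq_act {n : Id K} (g : GL (Fin 2) K) (x : Pt n) : g • x = x.mul g⁻¹ := rfl

theorem orb_gl {n : Id K} (hn : IsInt n) {b : NCl K → Id K}
    (hb : ∀ κ, (QuotientGroup.mk (b κ) : NCl K) = κ) (x : Pt n) {v : Fin 2 → K} (hv : v ∈ x.V)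
    (h0 : v ≠ 0) : ∃ (g : GL (Fin 2) K) (κ : NCl K) (c : Id K) (hc : Cp n c),
      Matrix.GeneralLinearGroup.det g ∈ Kp K ∧ (g : Matrix (Fin 2) (Fin 2) K) 1 = v ∧
        g • x = ptS (b κ) hc := by
  obtain ⟨g0, c, hc, h1, h2⟩ := orb hn x hv h0
  obtain ⟨t, κ, ht, hκ⟩ := lq_rep hb (x.L.det * c)
  refine ⟨dgm t⁻¹ * (g0 : GL (Fin 2) K), κ, c, hc, ?_, ?_, ?_⟩
  · have h3 : Matrix.GeneralLinearGroup.det (g0 : GL (Fin 2) K) = 1 := by
      apply Units.ext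
      simp
    rw [map_mul, lq_det_dgm, h3, mul_one]
    exact inv_mem ht
  · rw [Units.val_mul]
    rw [← h1]
    ext j
    show ∑ k, (!![((t⁻¹ : Kˣ) : K), 0; 0, 1] : Matrix (Fin 2) (Fin 2) K) 1 k *
      (g0 : Matrix (Fin 2) (Fin 2) K) k j = _
    simp [Fin.sum_univ_two]
  · rw [mul_smul]
    have h4 : (g0 : GL (Fin 2) K) • x = ptS (x.L.det * c) hc := h2
    rw [h4, lq_act, ← lq_dgm_inv, inv_inv, ptS_dgm, hκ]

omit [NumberField K] in
/-- a matrix whose last row is `(0, 1)` -/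
theorem lq_mat {g : GL (Fin 2) K} (h1 : (g : Matrix (Fin 2) (Fin 2) K) 1 = ![0, 1]) :
    g = (nm ((g : Matrix (Fin 2) (Fin 2) K) 0 1) : GL (Fin 2) K) *
      dgm (Matrix.GeneralLinearGroup.det g) := by
  have h10 : (g : Matrix (Fin 2) (Fin 2) K) 1 0 = 0 := by rw [h1]; rfl
  have h11 : (g : Matrix (Fin 2) (Fin 2) K) 1 1 = 1 := by rw [h1]; rfl
  have hd : ((Matrix.GeneralLinearGroup.det g : Kˣ) : K) =
      (g : Matrix (Fin 2) (Fin 2) K) 0 0 := by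
    show Matrix.det (g : Matrix (Fin 2) (Fin 2) K) = _
    rw [Matrix.det_fin_two, h10, h11]
    ring
  apply Units.ext
  rw [Units.val_mul]
  have e1 : (((nm ((g : Matrix (Fin 2) (Fin 2) K) 0 1) : SL(2, K)) : GL (Fin 2) K) :
      Matrix (Fin 2) (Fin 2) K) = !![1, (g : Matrix (Fin 2) (Fin 2) K) 0 1; 0, 1] := rfl
  have e2 : ((dgm (Matrix.GeneralLinearGroup.det g) : GL (Fin 2) K) :
      Matrix (Fin 2) (Fin 2) K) = !![((Matrix.GeneralLinearGroup.det g : Kˣ) : K), 0; 0, 1] := rfl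
  rw [e1, e2, hd, Matrix.mul_fin_two]
  ext i j
  fin_cases i <;> fin_cases j
  · simp
  · simp
  · simpa using h10
  · simpa using h11

theorem stab_gl {g : GL (Fin 2) K} {n b b' c c' : Id K} (hc : Cp n c) (hc' : Cp n c')
    (h1 : (g : Matrix (Fin 2) (Fin 2) K) 1 = ![0, 1]) (h : g • ptS b hc = ptS b' hc') :
    c = c' ∧ prI (Matrix.GeneralLinearGroup.det g) * b' = b ∧ ∃ β ∈ (c⁻¹ / b').m,
      (g : Matrix (Fin 2) (Fin 2) K) = !![((Matrix.GeneralLinearGroup.det g : Kˣ) : K), β; 0, 1] := by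
  set d := Matrix.GeneralLinearGroup.det g with hd
  set β := (g : Matrix (Fin 2) (Fin 2) K) 0 1 with hβ
  have hg : g = (nm β : GL (Fin 2) K) * dgm d := lq_mat h1
  have h2 : dgm d • ptS b hc = ptS (prI d⁻¹ * b) hc := by
    rw [lq_act, lq_dgm_inv, ptS_dgm]
  have h3 : (nm β : SL(2, K)) • ptS (prI d⁻¹ * b) hc = ptS b' hc' := by
    rw [← h2]
    show (nm β : GL (Fin 2) K) • dgm d • ptS b hc = ptS b' hc'
    rw [← mul_smul, ← hg]
    exact h
  obtain ⟨e1, e2, β', hβ', e3⟩ := stab01 hc hc' (by rfl) h3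
  have e4 : β = β' := by
    have := congrArg (fun m : SL(2, K) => (m : Matrix (Fin 2) (Fin 2) K) 0 1) e3
    simpa [nm] using this
  refine ⟨e2, ?_, β, ?_, ?_⟩
  · rw [← e1, ← mul_assoc, ← map_mul, mul_inv_cancel, map_one, one_mul]
  · rw [e4, ← e1]
    exact hβ'
  · have h10 : (g : Matrix (Fin 2) (Fin 2) K) 1 0 = 0 := by rw [h1]; rfl
    have h11 : (g : Matrix (Fin 2) (Fin 2) K) 1 1 = 1 := by rw [h1]; rfl
    have hd' : ((d : Kˣ) : K) = (g : Matrix (Fin 2) (Fin 2) K) 0 0 := by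
      show Matrix.det (g : Matrix (Fin 2) (Fin 2) K) = _
      rw [Matrix.det_fin_two, h10, h11]
      ring
    rw [hd']
    ext i j
    fin_cases i <;> fin_cases j
    · rfl
    · rfl
    · exact h10
    · exact h11

omit [NumberField K] in
/-- the matrix `diag(α, δ)` -/
theorem lq_diag (α δ : Kˣ) : ∃ g : GL (Fin 2) K,
    (g : Matrix (Fin 2) (Fin 2) K) = !![(α : K), 0; 0, (δ : K)] ∧
    ((g⁻¹ : GL (Fin 2) K) : Matrix (Fin 2) (Fin 2) K) =
      !![((α⁻¹ : Kˣ) : K), 0; 0, ((δ⁻¹ : Kˣ) : K)] :=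
  ⟨{ val := !![(α : K), 0; 0, (δ : K)]
     inv := !![((α⁻¹ : Kˣ) : K), 0; 0, ((δ⁻¹ : Kˣ) : K)]
     val_inv := by
       ext i j
       fin_cases i <;> fin_cases j <;> simp
     inv_val := by
       ext i j
       fin_cases i <;> fin_cases j <;> simp }, rfl, rfl⟩

theorem lq_ds_diag {α δ : Kˣ} {g : GL (Fin 2) K}
    (hg : ((g⁻¹ : GL (Fin 2) K) : Matrix (Fin 2) (Fin 2) K) =
      !![((α⁻¹ : Kˣ) : K), 0; 0, ((δ⁻¹ : Kˣ) : K)]) (b a : Id K) :
    (Lat.ds b a).mul g = Lat.ds (prI α * b) (prI δ * a) := by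
  apply gb2_ext
  intro v
  rw [gb2_mem_mul', gb1_mem_ds, gb1_mem_ds, mem_prI_mul, mem_prI_mul, hg]
  have h0 : Matrix.vecMul v !![((α⁻¹ : Kˣ) : K), 0; 0, ((δ⁻¹ : Kˣ) : K)] 0 =
      ((α⁻¹ : Kˣ) : K) * v 0 := by
    simp [Matrix.vecMul, dotProduct, Fin.sum_univ_two, mul_comm]
  have h1 : Matrix.vecMul v !![((α⁻¹ : Kˣ) : K), 0; 0, ((δ⁻¹ : Kˣ) : K)] 1 =
      ((δ⁻¹ : Kˣ) : K) * v 1 := by
    simp [Matrix.vecMul, dotProduct, Fin.sum_univ_two, mul_comm]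
  rw [h0, h1]

/-- up to diagonal matrices there are only finitely many points over the lattices `b ⊕ a` -/
theorem fin_ds {n : Id K} (hn : IsInt n) : ∃ S : Set (Pt n), S.Finite ∧ ∀ x : Pt n,
    (∃ b a, x.L = Lat.ds b a) → ∃ (α δ : Kˣ) (g : GL (Fin 2) K), α ∈ Kp K ∧ δ ∈ Kp K ∧
      (g : Matrix (Fin 2) (Fin 2) K) = !![(α : K), 0; 0, (δ : K)] ∧ x.mul g ∈ S ∧
      ∃ b a, (x.mul g).L = Lat.ds b a := by
  have hfin : Finite (NCl K) := ncl_fin
  let b : NCl K → Id K := fun κ => κ.out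
  have hb : ∀ κ, (QuotientGroup.mk (b κ) : NCl K) = κ := fun κ => QuotientGroup.out_eq' κ
  refine ⟨⋃ κ : NCl K × NCl K, {x : Pt n | x.L = Lat.ds (b κ.1) (b κ.2)}, ?_, ?_⟩
  · exact Set.finite_iUnion fun κ => fib_fin hn _
  · rintro x ⟨b0, a0, hx⟩
    obtain ⟨α, κ, hα, h1⟩ := lq_rep hb b0
    obtain ⟨δ, κ', hδ, h2⟩ := lq_rep hb a0
    obtain ⟨g, hg, hg'⟩ := lq_diag α δ
    have h3 : (x.mul g).L = Lat.ds (b κ) (b κ') := by
      show x.L.mul g = _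
      rw [hx, lq_ds_diag hg', h1, h2]
    refine ⟨α, δ, g, hα, hδ, hg, ?_, b κ, b κ', h3⟩
    exact Set.mem_iUnion.2 ⟨(κ, κ'), h3⟩


end Pool.Agent.HSG.LV
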